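import Pool.Agent.W584.Octa

/-!
# The octahedral cycle is not a boundary
-/

namespace Pool.Agent.W584

open Finset

section generic

variable {V : Type*} [LinearOrder V]

theorem support_tri (a b c : V) : ∀ s ∈ (tri a b c).support, s = {a, b, c} := by
  intro s hs
  unfold tri at hs
  have h1 := Finsupp.support_smul hs
  have h2 := Finsupp.support_single_subset h1
  simpa using h2

theorem isChain_tri {K : Finset V → Prop} {a b c : V} (hab : a ≠ b) (hbc : b ≠ c) (hac : a ≠ c)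
    (hK : K {a, b, c}) : IsChain K 3 (tri a b c) := by
  intro s hs
  rw [support_tri a b c s hs]
  refine ⟨hK, ?_⟩
  rw [Finset.card_insert_of_notMem, Finset.card_pair hbc]
  simp [hab, hac]

theorem IsChain.add {K : Finset V → Prop} {m : ℕ} {c d : Finset V →₀ ℤ} (hc : IsChain K m c)
    (hd : IsChain K m d) : IsChain K m (c + d) := by
  intro s hs
  rcases Finset.mem_union.1 (Finsupp.support_add hs) with h | h
  · exact hc s h
  · exact hd s h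

theorem IsChain.sub {K : Finset V → Prop} {m : ℕ} {c d : Finset V →₀ ℤ} (hc : IsChain K m c)
    (hd : IsChain K m d) : IsChain K m (c - d) := by
  intro s hs
  rcases Finset.mem_union.1 (Finsupp.support_sub hs) with h | h
  · exact hc s h
  · exact hd s h

/-- The octahedral chain. -/
noncomputable def oct (e1 e2 e3 f1 f2 f3 : V) : Finset V →₀ ℤ :=
  tri e1 e2 e3 - tri f1 e2 e3 - tri e1 f2 e3 - tri e1 e2 f3 + tri e1 f2 f3 + tri f1 e2 f3 +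
    tri f1 f2 e3 - tri f1 f2 f3

/-- The twelve inequalities expressing that antipodal-free pairs are distinct. -/
structure Oct (e1 e2 e3 f1 f2 f3 : V) : Prop where
  a1 : e1 ≠ e2
  a2 : e1 ≠ e3
  a3 : e2 ≠ e3
  a4 : f1 ≠ e2
  a5 : f1 ≠ e3
  a6 : e1 ≠ f2
  a7 : f2 ≠ e3
  a8 : e1 ≠ f3
  a9 : e2 ≠ f3
  a10 : f1 ≠ f2
  a11 : f1 ≠ f3
  a12 : f2 ≠ f3

theorem bd_oct {e1 e2 e3 f1 f2 f3 : V} (h : Oct e1 e2 e3 f1 f2 f3) :
    bd (oct e1 e2 e3 f1 f2 f3) = 0 := by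
  obtain ⟨a1, a2, a3, a4, a5, a6, a7, a8, a9, a10, a11, a12⟩ := h
  unfold oct
  simp only [map_add, map_sub]
  rw [bd_tri a1 a3 a2, bd_tri a4 a3 a5, bd_tri a6 a7 a2, bd_tri a1 a9 a8, bd_tri a6 a12 a8,
    bd_tri a4 a9 a11, bd_tri a10 a7 a5, bd_tri a10 a12 a11]
  abel

theorem LA_oct (A : V → V → V → ℤ) (hA1 : ∀ a b c, A b a c = - A a b c)
    (hA2 : ∀ a b c, A a c b = - A a b c) {e1 e2 e3 f1 f2 f3 : V} (h : Oct e1 e2 e3 f1 f2 f3) :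
    LA A (oct e1 e2 e3 f1 f2 f3) = A e1 e2 e3 - A f1 e2 e3 - A e1 f2 e3 - A e1 e2 f3 +
      A e1 f2 f3 + A f1 e2 f3 + A f1 f2 e3 - A f1 f2 f3 := by
  obtain ⟨a1, a2, a3, a4, a5, a6, a7, a8, a9, a10, a11, a12⟩ := h
  unfold oct
  simp only [map_add, map_sub]
  rw [LA_tri A hA1 hA2 a1 a3 a2, LA_tri A hA1 hA2 a4 a3 a5, LA_tri A hA1 hA2 a6 a7 a2,
    LA_tri A hA1 hA2 a1 a9 a8, LA_tri A hA1 hA2 a6 a12 a8,
    LA_tri A hA1 hA2 a4 a9 a11, LA_tri A hA1 hA2 a10 a7 a5, LA_tri A hA1 hA2 a10 a12 a11]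

theorem isChain_oct {K : Finset V → Prop} {e1 e2 e3 f1 f2 f3 : V} (h : Oct e1 e2 e3 f1 f2 f3)
    (k1 : K {e1, e2, e3}) (k2 : K {f1, e2, e3}) (k3 : K {e1, f2, e3}) (k4 : K {e1, e2, f3})
    (k5 : K {e1, f2, f3}) (k6 : K {f1, e2, f3}) (k7 : K {f1, f2, e3}) (k8 : K {f1, f2, f3}) :
    IsChain K 3 (oct e1 e2 e3 f1 f2 f3) := by
  obtain ⟨a1, a2, a3, a4, a5, a6, a7, a8, a9, a10, a11, a12⟩ := h
  unfold oct
  exact ((((((((isChain_tri a1 a3 a2 k1).sub (isChain_tri a4 a3 a5 k2)).sub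
    (isChain_tri a6 a7 a2 k3)).sub (isChain_tri a1 a9 a8 k4)).add
    (isChain_tri a6 a12 a8 k5)).add (isChain_tri a4 a9 a11 k6)).add
    (isChain_tri a10 a7 a5 k7)).sub (isChain_tri a10 a12 a11 k8))

/-- A form of `LA_bd_eq_zero` which does not mention the order. -/
theorem LA_bd_eq_zero_of_ne (A : V → V → V → ℤ) (K : Finset V → Prop)
    (hA : ∀ s, K s → ∀ a ∈ s, ∀ b ∈ s, ∀ c ∈ s, ∀ d ∈ s, a ≠ b → a ≠ c → a ≠ d → b ≠ c →
      b ≠ d → c ≠ d → A b c d - A a c d + A a b d - A a b c = 0)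
    {c : Finset V →₀ ℤ} (hc : IsChain K 4 c) : LA A (bd c) = 0 := by
  apply LA_bd_eq_zero A K _ hc
  intro x y z w hxy hyz hzw hK
  have hxz := lt_trans hxy hyz
  have hyw := lt_trans hyz hzw
  have hxw := lt_trans hxz hzw
  exact hA _ hK x (by simp) y (by simp) z (by simp) w (by simp) hxy.ne hxz.ne hxw.ne
    hyz.ne hyw.ne hzw.ne

theorem isChain_oct' {K : Finset V → Prop} {e1 e2 e3 f1 f2 f3 : V} (h : Oct e1 e2 e3 f1 f2 f3)
    (k1 : ∀ s : Finset V, (∀ W ∈ s, W = e1 ∨ W = e2 ∨ W = e3) → K s)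
    (k2 : ∀ s : Finset V, (∀ W ∈ s, W = f1 ∨ W = e2 ∨ W = e3) → K s)
    (k3 : ∀ s : Finset V, (∀ W ∈ s, W = e1 ∨ W = f2 ∨ W = e3) → K s)
    (k4 : ∀ s : Finset V, (∀ W ∈ s, W = e1 ∨ W = e2 ∨ W = f3) → K s)
    (k5 : ∀ s : Finset V, (∀ W ∈ s, W = e1 ∨ W = f2 ∨ W = f3) → K s)
    (k6 : ∀ s : Finset V, (∀ W ∈ s, W = f1 ∨ W = e2 ∨ W = f3) → K s)
    (k7 : ∀ s : Finset V, (∀ W ∈ s, W = f1 ∨ W = f2 ∨ W = e3) → K s)
    (k8 : ∀ s : Finset V, (∀ W ∈ s, W = f1 ∨ W = f2 ∨ W = f3) → K s) :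
    IsChain K 3 (oct e1 e2 e3 f1 f2 f3) :=
  isChain_oct h (k1 _ (by simp)) (k2 _ (by simp)) (k3 _ (by simp)) (k4 _ (by simp))
    (k5 _ (by simp)) (k6 _ (by simp)) (k7 _ (by simp)) (k8 _ (by simp))

end generic

end Pool.Agent.W584
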