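import Mathlib

/-!
# Reduced simplicial homology of an abstract simplicial complex with ordered vertices
-/

namespace Pool.Agent.W584

open Finset

section defs

variable {V : Type*} [LinearOrder V]

/-- The simplicial boundary operator on finitely supported integral functions on finite sets of
vertices: the boundary of `s = {v₀ < v₁ < ⋯ < vₙ}` is `∑ (-1) ^ i (s \ {vᵢ})`. Here `i` is the
number of elements of `s` below `vᵢ`. For a vertex `v` the boundary of `{v}` is the empty
simplex (augmentation). -/
noncomputable def bd : (Finset V →₀ ℤ) →+ (Finset V →₀ ℤ) :=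
  Finsupp.liftAddHom fun s =>
    (zmultiplesHom (Finset V →₀ ℤ)) (∑ x ∈ s, (-1 : ℤ) ^ (s.filter (· < x)).card •
      Finsupp.single (s.erase x) (1 : ℤ))

/-- `c` is a chain of the complex with set of simplices `K` whose simplices have `m` vertices
(that is, of dimension `m - 1`). -/
def IsChain (K : Finset V → Prop) (m : ℕ) (c : Finset V →₀ ℤ) : Prop :=
  ∀ s ∈ c.support, K s ∧ s.card = m

/-- The reduced simplicial homology in dimension `m - 1` of the complex with set of simplices
`K` (the empty simplex included) vanishes: every cycle is a boundary. -/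
def ReducedHomologyVanishes (K : Finset V → Prop) (m : ℕ) : Prop :=
  ∀ c : Finset V →₀ ℤ, IsChain K m c → bd c = 0 →
    ∃ b : Finset V →₀ ℤ, IsChain K (m + 1) b ∧ bd b = c

end defs

variable {V : Type*} [LinearOrder V]

theorem bd_single (s : Finset V) (n : ℤ) :
    bd (Finsupp.single s n) = n • ∑ x ∈ s, (-1 : ℤ) ^ (s.filter (· < x)).card •
      Finsupp.single (s.erase x) (1 : ℤ) := by
  unfold bd
  rw [Finsupp.liftAddHom_apply_single]
  rfl

/-- The sign of an ordered pair. -/
def eps (a b : V) : ℤ := if a < b then 1 else -1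

theorem eps_swap {a b : V} (h : a ≠ b) : eps b a = - eps a b := by
  unfold eps
  rcases lt_or_gt_of_ne h with h1 | h1
  · rw [if_pos h1, if_neg h1.le.not_gt]
  · rw [if_pos h1, if_neg h1.le.not_gt]; ring

/-- The oriented edge. -/
noncomputable def edge (a b : V) : Finset V →₀ ℤ := eps a b • Finsupp.single {a, b} 1

theorem edge_swap {a b : V} (h : a ≠ b) : edge b a = - edge a b := by
  unfold edge
  rw [eps_swap h, Finset.pair_comm, neg_smul]

/-- The oriented triangle. -/
noncomputable def tri (a b c : V) : Finset V →₀ ℤ :=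
  (eps a b * eps b c * eps a c) • Finsupp.single {a, b, c} 1

theorem bd_tri_sorted {a b c : V} (h1 : a < b) (h2 : b < c) :
    bd (Finsupp.single ({a, b, c} : Finset V) 1) = Finsupp.single {b, c} 1 -
      Finsupp.single {a, c} 1 + Finsupp.single {a, b} 1 := by
  have h3 := h1.trans h2
  rw [bd_single, one_smul]
  rw [Finset.sum_insert (by simp [h1.ne, h3.ne]), Finset.sum_insert (by simp [h2.ne]),
    Finset.sum_singleton]
  have e1 : ({a, b, c} : Finset V).filter (· < a) = ∅ := by
    ext x; simp only [mem_filter, mem_insert, mem_singleton, notMem_empty, iff_false]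
    rintro ⟨rfl | rfl | rfl, hx⟩ <;> order
  have e2 : ({a, b, c} : Finset V).filter (· < b) = {a} := by
    ext x; simp only [mem_filter, mem_insert, mem_singleton]
    constructor
    · rintro ⟨rfl | rfl | rfl, hx⟩
      · rfl
      · order
      · order
    · rintro rfl; exact ⟨Or.inl rfl, h1⟩
  have e3 : ({a, b, c} : Finset V).filter (· < c) = {a, b} := by
    ext x; simp only [mem_filter, mem_insert, mem_singleton]
    constructor
    · rintro ⟨rfl | rfl | rfl, hx⟩
      · exact Or.inl rfl
      · exact Or.inr rfl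
      · order
    · rintro (rfl | rfl)
      · exact ⟨Or.inl rfl, h3⟩
      · exact ⟨Or.inr (Or.inl rfl), h2⟩
  have f1 : ({a, b, c} : Finset V).erase a = {b, c} := by
    ext x; simp only [mem_erase, mem_insert, mem_singleton]
    constructor
    · rintro ⟨h, rfl | rfl | rfl⟩
      · exact absurd rfl h
      · exact Or.inl rfl
      · exact Or.inr rfl
    · rintro (rfl | rfl)
      · exact ⟨h1.ne', Or.inr (Or.inl rfl)⟩
      · exact ⟨h3.ne', Or.inr (Or.inr rfl)⟩
  have f2 : ({a, b, c} : Finset V).erase b = {a, c} := by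
    ext x; simp only [mem_erase, mem_insert, mem_singleton]
    constructor
    · rintro ⟨h, rfl | rfl | rfl⟩
      · exact Or.inl rfl
      · exact absurd rfl h
      · exact Or.inr rfl
    · rintro (rfl | rfl)
      · exact ⟨h1.ne, Or.inl rfl⟩
      · exact ⟨h2.ne', Or.inr (Or.inr rfl)⟩
  have f3 : ({a, b, c} : Finset V).erase c = {a, b} := by
    ext x; simp only [mem_erase, mem_insert, mem_singleton]
    constructor
    · rintro ⟨h, rfl | rfl | rfl⟩
      · exact Or.inl rfl
      · exact Or.inr rfl
      · exact absurd rfl h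
    · rintro (rfl | rfl)
      · exact ⟨h3.ne, Or.inl rfl⟩
      · exact ⟨h2.ne, Or.inr (Or.inl rfl)⟩
  rw [e1, e2, e3, f1, f2, f3, Finset.card_empty, Finset.card_singleton,
    Finset.card_pair h1.ne]
  simp only [pow_zero, one_smul, pow_one, neg_smul]
  norm_num
  abel

theorem perm_132 (a b c : V) : ({a, b, c} : Finset V) = {a, c, b} := by
  rw [Finset.pair_comm b c]

theorem perm_213 (a b c : V) : ({a, b, c} : Finset V) = {b, a, c} := Finset.insert_comm a b {c}

/-- A function on ordered triples evaluated on finite sets with three elements. -/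
noncomputable def val3 (A : V → V → V → ℤ) (s : Finset V) : ℤ :=
  if h : s.card = 3 then A (s.orderEmbOfFin h 0) (s.orderEmbOfFin h 1) (s.orderEmbOfFin h 2)
  else 0

theorem card3 {a b c : V} (h1 : a < b) (h2 : b < c) : ({a, b, c} : Finset V).card = 3 := by
  rw [Finset.card_insert_of_notMem, Finset.card_pair h2.ne]
  simp [h1.ne, (h1.trans h2).ne]

theorem val3_sorted (A : V → V → V → ℤ) {a b c : V} (h1 : a < b) (h2 : b < c) :
    val3 A {a, b, c} = A a b c := by
  unfold val3
  rw [dif_pos (card3 h1 h2)]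
  have : (![a, b, c] : Fin 3 → V) =
      ({a, b, c} : Finset V).orderEmbOfFin (card3 h1 h2) := by
    apply Finset.orderEmbOfFin_unique
    · intro x
      fin_cases x <;> simp
    · intro i j hij
      fin_cases i <;> fin_cases j <;> simp at hij ⊢
      · exact h1
      · exact h1.trans h2
      · exact h2
  rw [← this]
  rfl

/-- The functional attached to a function on ordered triples. -/
noncomputable def LA (A : V → V → V → ℤ) : (Finset V →₀ ℤ) →+ ℤ :=
  Finsupp.liftAddHom fun s => (zmultiplesHom ℤ) (val3 A s)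

theorem LA_single (A : V → V → V → ℤ) (s : Finset V) (n : ℤ) :
    LA A (Finsupp.single s n) = n * val3 A s := by
  unfold LA
  rw [Finsupp.liftAddHom_apply_single]
  simp

theorem LA_bd_four (A : V → V → V → ℤ) {a b c d : V} (h1 : a < b) (h2 : b < c) (h3 : c < d) :
    LA A (bd (Finsupp.single ({a, b, c, d} : Finset V) 1)) =
      A b c d - A a c d + A a b d - A a b c := by
  have h12 := h1.trans h2
  have h23 := h2.trans h3
  have h13 := h12.trans h3
  rw [bd_single, one_smul]
  rw [Finset.sum_insert (by simp [h1.ne, h12.ne, h13.ne]),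
    Finset.sum_insert (by simp [h2.ne, h23.ne]), Finset.sum_insert (by simp [h3.ne]),
    Finset.sum_singleton]
  have e1 : ({a, b, c, d} : Finset V).filter (· < a) = ∅ := by
    ext x; simp only [mem_filter, mem_insert, mem_singleton, notMem_empty, iff_false]
    rintro ⟨rfl | rfl | rfl | rfl, hx⟩ <;> order
  have e2 : ({a, b, c, d} : Finset V).filter (· < b) = {a} := by
    ext x; simp only [mem_filter, mem_insert, mem_singleton]
    constructor
    · rintro ⟨rfl | rfl | rfl | rfl, hx⟩
      · rfl
      · order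
      · order
      · order
    · rintro rfl; exact ⟨Or.inl rfl, h1⟩
  have e3 : ({a, b, c, d} : Finset V).filter (· < c) = {a, b} := by
    ext x; simp only [mem_filter, mem_insert, mem_singleton]
    constructor
    · rintro ⟨rfl | rfl | rfl | rfl, hx⟩
      · exact Or.inl rfl
      · exact Or.inr rfl
      · order
      · order
    · rintro (rfl | rfl)
      · exact ⟨Or.inl rfl, h12⟩
      · exact ⟨Or.inr (Or.inl rfl), h2⟩
  have e4 : ({a, b, c, d} : Finset V).filter (· < d) = {a, b, c} := by
    ext x; simp only [mem_filter, mem_insert, mem_singleton]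
    constructor
    · rintro ⟨rfl | rfl | rfl | rfl, hx⟩
      · exact Or.inl rfl
      · exact Or.inr (Or.inl rfl)
      · exact Or.inr (Or.inr rfl)
      · order
    · rintro (rfl | rfl | rfl)
      · exact ⟨Or.inl rfl, h13⟩
      · exact ⟨Or.inr (Or.inl rfl), h23⟩
      · exact ⟨Or.inr (Or.inr (Or.inl rfl)), h3⟩
  have f1 : ({a, b, c, d} : Finset V).erase a = {b, c, d} := by
    ext x; simp only [mem_erase, mem_insert, mem_singleton]
    constructor
    · rintro ⟨h, rfl | rfl | rfl | rfl⟩
      · exact absurd rfl h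
      · exact Or.inl rfl
      · exact Or.inr (Or.inl rfl)
      · exact Or.inr (Or.inr rfl)
    · rintro (rfl | rfl | rfl)
      · exact ⟨h1.ne', Or.inr (Or.inl rfl)⟩
      · exact ⟨h12.ne', Or.inr (Or.inr (Or.inl rfl))⟩
      · exact ⟨h13.ne', Or.inr (Or.inr (Or.inr rfl))⟩
  have f2 : ({a, b, c, d} : Finset V).erase b = {a, c, d} := by
    ext x; simp only [mem_erase, mem_insert, mem_singleton]
    constructor
    · rintro ⟨h, rfl | rfl | rfl | rfl⟩
      · exact Or.inl rfl
      · exact absurd rfl h
      · exact Or.inr (Or.inl rfl)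
      · exact Or.inr (Or.inr rfl)
    · rintro (rfl | rfl | rfl)
      · exact ⟨h1.ne, Or.inl rfl⟩
      · exact ⟨h2.ne', Or.inr (Or.inr (Or.inl rfl))⟩
      · exact ⟨h23.ne', Or.inr (Or.inr (Or.inr rfl))⟩
  have f3 : ({a, b, c, d} : Finset V).erase c = {a, b, d} := by
    ext x; simp only [mem_erase, mem_insert, mem_singleton]
    constructor
    · rintro ⟨h, rfl | rfl | rfl | rfl⟩
      · exact Or.inl rfl
      · exact Or.inr (Or.inl rfl)
      · exact absurd rfl h
      · exact Or.inr (Or.inr rfl)
    · rintro (rfl | rfl | rfl)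
      · exact ⟨h12.ne, Or.inl rfl⟩
      · exact ⟨h2.ne, Or.inr (Or.inl rfl)⟩
      · exact ⟨h3.ne', Or.inr (Or.inr (Or.inr rfl))⟩
  have f4 : ({a, b, c, d} : Finset V).erase d = {a, b, c} := by
    ext x; simp only [mem_erase, mem_insert, mem_singleton]
    constructor
    · rintro ⟨h, rfl | rfl | rfl | rfl⟩
      · exact Or.inl rfl
      · exact Or.inr (Or.inl rfl)
      · exact Or.inr (Or.inr rfl)
      · exact absurd rfl h
    · rintro (rfl | rfl | rfl)
      · exact ⟨h13.ne, Or.inl rfl⟩
      · exact ⟨h23.ne, Or.inr (Or.inl rfl)⟩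
      · exact ⟨h3.ne, Or.inr (Or.inr (Or.inl rfl))⟩
  rw [e1, e2, e3, e4, f1, f2, f3, f4, Finset.card_empty, Finset.card_singleton,
    Finset.card_pair h1.ne, card3 h1 h2]
  simp only [map_add, map_zsmul, LA_single, one_mul, val3_sorted A h2 h3, val3_sorted A h12 h3,
    val3_sorted A h1 h23, val3_sorted A h1 h2]
  norm_num
  ring

theorem LA_bd_eq_zero (A : V → V → V → ℤ) (K : Finset V → Prop)
    (hA : ∀ a b c d : V, a < b → b < c → c < d → K {a, b, c, d} →
      A b c d - A a c d + A a b d - A a b c = 0)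
    {c : Finset V →₀ ℤ} (hc : IsChain K 4 c) : LA A (bd c) = 0 := by
  have h1 : c = ∑ s ∈ c.support, c s • Finsupp.single s 1 := by
    conv_lhs => rw [← Finsupp.sum_single c]
    unfold Finsupp.sum
    apply Finset.sum_congr rfl
    intro s _
    simp
  rw [h1, map_sum, map_sum]
  apply Finset.sum_eq_zero
  intro s hs
  obtain ⟨hK, hcard⟩ := hc s hs
  rw [map_zsmul, map_zsmul]
  have hs' : s = {s.orderEmbOfFin hcard 0, s.orderEmbOfFin hcard 1, s.orderEmbOfFin hcard 2,
      s.orderEmbOfFin hcard 3} := by
    have himg : Finset.image (s.orderEmbOfFin hcard) Finset.univ = s :=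
      Finset.image_orderEmbOfFin_univ s hcard
    conv_lhs => rw [← himg]
    ext x
    simp only [mem_image, mem_univ, true_and, mem_insert, mem_singleton]
    constructor
    · rintro ⟨i, rfl⟩
      fin_cases i <;> simp
    · rintro (rfl | rfl | rfl | rfl)
      exacts [⟨0, rfl⟩, ⟨1, rfl⟩, ⟨2, rfl⟩, ⟨3, rfl⟩]
  have l1 : s.orderEmbOfFin hcard 0 < s.orderEmbOfFin hcard 1 :=
    (s.orderEmbOfFin hcard).strictMono (by decide)
  have l2 : s.orderEmbOfFin hcard 1 < s.orderEmbOfFin hcard 2 :=
    (s.orderEmbOfFin hcard).strictMono (by decide)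
  have l3 : s.orderEmbOfFin hcard 2 < s.orderEmbOfFin hcard 3 :=
    (s.orderEmbOfFin hcard).strictMono (by decide)
  have h2 : LA A (bd (Finsupp.single s 1)) = 0 := by
    generalize s.orderEmbOfFin hcard 0 = x0 at *
    generalize s.orderEmbOfFin hcard 1 = x1 at *
    generalize s.orderEmbOfFin hcard 2 = x2 at *
    generalize s.orderEmbOfFin hcard 3 = x3 at *
    subst hs'
    rw [LA_bd_four A l1 l2 l3]
    exact hA _ _ _ _ l1 l2 l3 hK
  rw [h2, smul_zero]

theorem eps_of_lt {a b : V} (h : a < b) : eps a b = 1 := by unfold eps; rw [if_pos h]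

theorem eps_of_gt {a b : V} (h : b < a) : eps a b = -1 := by
  unfold eps; rw [if_neg h.le.not_gt]

theorem bd_tri {a b c : V} (hab : a ≠ b) (hbc : b ≠ c) (hac : a ≠ c) :
    bd (tri a b c) = edge b c - edge a c + edge a b := by
  unfold tri edge
  rw [map_zsmul]
  rcases lt_or_gt_of_ne hab with h1 | h1 <;> rcases lt_or_gt_of_ne hbc with h2 | h2 <;>
    rcases lt_or_gt_of_ne hac with h3 | h3
  · rw [bd_tri_sorted h1 h2, eps_of_lt h1, eps_of_lt h2, eps_of_lt h3]
    simp
  · exfalso; order
  · -- a < c < b
    rw [perm_132, bd_tri_sorted h3 h2, eps_of_lt h1, eps_of_gt h2, eps_of_lt h3,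
      Finset.pair_comm c b]
    simp only [mul_one, mul_neg, one_smul, neg_smul]
    abel
  · -- c < a < b
    rw [perm_132, perm_213, bd_tri_sorted h3 h1, eps_of_lt h1, eps_of_gt h2, eps_of_gt h3,
      Finset.pair_comm c b, Finset.pair_comm c a]
    simp only [mul_one, mul_neg, one_smul, neg_smul, neg_neg]
    abel
  · -- b < a < c
    rw [perm_213, bd_tri_sorted h1 h3, eps_of_gt h1, eps_of_lt h2, eps_of_lt h3,
      Finset.pair_comm b a]
    simp only [mul_one, one_smul, neg_smul]
    abel
  · -- b < c < a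
    rw [perm_213, perm_132, bd_tri_sorted h2 h3, eps_of_gt h1, eps_of_lt h2, eps_of_gt h3,
      Finset.pair_comm b a, Finset.pair_comm c a]
    simp only [mul_one, mul_neg, one_smul, neg_smul, neg_neg]
    abel
  · exfalso; order
  · -- c < b < a
    rw [perm_132, perm_213, perm_132, bd_tri_sorted h2 h1, eps_of_gt h1, eps_of_gt h2,
      eps_of_gt h3, Finset.pair_comm b a, Finset.pair_comm c a, Finset.pair_comm c b]
    simp only [mul_neg, mul_one, neg_neg, neg_smul, one_smul]
    abel

theorem LA_tri (A : V → V → V → ℤ) (hA1 : ∀ a b c, A b a c = - A a b c)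
    (hA2 : ∀ a b c, A a c b = - A a b c) {a b c : V} (hab : a ≠ b) (hbc : b ≠ c)
    (hac : a ≠ c) : LA A (tri a b c) = A a b c := by
  unfold tri
  rw [map_zsmul, LA_single]
  rcases lt_or_gt_of_ne hab with h1 | h1 <;> rcases lt_or_gt_of_ne hbc with h2 | h2 <;>
    rcases lt_or_gt_of_ne hac with h3 | h3
  · rw [val3_sorted A h1 h2, eps_of_lt h1, eps_of_lt h2, eps_of_lt h3]
    simp
  · exfalso; order
  · rw [perm_132, val3_sorted A h3 h2, eps_of_lt h1, eps_of_gt h2, eps_of_lt h3, hA2]
    simp
  · rw [perm_132, perm_213, val3_sorted A h3 h1, eps_of_lt h1, eps_of_gt h2, eps_of_gt h3,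
      hA1, hA2]
    simp
  · rw [perm_213, val3_sorted A h1 h3, eps_of_gt h1, eps_of_lt h2, eps_of_lt h3, hA1]
    simp
  · rw [perm_213, perm_132, val3_sorted A h2 h3, eps_of_gt h1, eps_of_lt h2, eps_of_gt h3,
      hA2, hA1]
    simp
  · exfalso; order
  · rw [perm_132, perm_213, perm_132, val3_sorted A h2 h1, eps_of_gt h1, eps_of_gt h2,
      eps_of_gt h3, hA2, hA1, hA2]
    simp

end Pool.Agent.W584
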