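import Pool.Agent.W584.Lines
import Pool.Agent.W584.Simp

/-!
# The rank two modules attached to the vertices of the common basis complex of `R³`
-/

set_option linter.unusedSectionVars false

namespace Pool.Agent.W584

open Submodule

variable {R : Type*} [CommRing R] [IsDomain R]

/-- The free module of rank three. -/
abbrev V3 (R : Type*) : Type _ := Fin 3 → R

/-- `W` is free of rank two. -/
def IsP (W : Submodule R (V3 R)) : Prop := Nonempty (W ≃ₗ[R] (Fin 2 → R))

/-- The quotient by `W` is free of rank two. -/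
def IsL (W : Submodule R (V3 R)) : Prop := Nonempty ((V3 R ⧸ W) ≃ₗ[R] (Fin 2 → R))

open Classical in
/-- The trace of `U` in the rank two module attached to `W`. -/
noncomputable def ell (W U : Submodule R (V3 R)) : Submodule R (Fin 2 → R) :=
  if h : IsP W then (U.comap W.subtype).map (h.some : W →ₗ[R] (Fin 2 → R))
  else if h' : IsL W then U.map ((h'.some : (V3 R ⧸ W) →ₗ[R] (Fin 2 → R)) ∘ₗ W.mkQ)
  else ⊥

/-- The span of a part of a basis. -/
def S (b : Module.Basis (Fin 3) R (V3 R)) (I : Set (Fin 3)) : Submodule R (V3 R) :=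
  span R (b '' I)

variable (b : Module.Basis (Fin 3) R (V3 R))

theorem mem_S {I : Set (Fin 3)} {x : V3 R} : x ∈ S b I ↔ ∀ i, i ∉ I → b.repr x i = 0 := by
  unfold S
  rw [Module.Basis.mem_span_image]
  constructor
  · intro h i hi
    by_contra hne
    exact hi (h (Finsupp.mem_support_iff.2 hne))
  · intro h i hi
    by_contra hne
    exact (Finsupp.mem_support_iff.1 hi) (h i hne)

theorem S_singleton (i : Fin 3) : S b {i} = span R {b i} := by
  unfold S
  rw [Set.image_singleton]

theorem b_mem_S {I : Set (Fin 3)} {i : Fin 3} (hi : i ∈ I) : b i ∈ S b I :=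
  subset_span (Set.mem_image_of_mem _ hi)

theorem isCompl_S (I : Set (Fin 3)) : IsCompl (S b I) (S b Iᶜ) :=
  b.linearIndependent.isCompl_span_image b.span_eq isCompl_compl

theorem not_isCompl_of_mem {I J : Set (Fin 3)} {i : Fin 3} (hI : i ∈ I) (hJ : i ∈ J) :
    ¬ IsCompl (S b I) (S b J) := by
  intro h
  have : b i ∈ S b I ⊓ S b J := ⟨b_mem_S b hI, b_mem_S b hJ⟩
  rw [h.inf_eq_bot, Submodule.mem_bot] at this
  exact b.ne_zero i this

theorem not_isCompl_of_notMem {I J : Set (Fin 3)} {i : Fin 3} (hI : i ∉ I) (hJ : i ∉ J) :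
    ¬ IsCompl (S b I) (S b J) := by
  intro h
  have : b i ∈ S b I ⊔ S b J := by rw [h.sup_eq_top]; trivial
  obtain ⟨x, hx, y, hy, hxy⟩ := Submodule.mem_sup.1 this
  have h1 : b.repr (b i) i = b.repr x i + b.repr y i := by rw [← hxy]; simp
  rw [(mem_S b).1 hx i hI, (mem_S b).1 hy i hJ, Module.Basis.repr_self] at h1
  simp at h1

theorem S_eq_S_iff {I J : Set (Fin 3)} : S b I = S b J ↔ I = J := by
  constructor
  · intro h
    ext i
    constructor
    · intro hi
      have := b_mem_S b hi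
      rw [h, mem_S] at this
      by_contra hne
      have := this i hne
      simp at this
    · intro hi
      have := b_mem_S b hi
      rw [← h, mem_S] at this
      by_contra hne
      have := this i hne
      simp at this
  · rintro rfl; rfl

/-- `U` is of type `j` relative to the decomposition given by the basis `b`. -/
def TT (j : Fin 3) (U : Submodule R (V3 R)) : Prop := U = S b {j} ∨ U = S b {0, j}

/-- The data of the two complementary lines attached to a vertex in a frame. -/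
structure FrameAt (W : Submodule R (V3 R)) (A B : Submodule R (Fin 2 → R)) : Prop where
  lineA : IsLine A
  lineB : IsLine B
  compl : IsCompl A B
  t1 : ∀ U, TT b 1 U → ell W U = A ∧ ¬ IsCompl W U
  t2 : ∀ U, TT b 2 U → ell W U = B ∧ ¬ IsCompl W U

theorem lines_of_surj (ν : V3 R →ₗ[R] (Fin 2 → R)) (hs : Function.Surjective ν)
    (hk : ∀ x, ν x = 0 → x ∈ S b {0}) (h0 : ν (b 0) = 0) :
    IsLine (span R {ν (b 1)}) ∧ IsLine (span R {ν (b 2)}) ∧
      IsCompl (span R {ν (b 1)}) (span R {ν (b 2)}) := by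
  have hc : IsCompl (span R {ν (b 1)}) (span R {ν (b 2)}) := by
    apply IsCompl.of_eq
    · rw [eq_bot_iff]
      rintro y ⟨hy1, hy2⟩
      obtain ⟨α, rfl⟩ := Submodule.mem_span_singleton.1 hy1
      obtain ⟨β, hβ⟩ := Submodule.mem_span_singleton.1 hy2
      have h1 : ν (α • b 1 - β • b 2) = 0 := by
        rw [map_sub, map_smul, map_smul, hβ, sub_self]
      have h2 := hk _ h1
      rw [mem_S] at h2
      have h3 := h2 1 (by simp)
      simp at h3
      rw [h3, zero_smul]
      exact Submodule.zero_mem _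
    · rw [eq_top_iff]
      intro y _
      obtain ⟨x, rfl⟩ := hs y
      have hx : x = b.repr x 0 • b 0 + b.repr x 1 • b 1 + b.repr x 2 • b 2 := by
        conv_lhs => rw [← b.sum_repr x]
        rw [Fin.sum_univ_three]
      rw [hx, map_add, map_add, map_smul, map_smul, map_smul, h0, smul_zero, zero_add]
      exact Submodule.add_mem_sup (Submodule.smul_mem _ _ (mem_span_singleton_self _))
        (Submodule.smul_mem _ _ (mem_span_singleton_self _))
  have hne : ∀ i : Fin 3, i ≠ 0 → ν (b i) ≠ 0 := by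
    intro i hi h
    have h2 := hk _ h
    rw [mem_S] at h2
    have h3 := h2 i (by simpa using hi)
    simp at h3
  have hb1 : span R {ν (b 1)} ≠ ⊥ := by
    rw [Ne, span_singleton_eq_bot]; exact hne 1 (by decide)
  have hb2 : span R {ν (b 2)} ≠ ⊥ := by
    rw [Ne, span_singleton_eq_bot]; exact hne 2 (by decide)
  refine ⟨⟨hb1, ?_, _, hc⟩, ⟨hb2, ?_, _, hc.symm⟩, hc⟩
  · intro h
    rw [h] at hc
    exact hb2 (eq_bot_of_top_isCompl hc)
  · intro h
    rw [h] at hc
    exact hb1 (eq_bot_of_isCompl_top hc)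

theorem map_TT (ν : V3 R →ₗ[R] (Fin 2 → R)) (h0 : ν (b 0) = 0) {j : Fin 3}
    {U : Submodule R (V3 R)} (h : TT b j U) : U.map ν = span R {ν (b j)} := by
  rcases h with rfl | rfl
  · rw [S, Submodule.map_span, Set.image_singleton, Set.image_singleton]
  · rw [S, Submodule.map_span, Set.image_pair, Set.image_pair, h0, span_insert_zero]

/-- The coordinates `1` and `2` with respect to the basis. -/
noncomputable def kap : V3 R →ₗ[R] (Fin 2 → R) := LinearMap.pi ![b.coord 1, b.coord 2]

theorem kap_zero (x : V3 R) : kap b x 0 = b.repr x 1 := rfl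
theorem kap_one (x : V3 R) : kap b x 1 = b.repr x 2 := rfl

theorem kap_surj : ∀ y : Fin 2 → R, kap b (y 0 • b 1 + y 1 • b 2) = y := by
  intro y
  apply ext2
  · rw [kap_zero]; simp
  · rw [kap_one]; simp

theorem kap_ker (x : V3 R) : kap b x = 0 ↔ x ∈ S b {0} := by
  rw [mem_S]
  constructor
  · intro h i hi
    have h1 : b.repr x 1 = 0 := congrFun h 0
    have h2 : b.repr x 2 = 0 := congrFun h 1
    fin_cases i
    · exact absurd rfl hi
    · exact h1
    · exact h2
  · intro h
    apply ext2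
    · exact h 1 (by simp)
    · exact h 2 (by simp)

theorem isL_S0 : IsL (S b {0}) := by
  have hk : LinearMap.ker (kap b) = S b {0} := by
    ext x; rw [LinearMap.mem_ker, kap_ker]
  refine ⟨?_⟩
  rw [← hk]
  exact (kap b).quotKerEquivOfSurjective fun y => ⟨_, kap_surj b y⟩

theorem isP_S12 : IsP (S b {1, 2}) := by
  refine ⟨LinearEquiv.ofBijective ((kap b) ∘ₗ (S b {1, 2}).subtype) ⟨?_, ?_⟩⟩
  · rw [← LinearMap.ker_eq_bot, eq_bot_iff]
    intro x hx
    rw [LinearMap.mem_ker] at hx
    have h1 : (x : V3 R) ∈ S b {0} := (kap_ker b _).1 hx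
    have h2 : (x : V3 R) ∈ S b {0}ᶜ := by
      have : ({0}ᶜ : Set (Fin 3)) = {1, 2} := by
        ext i; fin_cases i <;> simp
      rw [this]; exact x.2
    have h3 : (x : V3 R) ∈ S b {0} ⊓ S b {0}ᶜ := ⟨h1, h2⟩
    rw [(isCompl_S b {0}).inf_eq_bot, Submodule.mem_bot] at h3
    rw [Submodule.mem_bot]
    exact Subtype.ext h3
  · intro y
    refine ⟨⟨y 0 • b 1 + y 1 • b 2, ?_⟩, kap_surj b y⟩
    exact Submodule.add_mem _ (Submodule.smul_mem _ _ (b_mem_S b (by simp)))
      (Submodule.smul_mem _ _ (b_mem_S b (by simp)))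

theorem not_isP_S0 : ¬ IsP (S b {0}) := by
  rintro ⟨e⟩
  have key : ∀ x : S b {0}, ∃ α : R, (x : V3 R) = α • b 0 := by
    intro x
    have hx : (x : V3 R) ∈ span R {b 0} := (S_singleton b 0) ▸ x.2
    obtain ⟨α, hα⟩ := Submodule.mem_span_singleton.1 hx
    exact ⟨α, hα.symm⟩
  obtain ⟨α, hα⟩ := key (e.symm ![1, 0])
  obtain ⟨γ, hγ⟩ := key (e.symm ![0, 1])
  have h1 : γ • e.symm ![1, 0] = α • e.symm ![0, 1] := by
    apply Subtype.ext
    simp only [Submodule.coe_smul, hα, hγ, smul_smul, mul_comm]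
  have h2 : γ • (![1, 0] : Fin 2 → R) = α • (![0, 1] : Fin 2 → R) := by
    have := congrArg e h1
    simpa only [map_smul, LinearEquiv.apply_symm_apply] using this
  have h3 : γ = 0 := by simpa using congrFun h2 0
  have h4 : e.symm ![0, 1] = 0 := by
    apply Subtype.ext
    rw [hγ, h3, zero_smul]
    rfl
  have h5 : (![0, 1] : Fin 2 → R) = 0 := (LinearEquiv.map_eq_zero_iff e.symm).1 h4
  have h6 := congrFun h5 1
  simp at h6

theorem compl_zero : ({0}ᶜ : Set (Fin 3)) = {1, 2} := by
  ext i; fin_cases i <;> simp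

theorem isCompl_S0 : IsCompl (S b {0}) (S b {1, 2}) := by
  have := isCompl_S b {0}
  rwa [compl_zero] at this

theorem TT_not_isCompl {W : Submodule R (V3 R)} (hW : W = S b {0} ∨ W = S b {1, 2})
    {j : Fin 3} (hj : j = 1 ∨ j = 2) {U : Submodule R (V3 R)} (h : TT b j U) :
    ¬ IsCompl W U := by
  rcases hW with rfl | rfl
  · rcases h with rfl | rfl
    · -- the other index is missing
      rcases hj with rfl | rfl
      · exact not_isCompl_of_notMem b (i := 2) (by simp) (by simp)
      · exact not_isCompl_of_notMem b (i := 1) (by simp) (by simp)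
    · exact not_isCompl_of_mem b (i := 0) (by simp) (by simp)
  · rcases h with rfl | rfl
    · rcases hj with rfl | rfl
      · exact not_isCompl_of_mem b (i := 1) (by simp) (by simp)
      · exact not_isCompl_of_mem b (i := 2) (by simp) (by simp)
    · rcases hj with rfl | rfl
      · exact not_isCompl_of_mem b (i := 1) (by simp) (by simp)
      · exact not_isCompl_of_mem b (i := 2) (by simp) (by simp)

/-- The map to rank two for a vertex of rank one. -/
noncomputable def nuL : V3 R →ₗ[R] (Fin 2 → R) :=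
  ((isL_S0 b).some : (V3 R ⧸ S b {0}) →ₗ[R] (Fin 2 → R)) ∘ₗ (S b {0}).mkQ

/-- The map to rank two for a vertex of rank two. -/
noncomputable def nuP : V3 R →ₗ[R] (Fin 2 → R) :=
  ((isP_S12 b).some : (S b {1, 2}) →ₗ[R] (Fin 2 → R)) ∘ₗ
    (S b {1, 2}).projectionOnto (S b {0}) (isCompl_S0 b).symm

theorem nuL_surj : Function.Surjective (nuL b) := by
  intro y
  obtain ⟨x, hx⟩ := Submodule.mkQ_surjective (S b {0}) ((isL_S0 b).some.symm y)
  refine ⟨x, ?_⟩
  unfold nuL
  rw [LinearMap.comp_apply, hx]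
  exact LinearEquiv.apply_symm_apply _ _

theorem nuL_eq_zero (x : V3 R) : nuL b x = 0 ↔ x ∈ S b {0} := by
  unfold nuL
  rw [LinearMap.comp_apply, LinearEquiv.coe_coe, LinearEquiv.map_eq_zero_iff,
    Submodule.mkQ_apply, Submodule.Quotient.mk_eq_zero]

theorem nuP_surj : Function.Surjective (nuP b) := by
  intro y
  obtain ⟨x, hx⟩ := Submodule.projectionOnto_surjective (isCompl_S0 b).symm
    ((isP_S12 b).some.symm y)
  refine ⟨x, ?_⟩
  unfold nuP
  rw [LinearMap.comp_apply, hx]
  exact LinearEquiv.apply_symm_apply _ _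

theorem nuP_eq_zero (x : V3 R) : nuP b x = 0 ↔ x ∈ S b {0} := by
  unfold nuP
  rw [LinearMap.comp_apply, LinearEquiv.coe_coe, LinearEquiv.map_eq_zero_iff,
    Submodule.projectionOnto_apply_eq_zero_iff]

theorem b0_mem : b 0 ∈ S b {0} := b_mem_S b (by simp)

theorem ell_S0 (U : Submodule R (V3 R)) : ell (S b {0}) U = U.map (nuL b) := by
  unfold ell
  rw [dif_neg (not_isP_S0 b), dif_pos (isL_S0 b)]
  rfl

theorem ell_S12 {j : Fin 3} (hj : j = 1 ∨ j = 2) {U : Submodule R (V3 R)} (h : TT b j U) :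
    ell (S b {1, 2}) U = U.map (nuP b) := by
  unfold ell
  rw [dif_pos (isP_S12 b)]
  have hjm : b j ∈ S b {1, 2} := b_mem_S b (by rcases hj with rfl | rfl <;> simp)
  have h1 : U.comap (S b {1, 2}).subtype = span R {(⟨b j, hjm⟩ : S b {1, 2})} := by
    apply le_antisymm
    · rintro ⟨x, hx⟩ hxU
      rw [Submodule.mem_comap] at hxU
      have hx' : x ∈ S b {j} := by
        rw [mem_S]
        intro i hi
        have hxU' : x ∈ U := hxU
        rcases h with rfl | rfl
        · exact (mem_S b).1 hxU' i hi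
        · by_cases h0 : i = 0
          · subst h0
            exact (mem_S b).1 hx 0 (by simp)
          · exact (mem_S b).1 hxU' i (by
              simp only [Set.mem_insert_iff, Set.mem_singleton_iff, not_or]
              exact ⟨h0, by simpa using hi⟩)
      rw [S_singleton] at hx'
      obtain ⟨α, hα⟩ := Submodule.mem_span_singleton.1 hx'
      rw [Submodule.mem_span_singleton]
      exact ⟨α, Subtype.ext hα⟩
    · rw [span_singleton_le_iff_mem, Submodule.mem_comap]
      change b j ∈ U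
      rcases h with rfl | rfl
      · exact b_mem_S b (by simp)
      · exact b_mem_S b (by simp)
  rw [h1, map_TT b (nuP b) ((nuP_eq_zero b _).2 (b0_mem b)) h, Submodule.map_span,
    Set.image_singleton]
  congr 2
  unfold nuP
  rw [LinearMap.comp_apply, Submodule.projectionOnto_apply_of_mem_left _ hjm]

theorem frameAt_S0 :
    FrameAt b (S b {0}) (span R {nuL b (b 1)}) (span R {nuL b (b 2)}) := by
  obtain ⟨h1, h2, h3⟩ := lines_of_surj b (nuL b) (nuL_surj b)
    (fun x hx => (nuL_eq_zero b x).1 hx) ((nuL_eq_zero b _).2 (b0_mem b))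
  refine ⟨h1, h2, h3, fun U hU => ⟨?_, TT_not_isCompl b (Or.inl rfl) (Or.inl rfl) hU⟩,
    fun U hU => ⟨?_, TT_not_isCompl b (Or.inl rfl) (Or.inr rfl) hU⟩⟩
  · rw [ell_S0, map_TT b _ ((nuL_eq_zero b _).2 (b0_mem b)) hU]
  · rw [ell_S0, map_TT b _ ((nuL_eq_zero b _).2 (b0_mem b)) hU]

theorem frameAt_S12 :
    FrameAt b (S b {1, 2}) (span R {nuP b (b 1)}) (span R {nuP b (b 2)}) := by
  obtain ⟨h1, h2, h3⟩ := lines_of_surj b (nuP b) (nuP_surj b)
    (fun x hx => (nuP_eq_zero b x).1 hx) ((nuP_eq_zero b _).2 (b0_mem b))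
  refine ⟨h1, h2, h3, fun U hU => ⟨?_, TT_not_isCompl b (Or.inr rfl) (Or.inl rfl) hU⟩,
    fun U hU => ⟨?_, TT_not_isCompl b (Or.inr rfl) (Or.inr rfl) hU⟩⟩
  · rw [ell_S12 b (Or.inl rfl) hU, map_TT b _ ((nuP_eq_zero b _).2 (b0_mem b)) hU]
  · rw [ell_S12 b (Or.inr rfl) hU, map_TT b _ ((nuP_eq_zero b _).2 (b0_mem b)) hU]

/-- The comparison of the two rank two modules of a complementary pair. -/
noncomputable def cmp (P L : Submodule R (V3 R)) (hP : IsP P) (hL : IsL L)
    (h : IsCompl L P) : (Fin 2 → R) ≃ₗ[R] (Fin 2 → R) :=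
  hP.some.symm ≪≫ₗ (Submodule.quotientEquivOfIsCompl L P h).symm ≪≫ₗ hL.some

theorem cmp_apply {j : Fin 3} (hj : j = 1 ∨ j = 2) :
    cmp (S b {1, 2}) (S b {0}) (isP_S12 b) (isL_S0 b) (isCompl_S0 b) (nuP b (b j)) =
      nuL b (b j) := by
  have hjm : b j ∈ S b {1, 2} := b_mem_S b (by rcases hj with rfl | rfl <;> simp)
  unfold cmp nuP nuL
  rw [LinearMap.comp_apply, Submodule.projectionOnto_apply_of_mem_left _ hjm]
  simp only [LinearEquiv.trans_apply, LinearEquiv.coe_coe, LinearEquiv.symm_apply_apply,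
    LinearMap.comp_apply]
  congr 1

/-- The property of the potential of a complementary pair `P`, `L` with `P` of rank two. -/
def PotProp (P L : Submodule R (V3 R)) (h : Submodule R (Fin 2 → R) → ℤ) : Prop :=
  ∀ b : Module.Basis (Fin 3) R (V3 R), P = S b {1, 2} → L = S b {0} → ∀ X Y,
    (TT b 1 X ∨ TT b 2 X) → (TT b 1 Y ∨ TT b 2 Y) →
    ff (ell L X) (ell L Y) - ff (ell P X) (ell P Y) = h (ell P Y) - h (ell P X)

theorem exists_pot (H : IsZ11 R) (P L : Submodule R (V3 R)) : ∃ h, PotProp P L h := by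
  by_cases hex : ∃ b : Module.Basis (Fin 3) R (V3 R), P = S b {1, 2} ∧ L = S b {0}
  · obtain ⟨b0, hb1, hb2⟩ := hex
    have hP : IsP P := hb1 ▸ isP_S12 b0
    have hL : IsL L := hb2 ▸ isL_S0 b0
    have hC : IsCompl L P := by rw [hb1, hb2]; exact isCompl_S0 b0
    obtain ⟨h, hh⟩ := ff_quasi H (cmp P L hP hL hC)
    refine ⟨h, ?_⟩
    intro b hPb hLb X Y hX hY
    subst hPb
    subst hLb
    have hself : ∀ A : Submodule R (Fin 2 → R), ff A A = 0 := by
      intro A; have := ff_antisymm A A; omega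
    have h1 : (span R {nuP b (b 1)}).map (cmp _ _ hP hL hC : (Fin 2 → R) →ₗ[R] (Fin 2 → R)) =
        span R {nuL b (b 1)} := by
      rw [Submodule.map_span, Set.image_singleton]
      congr 2
      exact cmp_apply b (Or.inl rfl)
    have h2 : (span R {nuP b (b 2)}).map (cmp _ _ hP hL hC : (Fin 2 → R) →ₗ[R] (Fin 2 → R)) =
        span R {nuL b (b 2)} := by
      rw [Submodule.map_span, Set.image_singleton]
      congr 2
      exact cmp_apply b (Or.inr rfl)
    have F0 := frameAt_S0 b
    have FP := frameAt_S12 b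
    have q1 := hh _ _ FP.lineA FP.lineB FP.compl
    have q2 := hh _ _ FP.lineB FP.lineA FP.compl.symm
    rw [h1, h2] at q1 q2
    rcases hX with hX | hX <;> rcases hY with hY | hY
    · rw [(F0.t1 X hX).1, (F0.t1 Y hY).1, (FP.t1 X hX).1, (FP.t1 Y hY).1, hself, hself]
      ring
    · rw [(F0.t1 X hX).1, (F0.t2 Y hY).1, (FP.t1 X hX).1, (FP.t2 Y hY).1]
      exact q1
    · rw [(F0.t2 X hX).1, (F0.t1 Y hY).1, (FP.t2 X hX).1, (FP.t1 Y hY).1]
      exact q2
    · rw [(F0.t2 X hX).1, (F0.t2 Y hY).1, (FP.t2 X hX).1, (FP.t2 Y hY).1, hself, hself]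
      ring
  · refine ⟨0, ?_⟩
    intro b h1 h2
    exact absurd ⟨b, h1, h2⟩ hex

end Pool.Agent.W584
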