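import Pool.Agent.W584.CB

/-!
# The two-cocycle
-/

set_option linter.unusedSectionVars false

namespace Pool.Agent.W584

open Submodule

variable {R : Type*} [CommRing R] [IsDomain R]

open Classical in
/-- The chosen potential of a pair of vertices. -/
noncomputable def pot (W U : Submodule R (V3 R)) : Submodule R (Fin 2 → R) → ℤ :=
  if h : ∃ h, PotProp W U h then h.choose else 0

theorem pot_spec (H : IsZ11 R) (P L : Submodule R (V3 R)) : PotProp P L (pot P L) := by
  unfold pot
  rw [dif_pos (exists_pot H P L)]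
  exact (exists_pot H P L).choose_spec

open Classical in
/-- The potential term at the vertex `W`, for `U` complementary to `W`. -/
noncomputable def gg (W U X : Submodule R (V3 R)) : ℤ :=
  if IsP W then pot W U (ell W X) else 0

open Classical in
/-- The corner term at the vertex `W`. -/
noncomputable def cc (W U U' : Submodule R (V3 R)) : ℤ :=
  if IsCompl W U then (if IsCompl W U' then 0 else - gg W U U')
  else if IsCompl W U' then gg W U' U else ff (ell W U) (ell W U')

theorem cc_antisymm (W U U' : Submodule R (V3 R)) : cc W U' U = - cc W U U' := by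
  unfold cc
  have := ff_antisymm (ell W U') (ell W U)
  by_cases h1 : IsCompl W U <;> by_cases h2 : IsCompl W U' <;> simp [h1, h2, this]

/-- The cocycle. -/
noncomputable def AA (x y z : Submodule R (V3 R)) : ℤ := cc x y z + cc y z x + cc z x y

theorem AA_swap1 (x y z : Submodule R (V3 R)) : AA y x z = - AA x y z := by
  unfold AA
  have h1 := cc_antisymm y z x
  have h2 := cc_antisymm x y z
  have h3 := cc_antisymm z x y
  linarith

theorem AA_swap2 (x y z : Submodule R (V3 R)) : AA x z y = - AA x y z := by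
  unfold AA
  have h1 := cc_antisymm y z x
  have h2 := cc_antisymm x y z
  have h3 := cc_antisymm z x y
  linarith

/-- The cyclic sum of corner terms at `W`. -/
noncomputable def cyc (W X Y Z : Submodule R (V3 R)) : ℤ := cc W X Y + cc W Y Z + cc W Z X

theorem self_ff (A : Submodule R (Fin 2 → R)) : ff A A = 0 := by
  have := ff_antisymm A A; omega

theorem cyc_eq_zero (b : Module.Basis (Fin 3) R (V3 R)) {W X Y Z : Submodule R (V3 R)}
    {A B : Submodule R (Fin 2 → R)} (hF : FrameAt b W A B)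
    (hX : TT b 1 X ∨ TT b 2 X) (hY : TT b 1 Y ∨ TT b 2 Y) (hZ : TT b 1 Z ∨ TT b 2 Z) :
    cyc W X Y Z = 0 := by
  have key : ∀ U, (TT b 1 U ∨ TT b 2 U) → ¬ IsCompl W U ∧ (ell W U = A ∨ ell W U = B) := by
    intro U hU
    rcases hU with hU | hU
    · exact ⟨(hF.t1 U hU).2, Or.inl (hF.t1 U hU).1⟩
    · exact ⟨(hF.t2 U hU).2, Or.inr (hF.t2 U hU).1⟩
  obtain ⟨nX, eX⟩ := key X hX
  obtain ⟨nY, eY⟩ := key Y hY
  obtain ⟨nZ, eZ⟩ := key Z hZ
  have hab := ff_antisymm A B
  have haa := self_ff A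
  have hbb := self_ff B
  unfold cyc cc
  simp only [nX, nY, nZ, if_false]
  rcases eX with eX | eX <;> rcases eY with eY | eY <;> rcases eZ with eZ | eZ <;>
    rw [eX, eY, eZ] <;> linarith

theorem cyc_compl (H : IsZ11 R) (b : Module.Basis (Fin 3) R (V3 R)) {Y Z : Submodule R (V3 R)}
    (hY : TT b 1 Y ∨ TT b 2 Y) (hZ : TT b 1 Z ∨ TT b 2 Z) :
    cyc (S b {1, 2}) (S b {0}) Y Z = cyc (S b {0}) (S b {1, 2}) Y Z := by
  have F0 := frameAt_S0 b
  have FP := frameAt_S12 b
  have n0 : ∀ U, (TT b 1 U ∨ TT b 2 U) → ¬ IsCompl (S b {0}) U := by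
    intro U hU
    rcases hU with hU | hU
    · exact (F0.t1 U hU).2
    · exact (F0.t2 U hU).2
  have nP : ∀ U, (TT b 1 U ∨ TT b 2 U) → ¬ IsCompl (S b {1, 2}) U := by
    intro U hU
    rcases hU with hU | hU
    · exact (FP.t1 U hU).2
    · exact (FP.t2 U hU).2
  have hc := isCompl_S0 b
  have hpot := pot_spec H (S b {1, 2}) (S b {0}) b rfl rfl Y Z hY hZ
  unfold cyc cc gg
  simp only [n0 Y hY, n0 Z hZ, nP Y hY, nP Z hZ, hc, hc.symm, if_false, if_true,
    isP_S12 b, not_isP_S0 b]
  linarith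

/-- The six proper parts of a frame. -/
theorem six (b : Module.Basis (Fin 3) R (V3 R)) {U : Submodule R (V3 R)} (hbot : U ≠ ⊥)
    (htop : U ≠ ⊤) (h : ∃ I : Set (Fin 3), U = span R (b '' I)) :
    U = S b {0} ∨ U = S b {1, 2} ∨ TT b 1 U ∨ TT b 2 U := by
  obtain ⟨I, rfl⟩ := h
  have hI : ∀ J : Set (Fin 3), I = J → span R (b '' I) = S b J := by rintro J rfl; rfl
  by_cases h0 : (0 : Fin 3) ∈ I <;> by_cases h1 : (1 : Fin 3) ∈ I <;>
    by_cases h2 : (2 : Fin 3) ∈ I
  · exfalso; apply htop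
    have : I = Set.univ := by
      ext i; fin_cases i <;> simp [h0, h1, h2]
    rw [this, Set.image_univ, b.span_eq]
  · right; right; left; right
    apply hI; ext i; fin_cases i <;> simp [h0, h1, h2]
  · right; right; right; right
    apply hI; ext i; fin_cases i <;> simp [h0, h1, h2]
  · left
    apply hI; ext i; fin_cases i <;> simp [h0, h1, h2]
  · right; left
    apply hI; ext i; fin_cases i <;> simp [h0, h1, h2]
  · right; right; left; left
    apply hI; ext i; fin_cases i <;> simp [h0, h1, h2]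
  · right; right; right; left
    apply hI; ext i; fin_cases i <;> simp [h0, h1, h2]
  · exfalso; apply hbot
    have : I = ∅ := by
      ext i; fin_cases i <;> simp [h0, h1, h2]
    rw [this, Set.image_empty, span_empty]

/-- A frame adapted to one of its members. -/
theorem exists_frame {s : Set (Submodule R (V3 R))} (b : Module.Basis (Fin 3) R (V3 R))
    (hs : ∀ U ∈ s, ∃ I : Set (Fin 3), U = span R (b '' I)) {W : Submodule R (V3 R)}
    (hW : W ∈ s) (hbot : W ≠ ⊥) (htop : W ≠ ⊤) :
    ∃ b' : Module.Basis (Fin 3) R (V3 R), (W = S b' {0} ∨ W = S b' {1, 2}) ∧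
      ∀ U ∈ s, ∃ I : Set (Fin 3), U = span R (b' '' I) := by
  have hre : ∀ σ : Fin 3 ≃ Fin 3, ∀ U ∈ s, ∃ I : Set (Fin 3),
      U = span R ((b.reindex σ) '' I) := by
    intro σ U hU
    obtain ⟨I, hI⟩ := hs U hU
    refine ⟨σ '' I, ?_⟩
    rw [hI, ← Set.image_comp]
    congr 2
    funext i
    simp
  have himg : ∀ (σ : Fin 3 ≃ Fin 3) (I J : Set (Fin 3)), I = σ '' J →
      span R ((b.reindex σ) '' I) = S b J := by
    rintro σ I J rfl
    unfold S
    rw [← Set.image_comp]
    congr 2
    funext i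
    simp
  rcases six b hbot htop (hs W hW) with h | h | h | h
  · exact ⟨b, Or.inl h, hs⟩
  · exact ⟨b, Or.inr h, hs⟩
  · rcases h with h | h
    · refine ⟨b.reindex (Equiv.swap 0 1), Or.inl ?_, hre _⟩
      rw [h]; symm
      apply himg
      rw [Set.image_singleton]; rfl
    · -- {0, 1} : complement {2}
      refine ⟨b.reindex (Equiv.swap 0 2), Or.inr ?_, hre _⟩
      rw [h]; symm
      apply himg
      rw [Set.image_pair, Set.pair_comm]; rfl
  · rcases h with h | h
    · refine ⟨b.reindex (Equiv.swap 0 2), Or.inl ?_, hre _⟩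
      rw [h]; symm
      apply himg
      rw [Set.image_singleton]; rfl
    · refine ⟨b.reindex (Equiv.swap 0 1), Or.inr ?_, hre _⟩
      rw [h]; symm
      apply himg
      rw [Set.image_pair]; rfl

/-- The set of simplices of the common basis complex of `R³` (as sets). -/
def Com (s : Set (Submodule R (V3 R))) : Prop :=
  (∀ W ∈ s, W ≠ ⊥ ∧ W ≠ ⊤) ∧
    ∃ b : Module.Basis (Fin 3) R (V3 R), ∀ W ∈ s, ∃ I : Set (Fin 3), W = span R (b '' I)

theorem cases_at (H : IsZ11 R) {s : Set (Submodule R (V3 R))} (hs : Com s)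
    {W X Y Z : Submodule R (V3 R)} (hW : W ∈ s) (hX : X ∈ s) (hY : Y ∈ s) (hZ : Z ∈ s)
    (hWX : W ≠ X) (hWY : W ≠ Y) (hWZ : W ≠ Z) (hXY : X ≠ Y) (hXZ : X ≠ Z) :
    (¬ IsCompl W X → ¬ IsCompl W Y → ¬ IsCompl W Z → cyc W X Y Z = 0) ∧
    (IsCompl W X → cyc W X Y Z = cyc X W Y Z ∧ ¬ IsCompl W Y ∧ ¬ IsCompl W Z ∧
      ¬ IsCompl X Y ∧ ¬ IsCompl X Z) := by
  obtain ⟨hproper, b0, hb0⟩ := hs
  obtain ⟨b, hWb, hb⟩ := exists_frame b0 hb0 hW (hproper W hW).1 (hproper W hW).2
  have h6 : ∀ U ∈ s, U = S b {0} ∨ U = S b {1, 2} ∨ TT b 1 U ∨ TT b 2 U :=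
    fun U hU => six b (hproper U hU).1 (hproper U hU).2 (hb U hU)
  have hnc : ∀ U, (TT b 1 U ∨ TT b 2 U) → ∀ W', (W' = S b {0} ∨ W' = S b {1, 2}) →
      ¬ IsCompl W' U := by
    intro U hU W' hW'
    rcases hU with hU | hU
    · exact TT_not_isCompl b hW' (Or.inl rfl) hU
    · exact TT_not_isCompl b hW' (Or.inr rfl) hU
  rcases hWb with hWb | hWb
  · -- W = S b {0}
    have hcl : ∀ U ∈ s, W ≠ U → U = S b {1, 2} ∨ (TT b 1 U ∨ TT b 2 U) := by
      intro U hU hne
      rcases h6 U hU with h | h | h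
      · exact absurd (hWb.trans h.symm) hne
      · exact Or.inl h
      · exact Or.inr h
    constructor
    · intro nX nY nZ
      have hT : ∀ U ∈ s, W ≠ U → ¬ IsCompl W U → (TT b 1 U ∨ TT b 2 U) := by
        intro U hU hne hn
        rcases hcl U hU hne with h | h
        · exact absurd (by rw [hWb, h]; exact isCompl_S0 b) hn
        · exact h
      have hF := frameAt_S0 b
      rw [← hWb] at hF
      exact cyc_eq_zero b hF (hT X hX hWX nX) (hT Y hY hWY nY) (hT Z hZ hWZ nZ)
    · intro hc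
      have hXe : X = S b {1, 2} := by
        rcases hcl X hX hWX with h | h
        · exact h
        · exact absurd hc (hnc X h W (Or.inl hWb))
      have hTY : TT b 1 Y ∨ TT b 2 Y := by
        rcases hcl Y hY hWY with h | h
        · exact absurd (hXe.trans h.symm) hXY
        · exact h
      have hTZ : TT b 1 Z ∨ TT b 2 Z := by
        rcases hcl Z hZ hWZ with h | h
        · exact absurd (hXe.trans h.symm) hXZ
        · exact h
      refine ⟨?_, hnc Y hTY W (Or.inl hWb), hnc Z hTZ W (Or.inl hWb),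
        hnc Y hTY X (Or.inr hXe), hnc Z hTZ X (Or.inr hXe)⟩
      rw [hWb, hXe]
      exact (cyc_compl H b hTY hTZ).symm
  · -- W = S b {1, 2}
    have hcl : ∀ U ∈ s, W ≠ U → U = S b {0} ∨ (TT b 1 U ∨ TT b 2 U) := by
      intro U hU hne
      rcases h6 U hU with h | h | h
      · exact Or.inl h
      · exact absurd (hWb.trans h.symm) hne
      · exact Or.inr h
    constructor
    · intro nX nY nZ
      have hT : ∀ U ∈ s, W ≠ U → ¬ IsCompl W U → (TT b 1 U ∨ TT b 2 U) := by
        intro U hU hne hn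
        rcases hcl U hU hne with h | h
        · exact absurd (by rw [hWb, h]; exact (isCompl_S0 b).symm) hn
        · exact h
      have hF := frameAt_S12 b
      rw [← hWb] at hF
      exact cyc_eq_zero b hF (hT X hX hWX nX) (hT Y hY hWY nY) (hT Z hZ hWZ nZ)
    · intro hc
      have hXe : X = S b {0} := by
        rcases hcl X hX hWX with h | h
        · exact h
        · exact absurd hc (hnc X h W (Or.inr hWb))
      have hTY : TT b 1 Y ∨ TT b 2 Y := by
        rcases hcl Y hY hWY with h | h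
        · exact absurd (hXe.trans h.symm) hXY
        · exact h
      have hTZ : TT b 1 Z ∨ TT b 2 Z := by
        rcases hcl Z hZ hWZ with h | h
        · exact absurd (hXe.trans h.symm) hXZ
        · exact h
      refine ⟨?_, hnc Y hTY W (Or.inr hWb), hnc Z hTZ W (Or.inr hWb),
        hnc Y hTY X (Or.inl hXe), hnc Z hTZ X (Or.inl hXe)⟩
      rw [hWb, hXe]
      exact cyc_compl H b hTY hTZ

/-- `AA` is a cocycle. -/
theorem AA_cocycle (H : IsZ11 R) {s : Set (Submodule R (V3 R))} (hs : Com s)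
    {a b c d : Submodule R (V3 R)} (ha : a ∈ s) (hb : b ∈ s) (hc : c ∈ s) (hd : d ∈ s)
    (hab : a ≠ b) (hac : a ≠ c) (had : a ≠ d) (hbc : b ≠ c) (hbd : b ≠ d) (hcd : c ≠ d) :
    AA b c d - AA a c d + AA a b d - AA a b c = 0 := by
  -- the alternating properties of the cyclic sums
  have hexp : AA b c d - AA a c d + AA a b d - AA a b c =
      - cyc a b c d + cyc b a c d - cyc c a b d + cyc d a b c := by
    unfold AA cyc
    have e := fun W U U' => cc_antisymm (R := R) W U U'
    linarith [e a b c, e a b d, e a c d, e b a c, e b a d, e b c d, e c a b, e c a d, e c b d,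
      e d a b, e d a c, e d b c]
  rw [hexp]
  have r1 : ∀ W X Y Z : Submodule R (V3 R), cyc W X Y Z = cyc W Y Z X := by
    intro W X Y Z; unfold cyc; ring
  have r2 : ∀ W X Y Z : Submodule R (V3 R), cyc W X Y Z = - cyc W Y X Z := by
    intro W X Y Z
    unfold cyc
    have e := fun W U U' => cc_antisymm (R := R) W U U'
    linarith [e W X Y, e W Y Z, e W Z X]
  have sy : ∀ {U U' : Submodule R (V3 R)}, IsCompl U U' ↔ IsCompl U' U :=
    fun {U U'} => isCompl_comm
  -- the six possible complementary pairs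
  obtain ⟨z_a, p_ab⟩ := cases_at H hs ha hb hc hd hab hac had hbc hbd
  obtain ⟨z_b, p_ba⟩ := cases_at H hs hb ha hc hd hab.symm hbc hbd hac had
  obtain ⟨z_c, p_ca⟩ := cases_at H hs hc ha hb hd hac.symm hbc.symm hcd hab had
  obtain ⟨z_d, p_da⟩ := cases_at H hs hd ha hb hc had.symm hbd.symm hcd.symm hab hac
  obtain ⟨-, p_ac⟩ := cases_at H hs ha hc hb hd hac hab had hbc.symm hcd
  obtain ⟨-, p_ad⟩ := cases_at H hs ha hd hb hc had hab hac hbd.symm hcd.symm
  obtain ⟨-, p_bc⟩ := cases_at H hs hb hc ha hd hbc hab.symm hbd hac.symm hcd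
  obtain ⟨-, p_bd⟩ := cases_at H hs hb hd ha hc hbd hab.symm hbc had.symm hcd.symm
  obtain ⟨-, p_cd⟩ := cases_at H hs hc hd ha hb hcd hac.symm hbc.symm had.symm hbd.symm
  rw [sy (U := b) (U' := a)] at z_b p_ba
  rw [sy (U := c) (U' := a)] at z_c p_ca
  rw [sy (U := c) (U' := b)] at z_c
  rw [sy (U := d) (U' := a), sy (U := d) (U' := b), sy (U := d) (U' := c)] at z_d
  by_cases h1 : IsCompl a b
  · obtain ⟨e1, n1, n2, n3, n4⟩ := p_ab h1
    by_cases h2 : IsCompl c d
    · obtain ⟨e2, -, -, -, -⟩ := p_cd h2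
      have t1 := r1 d c a b
      have t2 := r1 c d a b
      linarith
    · have t1 := z_c n1 n3 h2
      have t2 := z_d n2 n4 h2
      linarith
  by_cases h2 : IsCompl a c
  · obtain ⟨e1, n1, n2, n3, n4⟩ := p_ac h2
    have t1 := r2 a c b d
    by_cases h3 : IsCompl b d
    · obtain ⟨e2, -, -, -, -⟩ := p_bd h3
      have t2 := r1 b d a c
      have t3 := r1 d b a c
      have t4 := r1 d a c b
      have t5 := r2 d b a c
      linarith
    · have t2 := z_b h1 (by rwa [sy] at n3) h3
      have t3 := z_d n2 h3 n4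
      linarith
  by_cases h3 : IsCompl a d
  · obtain ⟨e1, n1, n2, n3, n4⟩ := p_ad h3
    have t1 := r1 a d b c
    have n3' : ¬ IsCompl b d := by rwa [sy] at n3
    have n4' : ¬ IsCompl c d := by rwa [sy] at n4
    by_cases h4 : IsCompl b c
    · obtain ⟨e2, -, -, -, -⟩ := p_bc h4
      have t2 := r2 b c a d
      have t3 := r2 c b a d
      linarith
    · have t2 := z_b h1 h4 n3'
      have t3 := z_c h2 h4 n4'
      linarith
  have ea := z_a h1 h2 h3
  by_cases h4 : IsCompl b c
  · obtain ⟨e1, n1, n2, n3, n4⟩ := p_bc h4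
    have t1 := r2 b c a d
    have t2 := r2 c b a d
    have t3 := z_d h3 n2 n4
    linarith
  by_cases h5 : IsCompl b d
  · obtain ⟨e1, n1, n2, n3, n4⟩ := p_bd h5
    have t1 := r1 b d a c
    have t2 := r2 d b a c
    have t3 := z_c h2 h4 (by rwa [sy] at n4)
    linarith
  have eb := z_b h1 h4 h5
  by_cases h6 : IsCompl c d
  · obtain ⟨e1, n1, n2, n3, n4⟩ := p_cd h6
    have t1 := r1 c d a b
    have t2 := r1 d c a b
    linarith
  have ec := z_c h2 h4 h6
  have ed := z_d h3 h5 h6
  linarith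

end Pool.Agent.W584
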