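import Mathlib

/-!
# A modular symbol of level 11

`X c d` is an even, antisymmetric function of `c / d` in `ZMod 11` satisfying the three term
relation, and `Fp` is the function on primitive integer vectors with
`Fp (b, d) - Fp (a, c) = X c d` whenever `a * d - b * c = 1` or `-1`.
-/

namespace Pool.Agent.W584

/-- The table of the level 11 symbol. -/
def xiT : ZMod 11 → ℤ := ![0, 0, 2, 1, -1, -2, -2, -1, 1, 2, 0]

/-- The level 11 symbol as a function of two residues. -/
def X (c d : ZMod 11) : ℤ := if c = 0 ∨ d = 0 then 0 else xiT (c * d ^ 9)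

theorem X_swap : ∀ c d : ZMod 11, X d c = - X c d := by decide

theorem X_neg_left : ∀ c d : ZMod 11, X (-c) d = X c d := by decide

theorem X_neg_right : ∀ c d : ZMod 11, X c (-d) = X c d := by decide

theorem X_three : ∀ c d : ZMod 11, X c d + X d (c + d) + X (c + d) c = 0 := by decide

theorem X_zero_left : ∀ d : ZMod 11, X 0 d = 0 := by decide

theorem X_zero_right : ∀ d : ZMod 11, X d 0 = 0 := by decide

theorem X_one_one : X 1 1 = 0 := by decide

set_option maxRecDepth 100000 in
theorem X_mul : ∀ l c d : ZMod 11, l ≠ 0 → X (l * c) (l * d) = X c d := by decide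

/-- The Euclidean recursion for the potential of `X`. -/
def K : ℕ → ℕ → ℤ
  | 0, _ => 0
  | (c + 1), d =>
    if d % (c + 1) = 0 then 0
    else K (d % (c + 1)) (c + 1) - X ((c + 1 : ℕ) : ZMod 11) ((d % (c + 1) : ℕ) : ZMod 11)
termination_by c _ => c
decreasing_by exact Nat.mod_lt _ (Nat.succ_pos c)

theorem K_zero (d : ℕ) : K 0 d = 0 := by rw [K]

theorem K_pos {c : ℕ} (hc : 0 < c) (d : ℕ) :
    K c d = if d % c = 0 then 0
      else K (d % c) c - X ((c : ℕ) : ZMod 11) ((d % c : ℕ) : ZMod 11) := by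
  obtain ⟨c, rfl⟩ : ∃ c', c = c' + 1 := ⟨c - 1, by omega⟩
  rw [K]

theorem K_congr {c d d' : ℕ} (h : d % c = d' % c) : K c d = K c d' := by
  rcases Nat.eq_zero_or_pos c with rfl | hc
  · rw [K_zero, K_zero]
  · rw [K_pos hc, K_pos hc, h]

theorem K_of_lt {c d : ℕ} (hd : 0 < d) (h : d < c) :
    K c d = K d c - X (c : ZMod 11) (d : ZMod 11) := by
  rw [K_pos (by omega) d, Nat.mod_eq_of_lt h, if_neg (by omega)]

theorem K_one (d : ℕ) : K 1 d = 0 := by
  rw [K_pos one_pos, if_pos (Nat.mod_one d)]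

/-- `K` changes by `X` under the swap. -/
theorem K_swap {c d : ℕ} (h : Nat.Coprime c d) :
    K d c = K c d + X (c : ZMod 11) (d : ZMod 11) := by
  rcases Nat.eq_zero_or_pos c with rfl | hc
  · have : d = 1 := by simpa using h
    subst this
    simp [K_zero, K_one, X_zero_left]
  rcases Nat.eq_zero_or_pos d with rfl | hd
  · have : c = 1 := by simpa using h
    subst this
    simp [K_zero, K_one, X_zero_right]
  rcases lt_trichotomy d c with h1 | h1 | h1
  · rw [K_of_lt hd h1]; ring
  · subst h1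
    have : d = 1 := by simpa using h
    subst this
    simp [X_one_one]
  · rw [K_of_lt hc h1, X_swap]; ring

/-- `K` is even in the second argument. -/
theorem K_sub {c d : ℕ} (h : Nat.Coprime c d) (hd : 0 < d) (hdc : d < c) :
    K c (c - d) = K c d := by
  have h1 : K c (c - d) = K (c - d) c - X (c : ZMod 11) ((c - d : ℕ) : ZMod 11) :=
    K_of_lt (by omega) (by omega)
  have h2 : K c d = K d c - X (c : ZMod 11) (d : ZMod 11) := K_of_lt hd hdc
  have h3 : K (c - d) c = K (c - d) d := by
    apply K_congr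
    have : c = d + (c - d) := by omega
    conv_lhs => rw [this]
    simp
  have h4 : K d c = K d (c - d) := by
    apply K_congr
    have : c = (c - d) + d := by omega
    conv_lhs => rw [this]
    simp
  have hcop : Nat.Coprime (c - d) d := by
    have : c = (c - d) + d := by omega
    rw [this] at h
    simpa using h
  have h5 := K_swap hcop
  have h6 := X_three ((c - d : ℕ) : ZMod 11) (d : ZMod 11)
  have h7 : ((c - d : ℕ) : ZMod 11) + (d : ZMod 11) = (c : ZMod 11) := by
    rw [← Nat.cast_add]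
    congr 1
    omega
  rw [h7] at h6
  have h8 := X_swap (c : ZMod 11) (d : ZMod 11)
  rw [h1, h2, h3, h4, h5]
  rw [h8] at h6
  linarith

/-- `K` on pairs of integers. -/
def KZ (c d : ℤ) : ℤ := K c.natAbs (d % c).toNat

theorem KZ_congr {c d d' : ℤ} (h : d ≡ d' [ZMOD c]) : KZ c d = KZ c d' := by
  unfold KZ
  rw [h.eq]

theorem KZ_neg_left (c d : ℤ) : KZ (-c) d = KZ c d := by
  unfold KZ
  rw [Int.natAbs_neg, Int.emod_neg]

theorem KZ_natCast (c d : ℕ) : KZ c d = K c d := by
  unfold KZ
  rw [Int.natAbs_natCast]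
  apply K_congr
  have : ((d : ℤ) % (c : ℤ)) = ((d % c : ℕ) : ℤ) := by push_cast; rfl
  rw [this, Int.toNat_natCast, Nat.mod_mod]

theorem KZ_neg_right {c d : ℤ} (h : IsCoprime c d) : KZ c (-d) = KZ c d := by
  wlog hc : 0 ≤ c generalizing c with H
  · have := H (c := -c) h.neg_left (by omega)
    rwa [KZ_neg_left, KZ_neg_left] at this
  obtain ⟨c, rfl⟩ := Int.eq_ofNat_of_zero_le hc
  rcases Nat.eq_zero_or_pos c with rfl | hc0
  · simp [KZ, K_zero]
  -- reduce d
  have hd0 : 0 ≤ d % (c : ℤ) := Int.emod_nonneg _ (by omega)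
  have hd1 : d % (c : ℤ) < c := Int.emod_lt_of_pos _ (by omega)
  obtain ⟨e, he⟩ := Int.eq_ofNat_of_zero_le hd0
  have hde : d ≡ (e : ℤ) [ZMOD c] := by
    rw [← he]; exact (Int.mod_modEq d c).symm
  have hcop : Nat.Coprime c e := by
    rw [← Nat.isCoprime_iff_coprime]
    have h1 : IsCoprime (c : ℤ) (d + (c : ℤ) * (-(d / (c : ℤ)))) := by
      rw [IsCoprime.add_mul_left_right_iff]; exact h
    have h2 : d + (c : ℤ) * (-(d / (c : ℤ))) = (e : ℤ) := by
      rw [← he, Int.emod_def]; ring
    rwa [h2] at h1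
  rw [KZ_congr hde, KZ_congr (show -d ≡ -(e : ℤ) [ZMOD c] from hde.neg)]
  rcases Nat.eq_zero_or_pos e with rfl | he0
  · simp
  have hec : e < c := by
    have : (e : ℤ) < c := by rw [← he]; exact hd1
    exact_mod_cast this
  have h3 : -(e : ℤ) ≡ ((c - e : ℕ) : ℤ) [ZMOD c] := by
    rw [Int.modEq_iff_dvd]
    refine ⟨1, ?_⟩
    push_cast [Nat.cast_sub hec.le]
    ring
  rw [KZ_congr h3, KZ_natCast, KZ_natCast]
  exact K_sub hcop he0 hec

theorem KZ_swap {c d : ℤ} (h : IsCoprime c d) :
    KZ d c = KZ c d + X (c : ZMod 11) (d : ZMod 11) := by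
  wlog hc : 0 ≤ c generalizing c with H
  · have := H (c := -c) h.neg_left (by omega)
    rw [KZ_neg_left, KZ_neg_right h.symm] at this
    rw [this]
    push_cast
    rw [X_neg_left]
  wlog hd : 0 ≤ d generalizing d with H
  · have := H (d := -d) h.neg_right (by omega)
    rw [KZ_neg_left, KZ_neg_right h] at this
    rw [this]
    push_cast
    rw [X_neg_right]
  obtain ⟨c, rfl⟩ := Int.eq_ofNat_of_zero_le hc
  obtain ⟨d, rfl⟩ := Int.eq_ofNat_of_zero_le hd
  have hcop : Nat.Coprime c d := by
    rwa [← Nat.isCoprime_iff_coprime]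
  simp only [KZ_natCast, Int.cast_natCast]
  exact K_swap hcop

/-- The potential of the symbol on primitive vectors `(a, c)`. -/
def Fp (w : ℤ × ℤ) : ℤ := KZ w.2 (Int.gcdA w.1 w.2)

theorem Fp_eq {a c d : ℤ} (h : a * d ≡ 1 [ZMOD c]) : Fp (a, c) = KZ c d := by
  unfold Fp
  have hcop : IsCoprime a c := by
    obtain ⟨k, hk⟩ := (Int.modEq_iff_dvd.1 h)
    exact ⟨d, k, by linarith⟩
  apply KZ_congr
  have h1 : a * Int.gcdA a c ≡ 1 [ZMOD c] := by
    have := Int.gcd_eq_gcd_ab a c
    rw [Int.isCoprime_iff_gcd_eq_one.1 hcop] at this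
    rw [Int.modEq_iff_dvd]
    exact ⟨Int.gcdB a c, by push_cast at this; linarith⟩
  -- d ≡ d * (a * gcdA) = gcdA
  have h2 : Int.gcdA a c ≡ (a * d) * Int.gcdA a c [ZMOD c] := by
    have := (h.mul_right (Int.gcdA a c)).symm
    simpa using this
  have h3 : (a * d) * Int.gcdA a c ≡ d [ZMOD c] := by
    have := h1.mul_left d
    have e : d * (a * Int.gcdA a c) = (a * d) * Int.gcdA a c := by ring
    rw [e] at this
    simpa using this
  exact h2.trans h3

theorem Fp_step1 {a b c d : ℤ} (h : a * d - b * c = 1) :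
    Fp (b, d) - Fp (a, c) = X (c : ZMod 11) (d : ZMod 11) := by
  have h1 : Fp (a, c) = KZ c d := Fp_eq (by
    rw [Int.modEq_iff_dvd]; exact ⟨-b, by linarith⟩)
  have h2 : Fp (b, d) = KZ d (-c) := Fp_eq (by
    rw [Int.modEq_iff_dvd]; exact ⟨a, by linarith⟩)
  have hcop : IsCoprime c d := ⟨-b, a, by linarith⟩
  rw [h1, h2, KZ_neg_right hcop.symm, KZ_swap hcop]
  ring

theorem Fp_neg {a c : ℤ} (h : IsCoprime a c) : Fp (-a, -c) = Fp (a, c) := by
  obtain ⟨x, y, hxy⟩ := h
  have h1 : Fp (a, c) = KZ c x := Fp_eq (by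
    rw [Int.modEq_iff_dvd]; exact ⟨y, by linarith⟩)
  have h2 : Fp (-a, -c) = KZ (-c) (-x) := Fp_eq (by
    rw [Int.modEq_iff_dvd]; exact ⟨-y, by linarith⟩)
  have hcop : IsCoprime c x := ⟨y, a, by linarith⟩
  rw [h1, h2, KZ_neg_left, KZ_neg_right hcop]

theorem Fp_neg_fst {a c : ℤ} (h : IsCoprime a c) : Fp (-a, c) = Fp (a, c) := by
  obtain ⟨x, y, hxy⟩ := h
  have h1 : Fp (a, c) = KZ c x := Fp_eq (by
    rw [Int.modEq_iff_dvd]; exact ⟨y, by linarith⟩)
  have h2 : Fp (-a, c) = KZ c (-x) := Fp_eq (by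
    rw [Int.modEq_iff_dvd]; exact ⟨y, by linarith⟩)
  have hcop : IsCoprime c x := ⟨y, a, by linarith⟩
  rw [h1, h2, KZ_neg_right hcop]

/-- The increment formula. -/
theorem Fp_step {a b c d : ℤ} (h : a * d - b * c = 1 ∨ a * d - b * c = -1) :
    Fp (b, d) - Fp (a, c) = X (c : ZMod 11) (d : ZMod 11) := by
  rcases h with h | h
  · exact Fp_step1 h
  · have h1 := Fp_step1 (a := a) (b := -b) (c := c) (d := -d) (by linarith)
    have hcop : IsCoprime b d := ⟨c, -a, by linarith⟩
    rw [Fp_neg hcop] at h1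
    rw [h1]
    push_cast
    rw [X_neg_right]

theorem Fp_congr {a a' c : ℤ} (h : IsCoprime a c) (hc : a ≡ a' [ZMOD c]) :
    Fp (a, c) = Fp (a', c) := by
  obtain ⟨x, y, hxy⟩ := h
  have h1 : Fp (a, c) = KZ c x := Fp_eq (by
    rw [Int.modEq_iff_dvd]; exact ⟨y, by linarith⟩)
  have h2 : Fp (a', c) = KZ c x := Fp_eq (by
    have : a * x ≡ 1 [ZMOD c] := by
      rw [Int.modEq_iff_dvd]; exact ⟨y, by linarith⟩
    exact (hc.symm.mul_right x).trans this)
  rw [h1, h2]

theorem Fp_inf : Fp (1, 0) = 0 := by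
  rw [Fp_eq (d := 1) (by simp)]
  simp [KZ, K_zero]

theorem Fp_zero : Fp (0, 1) = 0 := by
  have := Fp_step1 (a := 1) (b := 0) (c := 0) (d := 1) (by norm_num)
  rw [Fp_inf] at this
  simpa [X_zero_left] using this

/-- Induction along the Farey graph. -/
theorem farey_induction {P : ℤ × ℤ → Prop} (h0 : P (1, 0))
    (hstep : ∀ a b c d : ℤ, (a * d - b * c = 1 ∨ a * d - b * c = -1) → P (b, d) → P (a, c)) :
    ∀ a c : ℤ, IsCoprime a c → P (a, c) := by
  have key : ∀ n : ℕ, ∀ a c : ℤ, c.natAbs = n → IsCoprime a c → P (a, c) := by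
    intro n
    induction n using Nat.strong_induction_on with
    | _ n ih =>
      intro a c hn hac
      rcases eq_or_ne c 0 with rfl | hc
      · have ha : a = 1 ∨ a = -1 := by
          rw [isCoprime_zero_right] at hac
          exact Int.isUnit_iff.1 hac
        rcases ha with rfl | rfl
        · exact h0
        · have h01 : P (0, 1) := hstep 0 1 1 0 (by norm_num) h0
          exact hstep (-1) 0 0 1 (by norm_num) h01
      · obtain ⟨x, y, hxy⟩ := hac
        -- d = x % c
        set d := x % c with hd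
        have hd0 : 0 ≤ d := Int.emod_nonneg _ hc
        have hd1 : d < |c| := Int.emod_lt_abs _ hc
        have hx : x = d + c * (x / c) := by rw [hd, Int.emod_def]; ring
        have hdet : a * d - (-(y + a * (x / c))) * c = 1 := by
          have : x * a + y * c = 1 := hxy
          rw [hx] at this
          linarith
        have hlt : d.natAbs < n := by
          rw [← hn]
          have : (d.natAbs : ℤ) < (c.natAbs : ℤ) := by
            rw [Int.natCast_natAbs, Int.natCast_natAbs, abs_of_nonneg hd0]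
            exact hd1
          exact_mod_cast this
        have hcop : IsCoprime (-(y + a * (x / c))) d := ⟨-c, a, by linarith⟩
        exact hstep a _ c d (Or.inl hdet) (ih _ hlt _ d rfl hcop)
  intro a c h
  exact key _ a c rfl h

/-- Quasi-invariance of `Fp` under `Γ₀(11)` extended by matrices of determinant `-1`. -/
theorem Fp_gamma {p q r s : ℤ} (hdet : p * s - q * r = 1 ∨ p * s - q * r = -1)
    (hr : (11 : ℤ) ∣ r) {a c : ℤ} (hac : IsCoprime a c) :
    Fp (p * a + q * c, r * a + s * c) - Fp (a, c) = Fp (p, r) := by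
  have hs : (s : ZMod 11) ≠ 0 := by
    intro hs
    have h11 : (11 : ℤ) ∣ s := by
      have := (ZMod.intCast_zmod_eq_zero_iff_dvd s 11).1 hs
      exact_mod_cast this
    have : (11 : ℤ) ∣ p * s - q * r := dvd_sub (h11.mul_left p) (hr.mul_left q)
    rcases hdet with h | h <;> rw [h] at this <;> norm_num at this
  have hr0 : (r : ZMod 11) = 0 := by
    rw [ZMod.intCast_zmod_eq_zero_iff_dvd]; exact_mod_cast hr
  refine farey_induction (P := fun w => Fp (p * w.1 + q * w.2, r * w.1 + s * w.2) - Fp w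
    = Fp (p, r)) ?_ ?_ a c hac
  · simp [Fp_inf]
  · intro a b c d h hb
    simp only at hb ⊢
    have h1 := Fp_step h
    have h2 : Fp (p * b + q * d, r * b + s * d) - Fp (p * a + q * c, r * a + s * c) =
        X ((r * a + s * c : ℤ) : ZMod 11) ((r * b + s * d : ℤ) : ZMod 11) := by
      apply Fp_step
      have e : (p * a + q * c) * (r * b + s * d) - (p * b + q * d) * (r * a + s * c) =
          (p * s - q * r) * (a * d - b * c) := by ring
      rw [e]
      rcases hdet with h3 | h3 <;> rcases h with h4 | h4 <;> rw [h3, h4] <;> norm_num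
    have h5 : X ((r * a + s * c : ℤ) : ZMod 11) ((r * b + s * d : ℤ) : ZMod 11) =
        X (c : ZMod 11) (d : ZMod 11) := by
      push_cast
      rw [hr0, zero_mul, zero_add, zero_mul, zero_add]
      exact X_mul _ _ _ hs
    linarith

/-- The determinant of two integer vectors. -/
def det2 (u v : ℤ × ℤ) : ℤ := u.1 * v.2 - v.1 * u.2

/-- `v` is congruent to `x * u` modulo `m`. -/
def Cong (m x : ℤ) (u v : ℤ × ℤ) : Prop := m ∣ v.1 - x * u.1 ∧ m ∣ v.2 - x * u.2

theorem Fp_congr_pm {m x y : ℤ} (hx : IsCoprime x m) (h : m ∣ x - y) {m' : ℤ}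
    (hm' : m' = m ∨ m' = -m) : Fp (y, m') = Fp (x, m) := by
  have h1 : x ≡ y [ZMOD m] := by
    rw [Int.modEq_iff_dvd]
    have := (dvd_neg (a := m)).2 h
    simpa using this
  rcases hm' with rfl | rfl
  · exact (Fp_congr hx h1).symm
  · have hcopy : IsCoprime y m := by
      obtain ⟨k, hk⟩ := h
      have : y = x + m * (-k) := by linarith
      rw [this, IsCoprime.add_mul_left_left_iff]
      exact hx
    have h2 : Fp (y, -m) = Fp (-y, m) := by
      have := Fp_neg (a := -y) (c := m) hcopy.neg_left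
      simpa using this
    rw [h2, Fp_neg_fst hcopy]
    exact (Fp_congr hx h1).symm

/-- The key lemma. -/
theorem Fp_key {u v : ℤ × ℤ} (hu : IsCoprime u.1 u.2) (h11 : (11 : ℤ) ∣ u.2)
    {m x : ℤ} (hdet : det2 u v = m ∨ det2 u v = -m) (hx : Cong m x u v)
    (hv : IsCoprime v.1 v.2) :
    Fp v - Fp u = Fp (x, m) := by
  obtain ⟨u1, u2⟩ := u
  obtain ⟨v1, v2⟩ := v
  simp only [det2, Cong] at *
  obtain ⟨r, t, hrt⟩ := hu
  -- γ = (u1, -t; u2, r)
  set x' := r * v1 + t * v2 with hx'
  set m' := u1 * v2 - v1 * u2 with hm'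
  have e1 : u1 * x' + (-t) * m' = v1 := by
    have : u1 * x' + (-t) * m' = v1 * (r * u1 + t * u2) := by rw [hx', hm']; ring
    rw [this, hrt, mul_one]
  have e2 : u2 * x' + r * m' = v2 := by
    have : u2 * x' + r * m' = v2 * (r * u1 + t * u2) := by rw [hx', hm']; ring
    rw [this, hrt, mul_one]
  have hcop : IsCoprime x' m' := by
    obtain ⟨α, β, hαβ⟩ := hv
    refine ⟨α * u1 + β * u2, -α * t + β * r, ?_⟩
    have : (α * u1 + β * u2) * x' + (-α * t + β * r) * m' =
      α * (u1 * x' + (-t) * m') + β * (u2 * x' + r * m') := by ring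
    rw [this, e1, e2]
    exact hαβ
  have h1 := Fp_gamma (p := u1) (q := -t) (r := u2) (s := r) (Or.inl (by linarith)) h11 hcop
  rw [e1, e2] at h1
  -- m' = ± m
  have hdvd : m ∣ x' - x := by
    have h3 : x' - x = r * (v1 - x * u1) + t * (v2 - x * u2) := by
      have : x' - x * (r * u1 + t * u2) = r * (v1 - x * u1) + t * (v2 - x * u2) := by
        rw [hx']; ring
      rw [hrt, mul_one] at this
      exact this
    rw [h3]
    exact dvd_add (hx.1.mul_left _) (hx.2.mul_left _)
  have hcopm : IsCoprime x m := by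
    have h4 : IsCoprime x' m := by
      rcases hdet with h | h
      · rwa [h] at hcop
      · rw [h] at hcop
        simpa using hcop.neg_right
    obtain ⟨k, hk⟩ := hdvd
    have : x = x' + m * (-k) := by linarith
    rw [this, IsCoprime.add_mul_left_left_iff]
    exact h4
  have h5 : Fp (x', m') = Fp (x, m) := by
    apply Fp_congr_pm hcopm _ hdet
    have := (dvd_neg (a := m)).2 hdvd
    simpa using this
  rw [← h5]
  linarith

theorem K_table : K 11 1 = 0 ∧ K 11 2 = -2 ∧ K 11 3 = -1 ∧ K 11 4 = 1 ∧ K 11 5 = 2 := by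
  refine ⟨?_, ?_, ?_, ?_, ?_⟩
  all_goals simp [K_pos]; decide

theorem K_table' : K 11 6 = 2 ∧ K 11 7 = 1 ∧ K 11 8 = -1 ∧ K 11 9 = -2 ∧ K 11 10 = 0 := by
  obtain ⟨h1, h2, h3, h4, h5⟩ := K_table
  have hc : ∀ d : ℕ, d ∈ Finset.Icc 1 5 → Nat.Coprime 11 d := by decide
  refine ⟨?_, ?_, ?_, ?_, ?_⟩
  · have := K_sub (c := 11) (d := 5) (hc 5 (by decide)) (by norm_num) (by norm_num)
    rw [← h5]; exact this
  · have := K_sub (c := 11) (d := 4) (hc 4 (by decide)) (by norm_num) (by norm_num)
    rw [← h4]; exact this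
  · have := K_sub (c := 11) (d := 3) (hc 3 (by decide)) (by norm_num) (by norm_num)
    rw [← h3]; exact this
  · have := K_sub (c := 11) (d := 2) (hc 2 (by decide)) (by norm_num) (by norm_num)
    rw [← h2]; exact this
  · have := K_sub (c := 11) (d := 1) (hc 1 (by decide)) (by norm_num) (by norm_num)
    rw [← h1]; exact this

theorem KZ_eleven {d : ℤ} (h : ¬ (11 : ℤ) ∣ d) : KZ 11 d = X 1 (d : ZMod 11) := by
  have h0 : 0 ≤ d % 11 := Int.emod_nonneg _ (by norm_num)
  have h1 : d % 11 < 11 := Int.emod_lt_of_pos _ (by norm_num)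
  have h2 : d % 11 ≠ 0 := fun h' => h (Int.dvd_of_emod_eq_zero h')
  have h3 : (d : ZMod 11) = ((d % 11 : ℤ) : ZMod 11) := by
    rw [ZMod.intCast_eq_intCast_iff]
    exact (Int.mod_modEq d 11).symm
  have h4 : KZ 11 d = KZ 11 (d % 11) := KZ_congr (Int.mod_modEq d 11).symm
  rw [h3, h4]
  obtain ⟨t1, t2, t3, t4, t5⟩ := K_table
  obtain ⟨t6, t7, t8, t9, t10⟩ := K_table'
  have key : ∀ n : ℕ, KZ 11 (n : ℤ) = K 11 n := fun n => KZ_natCast 11 n
  generalize hd : d % 11 = e at *
  have : e = 1 ∨ e = 2 ∨ e = 3 ∨ e = 4 ∨ e = 5 ∨ e = 6 ∨ e = 7 ∨ e = 8 ∨ e = 9 ∨ e = 10 := by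
    omega
  rcases this with rfl | rfl | rfl | rfl | rfl | rfl | rfl | rfl | rfl | rfl
  · have := key 1; norm_num at this ⊢; rw [this, t1]; decide
  · have := key 2; norm_num at this ⊢; rw [this, t2]; decide
  · have := key 3; norm_num at this ⊢; rw [this, t3]; decide
  · have := key 4; norm_num at this ⊢; rw [this, t4]; decide
  · have := key 5; norm_num at this ⊢; rw [this, t5]; decide
  · have := key 6; norm_num at this ⊢; rw [this, t6]; decide
  · have := key 7; norm_num at this ⊢; rw [this, t7]; decide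
  · have := key 8; norm_num at this ⊢; rw [this, t8]; decide
  · have := key 9; norm_num at this ⊢; rw [this, t9]; decide
  · have := key 10; norm_num at this ⊢; rw [this, t10]; decide

theorem zmod_ne_zero {d : ℤ} (h : ¬ (11 : ℤ) ∣ d) : (d : ZMod 11) ≠ 0 := by
  intro h'
  apply h
  have := (ZMod.intCast_zmod_eq_zero_iff_dvd d 11).1 h'
  exact_mod_cast this

theorem zmod_eq_zero {d : ℤ} (h : (11 : ℤ) ∣ d) : (d : ZMod 11) = 0 := by
  rw [ZMod.intCast_zmod_eq_zero_iff_dvd]; exact_mod_cast h

theorem prime11 : Prime (11 : ℤ) := by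
  have : Nat.Prime 11 := by norm_num
  exact_mod_cast Nat.prime_iff_prime_int.1 this

theorem isCoprime11 {d : ℤ} (h : ¬ (11 : ℤ) ∣ d) : IsCoprime d 11 := by
  have := (prime11.coprime_iff_not_dvd (n := d)).2 h
  exact this.symm

theorem Fp_eleven {x : ℤ} (h : ¬ (11 : ℤ) ∣ x) : Fp (x, 11) = X (x : ZMod 11) 1 := by
  obtain ⟨d, y, hd⟩ := isCoprime11 h
  have h1 : Fp (x, 11) = KZ 11 d := Fp_eq (by
    rw [Int.modEq_iff_dvd]; exact ⟨y, by linarith⟩)
  have hnd : ¬ (11 : ℤ) ∣ d := by
    intro hd'
    have : (11 : ℤ) ∣ 1 := by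
      rw [← hd]; exact dvd_add (hd'.mul_right x) (Dvd.intro_left y rfl)
    norm_num at this
  rw [h1, KZ_eleven hnd]
  have h2 : (x : ZMod 11) * (d : ZMod 11) = 1 := by
    have h3 : ((x * d : ℤ) : ZMod 11) = ((1 : ℤ) : ZMod 11) := by
      rw [ZMod.intCast_eq_intCast_iff]
      rw [Int.modEq_iff_dvd]
      exact ⟨y, by push_cast; linarith⟩
    push_cast at h3
    exact h3
  have h3 := X_mul (x : ZMod 11) 1 (d : ZMod 11) (zmod_ne_zero h)
  rw [h2, mul_one] at h3
  exact h3.symm

/-- The involution of primitive vectors given by the matrix `(0, -1; 11, 0)`. -/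
def W (w : ℤ × ℤ) : ℤ × ℤ := if (11 : ℤ) ∣ w.2 then (-(w.2 / 11), w.1) else (-w.2, 11 * w.1)

theorem Fp_W {a c : ℤ} (hac : IsCoprime a c) : Fp (W (a, c)) = - Fp (a, c) := by
  refine farey_induction (P := fun w => Fp (W w) = - Fp w) ?_ ?_ a c hac
  · simp only [W, dvd_zero, if_true, EuclideanDomain.zero_div, neg_zero, Fp_zero, Fp_inf]
  · intro a b c d h hb
    simp only [W] at hb ⊢
    have hstep := Fp_step h
    by_cases hc : (11 : ℤ) ∣ c
    · by_cases hd : (11 : ℤ) ∣ d
      · exfalso
        have : (11 : ℤ) ∣ a * d - b * c := dvd_sub (hd.mul_left a) (hc.mul_left b)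
        rcases h with h | h <;> rw [h] at this <;> norm_num at this
      · rw [if_pos hc]
        rw [if_neg hd] at hb
        obtain ⟨k, rfl⟩ := hc
        have e : 11 * k / 11 = k := by omega
        rw [e]
        have h2 : Fp (-d, 11 * b) - Fp (-k, a) = X (a : ZMod 11) ((11 * b : ℤ) : ZMod 11) := by
          apply Fp_step
          rcases h with h | h
          · left; linarith
          · right; linarith
        rw [zmod_eq_zero (Dvd.intro b rfl), X_zero_right] at h2
        rw [zmod_eq_zero (Dvd.intro k rfl), X_zero_left] at hstep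
        linarith
    · by_cases hd : (11 : ℤ) ∣ d
      · rw [if_neg hc]
        rw [if_pos hd] at hb
        obtain ⟨k, rfl⟩ := hd
        have e : 11 * k / 11 = k := by omega
        rw [e] at hb
        have h2 : Fp (-k, b) - Fp (-c, 11 * a) = X ((11 * a : ℤ) : ZMod 11) (b : ZMod 11) := by
          apply Fp_step
          rcases h with h | h
          · left; linarith
          · right; linarith
        rw [zmod_eq_zero (Dvd.intro a rfl), X_zero_left] at h2
        rw [zmod_eq_zero (Dvd.intro k rfl), X_zero_right] at hstep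
        linarith
      · rw [if_neg hc]
        rw [if_neg hd] at hb
        -- x with x * c ≡ d mod 11
        obtain ⟨y, z, hyz⟩ := isCoprime11 hc
        have hcopca : IsCoprime (-c) (11 * a) := by
          apply IsCoprime.neg_left
          apply IsCoprime.mul_right (isCoprime11 hc)
          rcases h with h | h
          · exact ⟨-b, d, by linarith⟩
          · exact ⟨b, -d, by linarith⟩
        have hcopdb : IsCoprime (-d) (11 * b) := by
          apply IsCoprime.neg_left
          apply IsCoprime.mul_right (isCoprime11 hd)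
          rcases h with h | h
          · exact ⟨a, -c, by linarith⟩
          · exact ⟨-a, c, by linarith⟩
        have hxc : ((d * y : ℤ) : ZMod 11) * (c : ZMod 11) = (d : ZMod 11) := by
          have h3 : ((d * y * c : ℤ) : ZMod 11) = ((d : ℤ) : ZMod 11) := by
            rw [ZMod.intCast_eq_intCast_iff, Int.modEq_iff_dvd]
            refine ⟨d * z, ?_⟩
            have : d * (y * c + z * 11) = d := by rw [hyz, mul_one]
            push_cast
            linarith
          push_cast at h3 ⊢
          exact h3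
        have hx : Cong 11 (d * y) (-c, 11 * a) (-d, 11 * b) := by
          constructor
          · simp only
            refine ⟨-(d * z), ?_⟩
            have : d * (y * c + z * 11) = d := by rw [hyz, mul_one]
            linarith
          · simp only
            exact ⟨b - d * y * a, by ring⟩
        have hkey := Fp_key (u := (-c, 11 * a)) (v := (-d, 11 * b)) (m := 11) (x := d * y)
          hcopca (Dvd.intro a rfl) (by
            simp only [det2]
            rcases h with h | h
            · left; linarith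
            · right; linarith) hx hcopdb
        have hnx : ¬ (11 : ℤ) ∣ d * y := by
          intro h'
          rw [zmod_eq_zero h', zero_mul] at hxc
          exact zmod_ne_zero hd hxc.symm
        rw [Fp_eleven hnx] at hkey
        have h4 := X_mul (c : ZMod 11) ((d * y : ℤ) : ZMod 11) 1 (zmod_ne_zero hc)
        rw [mul_comm, hxc, mul_one] at h4
        rw [← h4, X_swap] at hkey
        linarith

end Pool.Agent.W584
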