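import Mathlib

/-! The twelve-dimensional local symmetric algebra `k + V + V* + k`, `dim V = 5`, attached to a
cyclic trilinear form, and a five-dimensional module over it. -/

namespace Pool.Agent.W584

universe u

/-- Elements `a + sum x_i X_i + sum y_i Y_i + z Z`. -/
@[ext]
structure LSA (k : Type u) where
  a : k
  x0 : k
  x1 : k
  x2 : k
  x3 : k
  x4 : k
  y0 : k
  y1 : k
  y2 : k
  y3 : k
  y4 : k
  z : k

namespace LSA

variable {k : Type u} [Field k]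

instance : Zero (LSA k) := ⟨⟨0, 0, 0, 0, 0, 0, 0, 0, 0, 0, 0, 0⟩⟩

instance : One (LSA k) := ⟨⟨1, 0, 0, 0, 0, 0, 0, 0, 0, 0, 0, 0⟩⟩

instance : Add (LSA k) := ⟨fun p q => ⟨p.a + q.a, p.x0 + q.x0, p.x1 + q.x1, p.x2 + q.x2,
  p.x3 + q.x3, p.x4 + q.x4, p.y0 + q.y0, p.y1 + q.y1, p.y2 + q.y2, p.y3 + q.y3, p.y4 + q.y4,
  p.z + q.z⟩⟩

instance : Neg (LSA k) := ⟨fun p => ⟨-p.a, -p.x0, -p.x1, -p.x2, -p.x3, -p.x4, -p.y0, -p.y1,
  -p.y2, -p.y3, -p.y4, -p.z⟩⟩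

instance : SMul k (LSA k) := ⟨fun c p => ⟨c * p.a, c * p.x0, c * p.x1, c * p.x2, c * p.x3,
  c * p.x4, c * p.y0, c * p.y1, c * p.y2, c * p.y3, c * p.y4, c * p.z⟩⟩

/-- The product: `X_i X_j = sum w_ijl Y_l`, `X_i Y_i = Y_i X_i = Z`. -/
instance : Mul (LSA k) := ⟨fun p q =>
  { a := p.a * q.a
    x0 := p.a * q.x0 + p.x0 * q.a
    x1 := p.a * q.x1 + p.x1 * q.a
    x2 := p.a * q.x2 + p.x2 * q.a
    x3 := p.a * q.x3 + p.x3 * q.a
    x4 := p.a * q.x4 + p.x4 * q.a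
    y0 := p.a * q.y0 + p.y0 * q.a +
      (p.x0 * q.x4 + p.x1 * q.x3 + p.x2 * q.x4 + p.x3 * q.x3 + p.x4 * q.x0)
    y1 := p.a * q.y1 + p.y1 * q.a + (p.x1 * q.x2 + p.x2 * q.x1 + p.x3 * q.x0)
    y2 := p.a * q.y2 + p.y2 * q.a + (p.x1 * q.x1 + p.x4 * q.x0)
    y3 := p.a * q.y3 + p.y3 * q.a + (p.x0 * q.x1 + p.x0 * q.x3 + p.x3 * q.x0)
    y4 := p.a * q.y4 + p.y4 * q.a + (p.x0 * q.x0 + p.x0 * q.x2)
    z := p.a * q.z + p.z * q.a + (p.x0 * q.y0 + p.x1 * q.y1 + p.x2 * q.y2 + p.x3 * q.y3 +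
      p.x4 * q.y4) + (p.y0 * q.x0 + p.y1 * q.x1 + p.y2 * q.x2 + p.y3 * q.x3 + p.y4 * q.x4) }⟩

@[simp] lemma zero_a : (0 : LSA k).a = 0 := rfl
@[simp] lemma zero_x0 : (0 : LSA k).x0 = 0 := rfl
@[simp] lemma zero_x1 : (0 : LSA k).x1 = 0 := rfl
@[simp] lemma zero_x2 : (0 : LSA k).x2 = 0 := rfl
@[simp] lemma zero_x3 : (0 : LSA k).x3 = 0 := rfl
@[simp] lemma zero_x4 : (0 : LSA k).x4 = 0 := rfl
@[simp] lemma zero_y0 : (0 : LSA k).y0 = 0 := rfl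
@[simp] lemma zero_y1 : (0 : LSA k).y1 = 0 := rfl
@[simp] lemma zero_y2 : (0 : LSA k).y2 = 0 := rfl
@[simp] lemma zero_y3 : (0 : LSA k).y3 = 0 := rfl
@[simp] lemma zero_y4 : (0 : LSA k).y4 = 0 := rfl
@[simp] lemma zero_z : (0 : LSA k).z = 0 := rfl
@[simp] lemma one_a : (1 : LSA k).a = 1 := rfl
@[simp] lemma one_x0 : (1 : LSA k).x0 = 0 := rfl
@[simp] lemma one_x1 : (1 : LSA k).x1 = 0 := rfl
@[simp] lemma one_x2 : (1 : LSA k).x2 = 0 := rfl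
@[simp] lemma one_x3 : (1 : LSA k).x3 = 0 := rfl
@[simp] lemma one_x4 : (1 : LSA k).x4 = 0 := rfl
@[simp] lemma one_y0 : (1 : LSA k).y0 = 0 := rfl
@[simp] lemma one_y1 : (1 : LSA k).y1 = 0 := rfl
@[simp] lemma one_y2 : (1 : LSA k).y2 = 0 := rfl
@[simp] lemma one_y3 : (1 : LSA k).y3 = 0 := rfl
@[simp] lemma one_y4 : (1 : LSA k).y4 = 0 := rfl
@[simp] lemma one_z : (1 : LSA k).z = 0 := rfl
@[simp] lemma add_a (p q : LSA k) : (p + q).a = p.a + q.a := rfl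
@[simp] lemma add_x0 (p q : LSA k) : (p + q).x0 = p.x0 + q.x0 := rfl
@[simp] lemma add_x1 (p q : LSA k) : (p + q).x1 = p.x1 + q.x1 := rfl
@[simp] lemma add_x2 (p q : LSA k) : (p + q).x2 = p.x2 + q.x2 := rfl
@[simp] lemma add_x3 (p q : LSA k) : (p + q).x3 = p.x3 + q.x3 := rfl
@[simp] lemma add_x4 (p q : LSA k) : (p + q).x4 = p.x4 + q.x4 := rfl
@[simp] lemma add_y0 (p q : LSA k) : (p + q).y0 = p.y0 + q.y0 := rfl
@[simp] lemma add_y1 (p q : LSA k) : (p + q).y1 = p.y1 + q.y1 := rfl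
@[simp] lemma add_y2 (p q : LSA k) : (p + q).y2 = p.y2 + q.y2 := rfl
@[simp] lemma add_y3 (p q : LSA k) : (p + q).y3 = p.y3 + q.y3 := rfl
@[simp] lemma add_y4 (p q : LSA k) : (p + q).y4 = p.y4 + q.y4 := rfl
@[simp] lemma add_z (p q : LSA k) : (p + q).z = p.z + q.z := rfl
@[simp] lemma neg_a (p : LSA k) : (-p).a = -p.a := rfl
@[simp] lemma neg_x0 (p : LSA k) : (-p).x0 = -p.x0 := rfl
@[simp] lemma neg_x1 (p : LSA k) : (-p).x1 = -p.x1 := rfl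
@[simp] lemma neg_x2 (p : LSA k) : (-p).x2 = -p.x2 := rfl
@[simp] lemma neg_x3 (p : LSA k) : (-p).x3 = -p.x3 := rfl
@[simp] lemma neg_x4 (p : LSA k) : (-p).x4 = -p.x4 := rfl
@[simp] lemma neg_y0 (p : LSA k) : (-p).y0 = -p.y0 := rfl
@[simp] lemma neg_y1 (p : LSA k) : (-p).y1 = -p.y1 := rfl
@[simp] lemma neg_y2 (p : LSA k) : (-p).y2 = -p.y2 := rfl
@[simp] lemma neg_y3 (p : LSA k) : (-p).y3 = -p.y3 := rfl
@[simp] lemma neg_y4 (p : LSA k) : (-p).y4 = -p.y4 := rfl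
@[simp] lemma neg_z (p : LSA k) : (-p).z = -p.z := rfl
@[simp] lemma smul_a (c : k) (p : LSA k) : (c • p).a = c * p.a := rfl
@[simp] lemma smul_x0 (c : k) (p : LSA k) : (c • p).x0 = c * p.x0 := rfl
@[simp] lemma smul_x1 (c : k) (p : LSA k) : (c • p).x1 = c * p.x1 := rfl
@[simp] lemma smul_x2 (c : k) (p : LSA k) : (c • p).x2 = c * p.x2 := rfl
@[simp] lemma smul_x3 (c : k) (p : LSA k) : (c • p).x3 = c * p.x3 := rfl
@[simp] lemma smul_x4 (c : k) (p : LSA k) : (c • p).x4 = c * p.x4 := rfl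
@[simp] lemma smul_y0 (c : k) (p : LSA k) : (c • p).y0 = c * p.y0 := rfl
@[simp] lemma smul_y1 (c : k) (p : LSA k) : (c • p).y1 = c * p.y1 := rfl
@[simp] lemma smul_y2 (c : k) (p : LSA k) : (c • p).y2 = c * p.y2 := rfl
@[simp] lemma smul_y3 (c : k) (p : LSA k) : (c • p).y3 = c * p.y3 := rfl
@[simp] lemma smul_y4 (c : k) (p : LSA k) : (c • p).y4 = c * p.y4 := rfl
@[simp] lemma smul_z (c : k) (p : LSA k) : (c • p).z = c * p.z := rfl
@[simp] lemma mul_a (p q : LSA k) : (p * q).a = p.a * q.a := rfl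
@[simp] lemma mul_x0 (p q : LSA k) : (p * q).x0 = p.a * q.x0 + p.x0 * q.a := rfl
@[simp] lemma mul_x1 (p q : LSA k) : (p * q).x1 = p.a * q.x1 + p.x1 * q.a := rfl
@[simp] lemma mul_x2 (p q : LSA k) : (p * q).x2 = p.a * q.x2 + p.x2 * q.a := rfl
@[simp] lemma mul_x3 (p q : LSA k) : (p * q).x3 = p.a * q.x3 + p.x3 * q.a := rfl
@[simp] lemma mul_x4 (p q : LSA k) : (p * q).x4 = p.a * q.x4 + p.x4 * q.a := rfl
@[simp] lemma mul_y0 (p q : LSA k) : (p * q).y0 = p.a * q.y0 + p.y0 * q.a +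
    (p.x0 * q.x4 + p.x1 * q.x3 + p.x2 * q.x4 + p.x3 * q.x3 + p.x4 * q.x0) := rfl
@[simp] lemma mul_y1 (p q : LSA k) : (p * q).y1 = p.a * q.y1 + p.y1 * q.a +
    (p.x1 * q.x2 + p.x2 * q.x1 + p.x3 * q.x0) := rfl
@[simp] lemma mul_y2 (p q : LSA k) : (p * q).y2 = p.a * q.y2 + p.y2 * q.a +
    (p.x1 * q.x1 + p.x4 * q.x0) := rfl
@[simp] lemma mul_y3 (p q : LSA k) : (p * q).y3 = p.a * q.y3 + p.y3 * q.a +
    (p.x0 * q.x1 + p.x0 * q.x3 + p.x3 * q.x0) := rfl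
@[simp] lemma mul_y4 (p q : LSA k) : (p * q).y4 = p.a * q.y4 + p.y4 * q.a +
    (p.x0 * q.x0 + p.x0 * q.x2) := rfl
@[simp] lemma mul_z (p q : LSA k) : (p * q).z = p.a * q.z + p.z * q.a +
    (p.x0 * q.y0 + p.x1 * q.y1 + p.x2 * q.y2 + p.x3 * q.y3 + p.x4 * q.y4) +
    (p.y0 * q.x0 + p.y1 * q.x1 + p.y2 * q.x2 + p.y3 * q.x3 + p.y4 * q.x4) := rfl

instance : AddCommGroup (LSA k) where
  add_assoc p q r := by ext <;> simp [add_assoc]
  zero_add p := by ext <;> simp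
  add_zero p := by ext <;> simp
  add_comm p q := by ext <;> simp [add_comm]
  neg_add_cancel p := by ext <;> simp
  nsmul := nsmulRec
  zsmul := zsmulRec

instance : Ring (LSA k) where
  left_distrib p q r := by ext <;> simp <;> ring
  right_distrib p q r := by ext <;> simp <;> ring
  zero_mul p := by ext <;> simp
  mul_zero p := by ext <;> simp
  mul_assoc p q r := by ext <;> simp <;> ring
  one_mul p := by ext <;> simp
  mul_one p := by ext <;> simp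
  neg_add_cancel p := by ext <;> simp
  zsmul := zsmulRec

instance : Module k (LSA k) where
  one_smul p := by ext <;> simp
  mul_smul c d p := by ext <;> simp [mul_assoc]
  smul_zero c := by ext <;> simp
  smul_add c p q := by ext <;> simp [mul_add]
  add_smul c d p := by ext <;> simp [add_mul]
  zero_smul p := by ext <;> simp

instance : Algebra k (LSA k) :=
  Algebra.ofModule (fun c p q => by ext <;> simp <;> ring) (fun c p q => by ext <;> simp <;> ring)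

end LSA

end Pool.Agent.W584
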