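import Pool.Agent.W584.LSA

/-! Local, symmetric, selfinjective; the five-dimensional module and its self-extensions. -/

namespace Pool.Agent.W584

universe u

namespace LSA

variable {k : Type u} [Field k]

/-- Coordinates. -/
def ofVec : (Fin 12 → k) →ₗ[k] LSA k where
  toFun v := ⟨v 0, v 1, v 2, v 3, v 4, v 5, v 6, v 7, v 8, v 9, v 10, v 11⟩
  map_add' _ _ := rfl
  map_smul' _ _ := rfl

lemma ofVec_surjective : Function.Surjective (ofVec (k := k)) := by
  intro p
  refine ⟨![p.a, p.x0, p.x1, p.x2, p.x3, p.x4, p.y0, p.y1, p.y2, p.y3, p.y4, p.z], ?_⟩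
  rfl

instance : Module.Finite k (LSA k) := Module.Finite.of_surjective _ ofVec_surjective

@[simp] lemma algebraMap_eq (c : k) : algebraMap k (LSA k) c = c • (1 : LSA k) := by
  rw [Algebra.algebraMap_eq_smul_one]

lemma nilp (p : LSA k) (h : p.a = 0) : p ^ 4 = 0 := by
  have h2 : p ^ 4 = p * (p * (p * p)) := by noncomm_ring
  rw [h2]
  ext <;> simp [h]

lemma sub_a (p q : LSA k) : (p - q).a = p.a - q.a := by
  rw [sub_eq_add_neg, add_a, neg_a, sub_eq_add_neg]

lemma isUnit_of_a (p : LSA k) (h : p.a ≠ 0) : IsUnit p := by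
  have h1 : IsUnit (algebraMap k (LSA k) p.a) := (IsUnit.mk0 _ h).map _
  have h2 : IsNilpotent (p - algebraMap k (LSA k) p.a) :=
    ⟨4, nilp _ (by rw [sub_a]; simp)⟩
  have h3 : Commute (p - algebraMap k (LSA k) p.a) (algebraMap k (LSA k) p.a) :=
    (Algebra.commutes _ _).symm
  have := h2.isUnit_add_left_of_commute h1 h3
  simpa using this

instance : Nontrivial (LSA k) := ⟨⟨0, 1, fun h => by
  have := congrArg LSA.a h
  simp at this⟩⟩

instance : IsLocalRing (LSA k) where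
  isUnit_or_isUnit_of_add_one {p q} h := by
    by_cases hp : p.a = 0
    · right
      apply isUnit_of_a
      intro hq
      have := congrArg LSA.a h
      rw [add_a, hp, hq] at this
      simp at this
    · exact Or.inl (isUnit_of_a p hp)

/-- The symmetrising form. -/
def form : LSA k →ₗ[k] Module.Dual k (LSA k) :=
  LinearMap.mk₂ k (fun p q => (p * q).z)
    (fun p p' q => by simp; ring) (fun c p q => by simp)
    (fun p q q' => by simp; ring) (fun c p q => by simp)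

@[simp] lemma form_apply (p q : LSA k) : form p q = (p * q).z := rfl

lemma form_injective : Function.Injective (form (k := k)) := by
  rw [← LinearMap.ker_eq_bot, LinearMap.ker_eq_bot']
  intro p hp
  have h : ∀ q, (p * q).z = 0 := fun q => by rw [← form_apply, hp]; rfl
  ext
  · simpa using h ⟨0, 0, 0, 0, 0, 0, 0, 0, 0, 0, 0, 1⟩
  · simpa using h ⟨0, 0, 0, 0, 0, 0, 1, 0, 0, 0, 0, 0⟩
  · simpa using h ⟨0, 0, 0, 0, 0, 0, 0, 1, 0, 0, 0, 0⟩
  · simpa using h ⟨0, 0, 0, 0, 0, 0, 0, 0, 1, 0, 0, 0⟩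
  · simpa using h ⟨0, 0, 0, 0, 0, 0, 0, 0, 0, 1, 0, 0⟩
  · simpa using h ⟨0, 0, 0, 0, 0, 0, 0, 0, 0, 0, 1, 0⟩
  · simpa using h ⟨0, 1, 0, 0, 0, 0, 0, 0, 0, 0, 0, 0⟩
  · simpa using h ⟨0, 0, 1, 0, 0, 0, 0, 0, 0, 0, 0, 0⟩
  · simpa using h ⟨0, 0, 0, 1, 0, 0, 0, 0, 0, 0, 0, 0⟩
  · simpa using h ⟨0, 0, 0, 0, 1, 0, 0, 0, 0, 0, 0, 0⟩
  · simpa using h ⟨0, 0, 0, 0, 0, 1, 0, 0, 0, 0, 0, 0⟩
  · simpa using h ⟨1, 0, 0, 0, 0, 0, 0, 0, 0, 0, 0, 0⟩

lemma form_symm (p q : LSA k) : (p * q).z = (q * p).z := by simp; ring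

/-- `A` is isomorphic to its dual. -/
noncomputable def formEquiv : LSA k ≃ₗ[k] Module.Dual k (LSA k) :=
  LinearEquiv.ofBijective form ⟨form_injective,
    (LinearMap.injective_iff_surjective_of_finrank_eq_finrank
      (Subspace.dual_finrank_eq).symm).1 form_injective⟩

@[simp] lemma formEquiv_apply (p q : LSA k) : formEquiv p q = (p * q).z := rfl

lemma formEquiv_bimodule (a b c : LSA k) :
    formEquiv (a * b) c = formEquiv b (c * a) ∧ formEquiv (b * a) c = formEquiv b (a * c) := by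
  constructor
  · rw [formEquiv_apply, formEquiv_apply, mul_assoc, form_symm, mul_assoc]
  · rw [formEquiv_apply, formEquiv_apply, mul_assoc]

lemma baer : Module.Baer (LSA k) (LSA k) := by
  intro I f
  let φ : I →ₗ[k] k :=
    { toFun := fun x => (f x).z
      map_add' := fun x y => by simp
      map_smul' := fun c x => by
        have : f (c • x) = c • f x := by
          have h1 : c • x = (c • (1 : LSA k)) • x := by
            ext1
            simp
          rw [h1, map_smul]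
          simp
        simp [this] }
  obtain ⟨g, hg⟩ := LinearMap.exists_extend (p := I.restrictScalars k) φ
  obtain ⟨c, hc⟩ := formEquiv.surjective g
  refine ⟨LinearMap.toSpanSingleton (LSA k) (LSA k) c, fun x hx => ?_⟩
  rw [LinearMap.toSpanSingleton_apply, smul_eq_mul]
  apply form_injective
  ext b
  rw [form_apply, form_apply, form_symm, form_symm (f _)]
  have h1 : b * f ⟨x, hx⟩ = f ⟨b * x, I.mul_mem_left b hx⟩ := by
    rw [← smul_eq_mul, ← map_smul]
    rfl
  rw [h1]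
  have h2 : (f ⟨b * x, I.mul_mem_left b hx⟩).z = g (b * x) := by
    exact (LinearMap.congr_fun hg ⟨b * x, I.mul_mem_left b hx⟩).symm
  rw [h2, ← hc, formEquiv_apply, form_symm c, mul_assoc]

end LSA

/-- The module `A / (A X_1 + A X_2)` in coordinates. -/
@[ext]
structure LSM (k : Type u) where
  m : k
  p0 : k
  p3 : k
  p4 : k
  q : k

namespace LSM

variable {k : Type u} [Field k]

instance : Zero (LSM k) := ⟨⟨0, 0, 0, 0, 0⟩⟩
instance : Add (LSM k) := ⟨fun s t => ⟨s.m + t.m, s.p0 + t.p0, s.p3 + t.p3, s.p4 + t.p4,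
  s.q + t.q⟩⟩
instance : Neg (LSM k) := ⟨fun s => ⟨-s.m, -s.p0, -s.p3, -s.p4, -s.q⟩⟩
instance : SMul (LSA k) (LSM k) := ⟨fun r s =>
  { m := r.a * s.m
    p0 := r.a * s.p0 + r.x0 * s.m
    p3 := r.a * s.p3 + r.x3 * s.m
    p4 := r.a * s.p4 + r.x4 * s.m
    q := r.a * s.q + r.y0 * s.m + (r.x0 * s.p4 + r.x1 * s.p3 + r.x2 * s.p4 + r.x3 * s.p3 +
      r.x4 * s.p0) }⟩

@[simp] lemma zero_m : (0 : LSM k).m = 0 := rfl
@[simp] lemma zero_p0 : (0 : LSM k).p0 = 0 := rfl
@[simp] lemma zero_p3 : (0 : LSM k).p3 = 0 := rfl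
@[simp] lemma zero_p4 : (0 : LSM k).p4 = 0 := rfl
@[simp] lemma zero_q : (0 : LSM k).q = 0 := rfl
@[simp] lemma add_m (s t : LSM k) : (s + t).m = s.m + t.m := rfl
@[simp] lemma add_p0 (s t : LSM k) : (s + t).p0 = s.p0 + t.p0 := rfl
@[simp] lemma add_p3 (s t : LSM k) : (s + t).p3 = s.p3 + t.p3 := rfl
@[simp] lemma add_p4 (s t : LSM k) : (s + t).p4 = s.p4 + t.p4 := rfl
@[simp] lemma add_q (s t : LSM k) : (s + t).q = s.q + t.q := rfl
@[simp] lemma neg_m (s : LSM k) : (-s).m = -s.m := rfl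
@[simp] lemma neg_p0 (s : LSM k) : (-s).p0 = -s.p0 := rfl
@[simp] lemma neg_p3 (s : LSM k) : (-s).p3 = -s.p3 := rfl
@[simp] lemma neg_p4 (s : LSM k) : (-s).p4 = -s.p4 := rfl
@[simp] lemma neg_q (s : LSM k) : (-s).q = -s.q := rfl
@[simp] lemma smul_m (r : LSA k) (s : LSM k) : (r • s).m = r.a * s.m := rfl
@[simp] lemma smul_p0 (r : LSA k) (s : LSM k) : (r • s).p0 = r.a * s.p0 + r.x0 * s.m := rfl
@[simp] lemma smul_p3 (r : LSA k) (s : LSM k) : (r • s).p3 = r.a * s.p3 + r.x3 * s.m := rfl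
@[simp] lemma smul_p4 (r : LSA k) (s : LSM k) : (r • s).p4 = r.a * s.p4 + r.x4 * s.m := rfl
@[simp] lemma smul_q (r : LSA k) (s : LSM k) : (r • s).q = r.a * s.q + r.y0 * s.m +
    (r.x0 * s.p4 + r.x1 * s.p3 + r.x2 * s.p4 + r.x3 * s.p3 + r.x4 * s.p0) := rfl

instance : AddCommGroup (LSM k) where
  add_assoc p q r := by ext <;> simp [add_assoc]
  zero_add p := by ext <;> simp
  add_zero p := by ext <;> simp
  add_comm p q := by ext <;> simp [add_comm]
  neg_add_cancel p := by ext <;> simp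
  nsmul := nsmulRec
  zsmul := zsmulRec

instance : Module (LSA k) (LSM k) where
  one_smul p := by ext <;> simp
  mul_smul c d p := by ext <;> simp <;> ring
  smul_zero c := by ext <;> simp
  smul_add c p q := by ext <;> simp <;> ring
  add_smul c d p := by ext <;> simp <;> ring
  zero_smul p := by ext <;> simp

/-- The generator. -/
def gen : LSM k := ⟨1, 0, 0, 0, 0⟩

/-- The projective cover `A → M`. -/
def cover : LSA k →ₗ[LSA k] LSM k := LinearMap.toSpanSingleton (LSA k) (LSM k) gen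

lemma cover_apply (r : LSA k) : cover r = r • (gen : LSM k) := rfl

lemma cover_surjective : Function.Surjective (cover (k := k)) := by
  intro s
  refine ⟨⟨s.m, s.p0, 0, 0, s.p3, s.p4, s.q, 0, 0, 0, 0, 0⟩, ?_⟩
  ext <;> simp [cover_apply, gen]

instance : Module.Finite (LSA k) (LSM k) :=
  Module.Finite.of_surjective (cover (k := k)) cover_surjective

/-- Basis elements. -/
def X0 : LSA k := ⟨0, 1, 0, 0, 0, 0, 0, 0, 0, 0, 0, 0⟩
def X1 : LSA k := ⟨0, 0, 1, 0, 0, 0, 0, 0, 0, 0, 0, 0⟩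
def X2 : LSA k := ⟨0, 0, 0, 1, 0, 0, 0, 0, 0, 0, 0, 0⟩
def X3 : LSA k := ⟨0, 0, 0, 0, 1, 0, 0, 0, 0, 0, 0, 0⟩
def X4 : LSA k := ⟨0, 0, 0, 0, 0, 1, 0, 0, 0, 0, 0, 0⟩

lemma not_projective : ¬ Module.Projective (LSA k) (LSM k) := by
  intro h
  obtain ⟨s, hs⟩ := Module.projective_lifting_property (cover (k := k)) LinearMap.id
    cover_surjective
  have h1 : cover (s gen) = gen := LinearMap.congr_fun hs gen
  have h2 : (s gen).a = 1 := by
    have := congrArg LSM.m h1
    simpa [cover_apply, gen] using this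
  have h3 : (X1 : LSA k) • (gen : LSM k) = 0 := by ext <;> simp [X1, gen]
  have h4 : (X1 : LSA k) * s gen = 0 := by rw [← smul_eq_mul, ← map_smul, h3, map_zero]
  have h5 := congrArg LSA.x1 h4
  simp [X1, h2] at h5

lemma extends_hom (f : LinearMap.ker (cover (k := k)) →ₗ[LSA k] LSM k) :
    ∃ g : LSA k →ₗ[LSA k] LSM k, ∀ x : LinearMap.ker (cover (k := k)), g x = f x := by
  have hX1 : (X1 : LSA k) ∈ LinearMap.ker (cover (k := k)) := by
    rw [LinearMap.mem_ker, cover_apply]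
    ext <;> simp [X1, gen]
  have hX2 : (X2 : LSA k) ∈ LinearMap.ker (cover (k := k)) := by
    rw [LinearMap.mem_ker, cover_apply]
    ext <;> simp [X2, gen]
  set e1 : LinearMap.ker (cover (k := k)) := ⟨X1, hX1⟩ with he1
  set e2 : LinearMap.ker (cover (k := k)) := ⟨X2, hX2⟩ with he2
  have r31 : (X3 : LSA k) • e1 = 0 := by
    apply Subtype.ext
    change (X3 : LSA k) * X1 = 0
    ext <;> simp [X1, X3]
  have r41 : (X4 : LSA k) • e1 = 0 := by
    apply Subtype.ext
    change (X4 : LSA k) * X1 = 0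
    ext <;> simp [X1, X4]
  have r22 : (X2 : LSA k) • e2 = 0 := by
    apply Subtype.ext
    change (X2 : LSA k) * X2 = 0
    ext <;> simp [X2]
  have r32 : (X3 : LSA k) • e2 = 0 := by
    apply Subtype.ext
    change (X3 : LSA k) * X2 = 0
    ext <;> simp [X2, X3]
  have r42 : (X4 : LSA k) • e2 = 0 := by
    apply Subtype.ext
    change (X4 : LSA k) * X2 = 0
    ext <;> simp [X2, X4]
  have r21 : (X2 : LSA k) • e1 = (X1 : LSA k) • e2 := by
    apply Subtype.ext
    change (X2 : LSA k) * X1 = X1 * X2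
    ext <;> simp [X2, X1]
  have s31 := congrArg f r31
  have s41 := congrArg f r41
  have s22 := congrArg f r22
  have s32 := congrArg f r32
  have s42 := congrArg f r42
  have s21 := congrArg f r21
  simp only [map_smul, map_zero] at s31 s41 s22 s32 s42 s21
  have a1 : (f e1).m = 0 := by simpa [X3] using congrArg LSM.p3 s31
  have a2 : (f e1).p3 = 0 := by simpa [X3, a1] using congrArg LSM.q s31
  have a3 : (f e1).p0 = 0 := by simpa [X4, a1] using congrArg LSM.q s41
  have b1 : (f e2).m = 0 := by simpa [X3] using congrArg LSM.p3 s32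
  have b2 : (f e2).p3 = 0 := by simpa [X3, b1] using congrArg LSM.q s32
  have b3 : (f e2).p0 = 0 := by simpa [X4, b1] using congrArg LSM.q s42
  have b4 : (f e2).p4 = 0 := by simpa [X2, b1] using congrArg LSM.q s22
  have a4 : (f e1).p4 = 0 := by simpa [X2, X1, a1, b2] using congrArg LSM.q s21
  refine ⟨LinearMap.toSpanSingleton (LSA k) (LSM k) ⟨0, 0, (f e1).q, (f e2).q, 0⟩, ?_⟩
  rintro ⟨r, hr⟩
  have hr' : r • (gen : LSM k) = 0 := hr
  have c1 : r.a = 0 := by simpa [gen] using congrArg LSM.m hr'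
  have c2 : r.x0 = 0 := by simpa [gen] using congrArg LSM.p0 hr'
  have c3 : r.x3 = 0 := by simpa [gen] using congrArg LSM.p3 hr'
  have c4 : r.x4 = 0 := by simpa [gen] using congrArg LSM.p4 hr'
  have c5 : r.y0 = 0 := by simpa [gen, c1] using congrArg LSM.q hr'
  have key : (⟨r, hr⟩ : LinearMap.ker (cover (k := k))) =
      (⟨r.x1, r.y3, r.y2, r.y1, 0, 0, 0, r.z, 0, 0, 0, 0⟩ : LSA k) • e1 +
      (⟨r.x2, r.y4, 0, 0, 0, 0, 0, 0, 0, 0, 0, 0⟩ : LSA k) • e2 := by
    apply Subtype.ext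
    change r = _ * X1 + _ * X2
    ext <;> simp [X1, X2, c1, c2, c3, c4, c5]
  rw [key, map_add, map_smul, map_smul]
  change _ = _
  have : ((⟨r.x1, r.y3, r.y2, r.y1, 0, 0, 0, r.z, 0, 0, 0, 0⟩ : LSA k) • e1 +
      (⟨r.x2, r.y4, 0, 0, 0, 0, 0, 0, 0, 0, 0, 0⟩ : LSA k) • e2).1 = r := by
    rw [← key]
  rw [this, LinearMap.toSpanSingleton_apply]
  ext <;> simp [a1, a2, a3, a4, b1, b2, b3, b4, c1, c2, c3, c4, c5]

open CategoryTheory Abelian

lemma ext_one : Subsingleton (Ext (ModuleCat.of (LSA k) (LSM k))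
    (ModuleCat.of (LSA k) (LSM k)) 1) := by
  have hS := LinearMap.shortExact_shortComplexKer (cover_surjective (k := k))
  refine ⟨fun x y => ?_⟩
  have main : ∀ x : Ext (ModuleCat.of (LSA k) (LSM k)) (ModuleCat.of (LSA k) (LSM k)) 1,
      x = 0 := by
    intro x
    have : Projective (cover (k := k)).shortComplexKer.X₂ :=
      (ModuleCat.of (LSA k) (LSA k)).projective_of_free (ι := Unit)
        (Module.Basis.singleton Unit (LSA k))
    obtain ⟨x₁, hx₁⟩ := Ext.contravariant_sequence_exact₃ hS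
      (ModuleCat.of (LSA k) (LSM k)) x (Ext.eq_zero_of_projective _) (n₀ := 0) rfl
    obtain ⟨f, rfl⟩ := (Ext.mk₀_bijective _ _).2 x₁
    obtain ⟨g, hg⟩ := extends_hom f.hom
    have hf : f = (cover (k := k)).shortComplexKer.f ≫ ModuleCat.ofHom g := by
      exact ModuleCat.hom_ext (LinearMap.ext fun x => (hg x).symm)
    rw [← hx₁, hf, ← Ext.mk₀_comp_mk₀, ← Ext.comp_assoc_of_second_deg_zero,
      hS.extClass_comp, Ext.zero_comp]
  rw [main x, main y]

end LSM

end Pool.Agent.W584
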