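import Mathlib

/-!
# The ring `ℤ[1/11]` is a Euclidean domain
-/

namespace Pool.Agent.W584

/-- The ring `ℤ[1/11]`. -/
abbrev Z11 : Type := Localization.Away (11 : ℤ)

theorem powers_le : Submonoid.powers (11 : ℤ) ≤ nonZeroDivisors ℤ :=
  powers_le_nonZeroDivisors_of_noZeroDivisors (by norm_num)

instance instDomZ11 : IsDomain Z11 := IsLocalization.isDomain_localization powers_le

theorem cast_inj {a b : ℤ} (h : (a : Z11) = (b : Z11)) : a = b := by
  have hinj : Function.Injective (algebraMap ℤ Z11) :=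
    IsLocalization.injective Z11 powers_le
  apply hinj
  simpa using h

instance instCharZeroZ11 : CharZero Z11 := by
  constructor
  intro a b h
  have : ((a : ℤ) : Z11) = ((b : ℤ) : Z11) := by simpa using h
  exact_mod_cast cast_inj this

theorem isUnit_eleven : IsUnit (11 : Z11) := by
  have := IsLocalization.Away.algebraMap_isUnit (S := Z11) (11 : ℤ)
  simpa using this

theorem exists_num (x : Z11) : ∃ (n : ℤ) (k : ℕ), x * 11 ^ k = (n : Z11) := by
  obtain ⟨n, k, h⟩ := IsLocalization.Away.surj (11 : ℤ) x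
  refine ⟨k, n, ?_⟩
  simpa using h

/-- The Euclidean norm: the least positive integer in the ideal generated by `x`. -/
noncomputable def nrmZ (x : Z11) : ℕ := sInf {m : ℕ | 0 < m ∧ ∃ y : Z11, (m : Z11) = x * y}

theorem nrmZ_zero : nrmZ 0 = 0 := by
  unfold nrmZ
  have : {m : ℕ | 0 < m ∧ ∃ y : Z11, (m : Z11) = 0 * y} = ∅ := by
    ext m
    simp only [zero_mul, exists_const, Set.mem_ofPred_eq, Set.mem_empty_iff_false, iff_false,
      not_and]
    intro hm h
    exact hm.ne' (by exact_mod_cast h)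
  rw [this, Nat.sInf_empty]

theorem nrmZ_spec {x : Z11} (hx : x ≠ 0) :
    0 < nrmZ x ∧ ∃ y : Z11, (nrmZ x : Z11) = x * y := by
  have hne : {m : ℕ | 0 < m ∧ ∃ y : Z11, (m : Z11) = x * y}.Nonempty := by
    obtain ⟨n, k, h⟩ := exists_num x
    have hn : n ≠ 0 := by
      rintro rfl
      have h2 : (11 : Z11) ^ k ≠ 0 := pow_ne_zero _ isUnit_eleven.ne_zero
      have : x * 11 ^ k = 0 := by simpa using h
      exact (mul_ne_zero hx h2) this
    refine ⟨n.natAbs, Int.natAbs_pos.2 hn, ?_⟩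
    rcases Int.natAbs_eq n with h1 | h1
    · refine ⟨11 ^ k, ?_⟩
      rw [h, h1]
      simp
    · refine ⟨-(11 ^ k), ?_⟩
      have h5 : ((n.natAbs : ℤ) : Z11) = -(n : Z11) := by
        have : (n.natAbs : ℤ) = -n := by omega
        rw [this]
        push_cast
        rfl
      have h6 : (n.natAbs : Z11) = -(n : Z11) := by
        rw [← h5]; exact (Int.cast_natCast _).symm
      rw [h6, ← h]
      ring
  exact Nat.sInf_mem hne

theorem nrmZ_le {x : Z11} {m : ℕ} (hm : 0 < m) {y : Z11} (h : (m : Z11) = x * y) :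
    nrmZ x ≤ m := Nat.sInf_le ⟨hm, y, h⟩

theorem exists_div (a : Z11) {b : Z11} (hb : b ≠ 0) :
    ∃ q r : Z11, b * q + r = a ∧ nrmZ r < nrmZ b := by
  obtain ⟨hm, y, hy⟩ := nrmZ_spec hb
  obtain ⟨n, k, hn⟩ := exists_num a
  obtain ⟨u, hu⟩ := isUnit_eleven
  have huk : (11 : Z11) ^ k * ((u⁻¹ : Z11ˣ) : Z11) ^ k = 1 := by
    rw [← hu, ← mul_pow, Units.mul_inv, one_pow]
  set m := nrmZ b with hmdef
  refine ⟨y * ((n / (m : ℤ) : ℤ) : Z11) * ((u⁻¹ : Z11ˣ) : Z11) ^ k,
    ((n % (m : ℤ) : ℤ) : Z11) * ((u⁻¹ : Z11ˣ) : Z11) ^ k, ?_, ?_⟩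
  · have h1 : ((m : ℤ) * (n / (m : ℤ)) + n % (m : ℤ) : ℤ) = n := Int.mul_ediv_add_emod n m
    have h2 : (m : Z11) * ((n / (m : ℤ) : ℤ) : Z11) + ((n % (m : ℤ) : ℤ) : Z11) = (n : Z11) := by
      exact_mod_cast congrArg (Int.cast : ℤ → Z11) h1
    have h3 : b * (y * ((n / (m : ℤ) : ℤ) : Z11) * ((u⁻¹ : Z11ˣ) : Z11) ^ k) +
        ((n % (m : ℤ) : ℤ) : Z11) * ((u⁻¹ : Z11ˣ) : Z11) ^ k =
        ((b * y) * ((n / (m : ℤ) : ℤ) : Z11) + ((n % (m : ℤ) : ℤ) : Z11)) *
          ((u⁻¹ : Z11ˣ) : Z11) ^ k := by ring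
    rw [h3, ← hy, h2, ← hn, mul_assoc, huk, mul_one]
  · have hr0 : 0 ≤ n % (m : ℤ) := Int.emod_nonneg _ (by omega)
    have hr1 : n % (m : ℤ) < m := Int.emod_lt_of_pos _ (by omega)
    obtain ⟨r, hr⟩ := Int.eq_ofNat_of_zero_le hr0
    rw [hr] at hr1 ⊢
    rcases Nat.eq_zero_or_pos r with rfl | hrpos
    · simp only [Nat.cast_zero, Int.cast_zero, zero_mul, nrmZ_zero]
      exact hm
    · have hle : nrmZ (((r : ℤ) : Z11) * ((u⁻¹ : Z11ˣ) : Z11) ^ k) ≤ r := by
        apply nrmZ_le hrpos (y := 11 ^ k)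
        have h4 : ((r : ℤ) : Z11) * ((u⁻¹ : Z11ˣ) : Z11) ^ k * 11 ^ k =
          ((r : ℤ) : Z11) * (11 ^ k * ((u⁻¹ : Z11ˣ) : Z11) ^ k) := by ring
        rw [h4, huk, mul_one]
        simp
      have : r < m := by exact_mod_cast hr1
      omega

open Classical in
/-- The Euclidean domain structure on `ℤ[1/11]`. -/
@[instance_reducible]
noncomputable def euclideanZ11 : EuclideanDomain Z11 :=
  { (inferInstance : CommRing Z11), (inferInstance : Nontrivial Z11) with
    quotient := fun a b => if hb : b = 0 then 0 else (exists_div a hb).choose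
    quotient_zero := fun a => by simp
    remainder := fun a b => if hb : b = 0 then a else (exists_div a hb).choose_spec.choose
    quotient_mul_add_remainder_eq := fun a b => by
      by_cases hb : b = 0
      · simp [hb]
      · simp only [hb, dite_false]
        exact (exists_div a hb).choose_spec.choose_spec.1
    r := fun x y => nrmZ x < nrmZ y
    r_wellFounded := (measure nrmZ).wf
    remainder_lt := fun a b hb => by
      simp only [hb, dite_false]
      exact (exists_div a hb).choose_spec.choose_spec.2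
    mul_left_not_lt := fun a b hb => by
      intro h
      have ha : a ≠ 0 := by
        rintro rfl
        rw [zero_mul] at h
        exact lt_irrefl _ h
      obtain ⟨hm, y, hy⟩ := nrmZ_spec (mul_ne_zero ha hb)
      have : nrmZ a ≤ nrmZ (a * b) := nrmZ_le hm (y := b * y) (by rw [hy]; ring)
      omega }

/-- The properties of the ring `ℤ[1/11]` which are used. -/
structure IsZ11 (R : Type*) [CommRing R] : Prop where
  inj : ∀ {a b : ℤ}, (a : R) = (b : R) → a = b
  unit : IsUnit (11 : R)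
  num : ∀ x : R, ∃ (n : ℤ) (k : ℕ), x * 11 ^ k = (n : R)

theorem isZ11_Z11 : IsZ11 Z11 := ⟨cast_inj, isUnit_eleven, exists_num⟩

theorem isZ11_euclidean : @IsZ11 Z11 euclideanZ11.toCommRing := isZ11_Z11

theorem IsZ11.isUnit_cast {R : Type*} [CommRing R] (H : IsZ11 R) {n : ℤ}
    (h : IsUnit (n : R)) : ∃ k : ℕ, n = 11 ^ k ∨ n = -11 ^ k := by
  obtain ⟨u, hu⟩ := h
  obtain ⟨m, k, hm⟩ := H.num ((u⁻¹ : Rˣ) : R)
  have h1 : ((n * m : ℤ) : R) = ((11 ^ k : ℤ) : R) := by
    push_cast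
    rw [← hm, ← hu, ← mul_assoc, Units.mul_inv, one_mul]
  have h2 : n * m = 11 ^ k := H.inj h1
  have h3 : n.natAbs ∣ 11 ^ k := by
    have : (n * m).natAbs = 11 ^ k := by rw [h2, Int.natAbs_pow]; rfl
    rw [← this, Int.natAbs_mul]
    exact Dvd.intro _ rfl
  obtain ⟨i, -, hi⟩ := (Nat.dvd_prime_pow (by norm_num : Nat.Prime 11)).1 h3
  refine ⟨i, ?_⟩
  have := Int.natAbs_eq n
  rw [hi] at this
  push_cast at this
  exact this

end Pool.Agent.W584
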