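import Pool.Agent.W584.Matrix
import Pool.Agent.W584.Ring

/-!
# The symbol on pairs of complementary lines of `ℤ[1/11]²`
-/

set_option linter.unusedSectionVars false

namespace Pool.Agent.W584

open Submodule

variable {R : Type*} [CommRing R] [IsDomain R]

/-- An integer vector as an element of `R²`. -/
def vec (R : Type*) [CommRing R] (w : ℤ × ℤ) : Fin 2 → R := ![(w.1 : R), (w.2 : R)]

/-- A rank one direct summand of `R²`. -/
def IsLine (L : Submodule R (Fin 2 → R)) : Prop := L ≠ ⊥ ∧ L ≠ ⊤ ∧ ∃ L', IsCompl L L'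

omit [IsDomain R] in
theorem vec_zero (w : ℤ × ℤ) : vec R w 0 = (w.1 : R) := rfl

omit [IsDomain R] in
theorem vec_one (w : ℤ × ℤ) : vec R w 1 = (w.2 : R) := rfl

omit [IsDomain R] in
theorem ext2 {x y : Fin 2 → R} (h0 : x 0 = y 0) (h1 : x 1 = y 1) : x = y := by
  funext i
  fin_cases i
  · exact h0
  · exact h1

theorem sat {M : Type*} [AddCommGroup M] [Module R M] [Module.IsTorsionFree R M]
    {L L' : Submodule R M} (h : IsCompl L L') {g : R} (hg : g ≠ 0)
    {x : M} (hx : g • x ∈ L) : x ∈ L := by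
  have hx' : x ∈ L ⊔ L' := by rw [h.sup_eq_top]; trivial
  obtain ⟨l, hl, l', hl', rfl⟩ := Submodule.mem_sup.1 hx'
  have h1 : g • l' ∈ L := by
    have : g • l' = g • (l + l') - g • l := by rw [smul_add]; abel
    rw [this]
    exact L.sub_mem hx (L.smul_mem g hl)
  have h2 : g • l' ∈ L ⊓ L' := ⟨h1, L'.smul_mem g hl'⟩
  rw [h.inf_eq_bot, Submodule.mem_bot, smul_eq_zero] at h2
  rcases h2 with h2 | h2
  · exact absurd h2 hg
  · rw [h2, add_zero]; exact hl

omit [IsDomain R] in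
theorem exists_basis_partner {w : ℤ × ℤ} (hw : Prim w) :
    ∃ w' : ℤ × ℤ, det2 w w' = 1 ∧
      ∀ x : Fin 2 → R, ∃ α β : R, x = α • vec R w + β • vec R w' := by
  obtain ⟨r, t, h⟩ := hw
  refine ⟨(-t, r), by unfold det2; simp only; linear_combination h, fun x => ?_⟩
  have hR : (r : R) * w.1 + t * w.2 = 1 := by exact_mod_cast congrArg (Int.cast : ℤ → R) h
  refine ⟨(r : R) * x 0 + t * x 1, (w.1 : R) * x 1 - w.2 * x 0, ?_⟩
  apply ext2
  · simp only [Pi.add_apply, Pi.smul_apply, vec_zero, smul_eq_mul, Int.cast_neg]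
    linear_combination (-(x 0)) * hR
  · simp only [Pi.add_apply, Pi.smul_apply, vec_one, smul_eq_mul]
    linear_combination (-(x 1)) * hR

theorem exists_gen (H : IsZ11 R) {L : Submodule R (Fin 2 → R)} (hL : IsLine L) :
    ∃ w : ℤ × ℤ, Prim w ∧ L = span R {vec R w} := by
  obtain ⟨hbot, htop, L', hc⟩ := hL
  obtain ⟨v, hv, hv0⟩ := L.exists_mem_ne_zero_of_ne_bot hbot
  obtain ⟨n0, k0, h0⟩ := H.num (v 0)
  obtain ⟨n1, k1, h1⟩ := H.num (v 1)
  have h11 : (11 : R) ≠ 0 := H.unit.ne_zero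
  have e1 : (11 : R) ^ (k0 + k1) • v = vec R (n0 * 11 ^ k1, n1 * 11 ^ k0) := by
    apply ext2
    · simp only [Pi.smul_apply, smul_eq_mul, vec_zero]
      push_cast
      rw [← h0, pow_add]; ring
    · simp only [Pi.smul_apply, smul_eq_mul, vec_one]
      push_cast
      rw [← h1, pow_add]; ring
  have hw0 : ((n0 * 11 ^ k1, n1 * 11 ^ k0) : ℤ × ℤ) ≠ 0 := by
    intro h
    rw [h] at e1
    have : vec R 0 = 0 := by
      apply ext2 <;> simp [vec]
    rw [this, smul_eq_zero] at e1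
    rcases e1 with e1 | e1
    · exact pow_ne_zero _ h11 e1
    · exact hv0 e1
  obtain ⟨g, hg, w, hw, hgw⟩ := exists_prim hw0
  have hwL : vec R w ∈ L := by
    have hgR : (g : R) ≠ 0 := by
      intro h
      have : g = 0 := H.inj (by simpa using h)
      omega
    apply sat hc hgR
    have : (g : R) • vec R w = vec R (n0 * 11 ^ k1, n1 * 11 ^ k0) := by
      rw [hgw]
      apply ext2 <;> simp [vec]
    rw [this, ← e1]
    exact L.smul_mem _ hv
  refine ⟨w, hw, ?_⟩
  obtain ⟨w', -, hw'⟩ := exists_basis_partner (R := R) hw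
  apply le_antisymm
  · intro x hx
    obtain ⟨α, β, hxab⟩ := hw' x
    by_cases hβ : β = 0
    · rw [hxab, hβ, zero_smul, add_zero]
      exact Submodule.smul_mem _ _ (mem_span_singleton_self _)
    · exfalso
      apply htop
      have h2 : β • vec R w' ∈ L := by
        have : β • vec R w' = x - α • vec R w := by rw [hxab]; abel
        rw [this]
        exact L.sub_mem hx (L.smul_mem _ hwL)
      have h3 := sat hc hβ h2
      rw [eq_top_iff]
      intro y _
      obtain ⟨α, β, hy⟩ := hw' y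
      rw [hy]
      exact L.add_mem (L.smul_mem _ hwL) (L.smul_mem _ h3)
  · rw [span_singleton_le_iff_mem]
    exact hwL

omit [IsDomain R] in
theorem det_unit {u v : ℤ × ℤ} (h : span R {vec R u} ⊔ span R {vec R v} = ⊤) :
    IsUnit ((det2 u v : ℤ) : R) := by
  have h1 : (![1, 0] : Fin 2 → R) ∈ span R {vec R u} ⊔ span R {vec R v} := by rw [h]; trivial
  have h2 : (![0, 1] : Fin 2 → R) ∈ span R {vec R u} ⊔ span R {vec R v} := by rw [h]; trivial
  obtain ⟨a, ha, b, hb, hab⟩ := Submodule.mem_sup.1 h1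
  obtain ⟨c, hc, d, hd, hcd⟩ := Submodule.mem_sup.1 h2
  obtain ⟨x, rfl⟩ := Submodule.mem_span_singleton.1 ha
  obtain ⟨y, rfl⟩ := Submodule.mem_span_singleton.1 hb
  obtain ⟨z, rfl⟩ := Submodule.mem_span_singleton.1 hc
  obtain ⟨t, rfl⟩ := Submodule.mem_span_singleton.1 hd
  have e1 : x * (u.1 : R) + y * v.1 = 1 := by simpa [vec] using congrFun hab 0
  have e2 : x * (u.2 : R) + y * v.2 = 0 := by simpa [vec] using congrFun hab 1
  have e3 : z * (u.1 : R) + t * v.1 = 0 := by simpa [vec] using congrFun hcd 0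
  have e4 : z * (u.2 : R) + t * v.2 = 1 := by simpa [vec] using congrFun hcd 1
  apply IsUnit.of_mul_eq_one (x * t - y * z)
  unfold det2
  push_cast
  have : ((u.1 : R) * v.2 - v.1 * u.2) * (x * t - y * z) =
    (x * (u.1 : R) + y * v.1) * (z * (u.2 : R) + t * v.2) -
      (x * (u.2 : R) + y * v.2) * (z * (u.1 : R) + t * v.1) := by ring
  rw [this, e1, e2, e3, e4]
  ring

omit [IsDomain R] in
theorem compl11_of_isCompl (H : IsZ11 R) {u v : ℤ × ℤ} (hu : Prim u) (hv : Prim v)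
    (h : IsCompl (span R {vec R u}) (span R {vec R v})) : Compl11 u v :=
  ⟨hu, hv, H.isUnit_cast (det_unit h.sup_eq_top)⟩

omit [IsDomain R] in
theorem sup_of_unit {u v : ℤ × ℤ} (h : IsUnit ((det2 u v : ℤ) : R)) :
    span R {vec R u} ⊔ span R {vec R v} = ⊤ := by
  obtain ⟨δ, hδ⟩ := h
  have hδ' : (u.1 : R) * v.2 - v.1 * u.2 = δ := by rw [hδ]; unfold det2; push_cast; rfl
  have hinv : (δ : R) * ((δ⁻¹ : Rˣ) : R) = 1 := Units.mul_inv δ
  rw [eq_top_iff]
  intro x _
  rw [Submodule.mem_sup]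
  refine ⟨(((δ⁻¹ : Rˣ) : R) * (v.2 * x 0 - v.1 * x 1)) • vec R u,
    Submodule.smul_mem _ _ (mem_span_singleton_self _),
    (((δ⁻¹ : Rˣ) : R) * (u.1 * x 1 - u.2 * x 0)) • vec R v,
    Submodule.smul_mem _ _ (mem_span_singleton_self _), ?_⟩
  apply ext2
  · simp only [Pi.add_apply, Pi.smul_apply, vec_zero, smul_eq_mul]
    linear_combination (((δ⁻¹ : Rˣ) : R) * x 0) * hδ' + (x 0) * hinv
  · simp only [Pi.add_apply, Pi.smul_apply, vec_one, smul_eq_mul]
    linear_combination (((δ⁻¹ : Rˣ) : R) * x 1) * hδ' + (x 1) * hinv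

omit [IsDomain R] in
theorem isUnit_det (H : IsZ11 R) {u v : ℤ × ℤ} (h : Compl11 u v) :
    IsUnit ((det2 u v : ℤ) : R) := by
  obtain ⟨-, -, k, hk⟩ := h
  rcases hk with hk | hk
  · rw [hk]; push_cast; exact H.unit.pow k
  · rw [hk]; push_cast; exact (H.unit.pow k).neg

omit [IsDomain R] in
theorem isCompl_of_compl11 (H : IsZ11 R) {u v : ℤ × ℤ} (h : Compl11 u v) :
    IsCompl (span R {vec R u}) (span R {vec R v}) := by
  have hdet := isUnit_det H h
  refine IsCompl.of_eq ?_ (sup_of_unit hdet)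
  rw [eq_bot_iff]
  rintro x ⟨hx1, hx2⟩
  obtain ⟨a, rfl⟩ := Submodule.mem_span_singleton.1 hx1
  obtain ⟨b, hb⟩ := Submodule.mem_span_singleton.1 hx2
  have e1 : b * (v.1 : R) = a * u.1 := by simpa [vec] using congrFun hb 0
  have e2 : b * (v.2 : R) = a * u.2 := by simpa [vec] using congrFun hb 1
  have h0 : a * ((det2 u v : ℤ) : R) = 0 := by
    unfold det2
    push_cast
    linear_combination (-(v.2 : R)) * e1 + (v.1 : R) * e2
  have ha : a = 0 := by
    obtain ⟨δ, hδ⟩ := hdet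
    rw [← hδ] at h0
    calc a = a * δ * ((δ⁻¹ : Rˣ) : R) := by rw [mul_assoc, Units.mul_inv, mul_one]
      _ = 0 := by rw [h0, zero_mul]
  simp [ha]

theorem eq_or_neg_of_det {u v : ℤ × ℤ} (hu : Prim u) (hv : Prim v) (h : det2 u v = 0) :
    v = u ∨ v = -u := by
  obtain ⟨r, t, hrt⟩ := hu
  unfold det2 at h
  set c := r * v.1 + t * v.2 with hc
  have e1 : v.1 = c * u.1 := by rw [hc]; linear_combination (-(v.1)) * hrt + (-t) * h
  have e2 : v.2 = c * u.2 := by rw [hc]; linear_combination (-(v.2)) * hrt + (r) * h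
  have hcu : IsUnit c := by
    apply hv.isUnit_of_dvd'
    · exact ⟨u.1, e1⟩
    · exact ⟨u.2, e2⟩
  rcases Int.isUnit_iff.1 hcu with h1 | h1
  · left
    apply Prod.ext
    · rw [e1, h1, one_mul]
    · rw [e2, h1, one_mul]
  · right
    apply Prod.ext
    · rw [e1, h1]; simp
    · rw [e2, h1]; simp

omit [IsDomain R] in
theorem det_eq_zero_of_mem (H : IsZ11 R) {u v : ℤ × ℤ} (h : vec R v ∈ span R {vec R u}) :
    det2 u v = 0 := by
  obtain ⟨a, ha⟩ := Submodule.mem_span_singleton.1 h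
  have e1 : a * (u.1 : R) = v.1 := by simpa [vec] using congrFun ha 0
  have e2 : a * (u.2 : R) = v.2 := by simpa [vec] using congrFun ha 1
  apply H.inj
  unfold det2
  push_cast
  linear_combination (u.2 : R) * e1 - (u.1 : R) * e2

omit [IsDomain R] in
theorem gen_unique (H : IsZ11 R) {u v : ℤ × ℤ} (hu : Prim u) (hv : Prim v)
    (h : span R {vec R u} = span R {vec R v}) : v = u ∨ v = -u := by
  apply eq_or_neg_of_det hu hv
  apply det_eq_zero_of_mem H
  rw [h]
  exact mem_span_singleton_self _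

open Classical in
/-- A primitive integer generator of a line. -/
noncomputable def gen (L : Submodule R (Fin 2 → R)) : ℤ × ℤ :=
  if h : ∃ w : ℤ × ℤ, Prim w ∧ L = span R {vec R w} then h.choose else (1, 0)

omit [IsDomain R] in
theorem gen_spec {L : Submodule R (Fin 2 → R)} (h : ∃ w : ℤ × ℤ, Prim w ∧ L = span R {vec R w}) :
    Prim (gen L) ∧ L = span R {vec R (gen L)} := by
  unfold gen
  rw [dif_pos h]
  exact h.choose_spec

omit [IsDomain R] in
theorem gen_span (H : IsZ11 R) {u : ℤ × ℤ} (hu : Prim u) :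
    gen (span R {vec R u}) = u ∨ gen (span R {vec R u}) = -u := by
  obtain ⟨h1, h2⟩ := gen_spec (L := span R {vec R u}) ⟨u, hu, rfl⟩
  exact gen_unique H hu h1 h2

theorem phi_pm {u v u' v' : ℤ × ℤ} (h : Compl11 u v) (hu : u' = u ∨ u' = -u)
    (hv : v' = v ∨ v' = -v) : Compl11 u' v' ∧ phi u' v' = phi u v := by
  have negl : ∀ {a b : ℤ × ℤ}, Compl11 a b → Compl11 (-a) b := by
    intro a b h
    obtain ⟨ha, hb, k, hk⟩ := h
    refine ⟨IsCoprime.neg_neg ha, hb, k, ?_⟩
    have e : det2 (-a) b = - det2 a b := by unfold det2; simp; ring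
    rw [e]
    rcases hk with hk | hk <;> rw [hk] <;> simp
  have negr : ∀ {a b : ℤ × ℤ}, Compl11 a b → Compl11 a (-b) := by
    intro a b h
    obtain ⟨ha, hb, k, hk⟩ := h
    refine ⟨ha, IsCoprime.neg_neg hb, k, ?_⟩
    have e : det2 a (-b) = - det2 a b := by unfold det2; simp; ring
    rw [e]
    rcases hk with hk | hk <;> rw [hk] <;> simp
  rcases hu with rfl | rfl <;> rcases hv with rfl | rfl
  · exact ⟨h, rfl⟩
  · exact ⟨negr h, phi_neg_right h⟩
  · exact ⟨negl h, phi_neg_left h⟩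
  · exact ⟨negl (negr h), (phi_neg_left (negr h)).trans (phi_neg_right h)⟩

theorem compl11_symm {u v : ℤ × ℤ} (h : Compl11 u v) : Compl11 v u := by
  obtain ⟨hu, hv, k, hk⟩ := h
  refine ⟨hv, hu, k, ?_⟩
  have e : det2 v u = - det2 u v := by unfold det2; ring
  rw [e]
  rcases hk with hk | hk <;> rw [hk] <;> simp

/-- The symbol on pairs of submodules. -/
noncomputable def ff (A B : Submodule R (Fin 2 → R)) : ℤ :=
  phi (gen A) (gen B) - phi (gen B) (gen A)

omit [IsDomain R] in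
theorem ff_antisymm (A B : Submodule R (Fin 2 → R)) : ff A B = - ff B A := by
  unfold ff; ring

omit [IsDomain R] in
theorem ff_span (H : IsZ11 R) {u v : ℤ × ℤ} (h : Compl11 u v) :
    ff (span R {vec R u}) (span R {vec R v}) = phi u v - phi v u := by
  unfold ff
  have h1 := gen_span H h.1
  have h2 := gen_span H h.2.1
  rw [(phi_pm h h1 h2).2, (phi_pm (compl11_symm h) h2 h1).2]

/-- The matrix of a linear automorphism, up to scaling. -/
theorem exists_matrix (H : IsZ11 R) (e : (Fin 2 → R) ≃ₗ[R] (Fin 2 → R)) :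
    ∃ (n : ℕ) (p q r s : ℤ), (p * s - q * r = 11 ^ n ∨ p * s - q * r = -11 ^ n) ∧
      ∃ k : ℕ, ∀ w : ℤ × ℤ, (11 : R) ^ k • e (vec R w) = vec R (mulv p q r s w) := by
  have hscale : ∀ x : Fin 2 → R, ∃ k : ℕ, ∀ j : ℕ, k ≤ j → ∃ w : ℤ × ℤ,
      (11 : R) ^ j • x = vec R w := by
    intro x
    obtain ⟨n0, k0, h0⟩ := H.num (x 0)
    obtain ⟨n1, k1, h1⟩ := H.num (x 1)
    refine ⟨k0 + k1, fun j hj => ?_⟩
    obtain ⟨i, rfl⟩ := Nat.exists_eq_add_of_le hj
    refine ⟨(n0 * 11 ^ (k1 + i), n1 * 11 ^ (k0 + i)), ?_⟩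
    apply ext2
    · simp only [Pi.smul_apply, smul_eq_mul, vec_zero]
      push_cast
      rw [← h0, pow_add, pow_add, pow_add]; ring
    · simp only [Pi.smul_apply, smul_eq_mul, vec_one]
      push_cast
      rw [← h1, pow_add, pow_add, pow_add]; ring
  obtain ⟨k0, hk0⟩ := hscale (e ![1, 0])
  obtain ⟨k1, hk1⟩ := hscale (e ![0, 1])
  obtain ⟨⟨p, r⟩, hpr⟩ := hk0 (k0 + k1) (by omega)
  obtain ⟨⟨q, s⟩, hqs⟩ := hk1 (k0 + k1) (by omega)
  have hdec : ∀ x : Fin 2 → R, x = x 0 • (![1, 0] : Fin 2 → R) + x 1 • (![0, 1] : Fin 2 → R) := by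
    intro x
    apply ext2 <;> simp
  have hall : ∀ x : Fin 2 → R, (11 : R) ^ (k0 + k1) • e x =
      x 0 • vec R (p, r) + x 1 • vec R (q, s) := by
    intro x
    conv_lhs => rw [hdec x]
    rw [map_add, map_smul, map_smul, smul_add, smul_comm _ (x 0), smul_comm _ (x 1), hpr, hqs]
  have hw : ∀ w : ℤ × ℤ, (11 : R) ^ (k0 + k1) • e (vec R w) = vec R (mulv p q r s w) := by
    intro w
    rw [hall]
    apply ext2
    · simp only [Pi.add_apply, Pi.smul_apply, vec_zero, vec_one, smul_eq_mul, mulv]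
      push_cast; ring
    · simp only [Pi.add_apply, Pi.smul_apply, vec_zero, vec_one, smul_eq_mul, mulv]
      push_cast; ring
  -- the determinant is a unit
  have hunit : IsUnit ((det2 (p, r) (q, s) : ℤ) : R) := by
    apply det_unit
    rw [eq_top_iff]
    intro y _
    obtain ⟨δ, hδ⟩ := H.unit.pow (k0 + k1)
    have hx := hall (e.symm (((δ⁻¹ : Rˣ) : R) • y))
    rw [LinearEquiv.apply_symm_apply, ← hδ, smul_smul, Units.mul_inv, one_smul] at hx
    rw [hx]
    exact Submodule.mem_sup.2 ⟨_, Submodule.smul_mem _ _ (mem_span_singleton_self _), _,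
      Submodule.smul_mem _ _ (mem_span_singleton_self _), rfl⟩
  obtain ⟨n, hn⟩ := H.isUnit_cast hunit
  refine ⟨n, p, q, r, s, ?_, k0 + k1, hw⟩
  simpa only [det2] using hn

theorem map_span_vec (H : IsZ11 R) (e : (Fin 2 → R) ≃ₗ[R] (Fin 2 → R)) {n : ℕ} {p q r s : ℤ}
    (hdet : p * s - q * r = 11 ^ n ∨ p * s - q * r = -11 ^ n) {k : ℕ}
    (hw : ∀ w : ℤ × ℤ, (11 : R) ^ k • e (vec R w) = vec R (mulv p q r s w))
    {u : ℤ × ℤ} (hu : Prim u) :
    (span R {vec R u}).map (e : (Fin 2 → R) →ₗ[R] (Fin 2 → R)) =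
      span R {vec R (nrm (mulv p q r s u))} ∧ Prim (nrm (mulv p q r s u)) := by
  have hdet0 : p * s - q * r ≠ 0 := by
    have h11 : (11 : ℤ) ^ n ≠ 0 := by positivity
    rcases hdet with h | h <;> rw [h]
    · exact h11
    · exact neg_ne_zero.2 h11
  have hu0 : u ≠ 0 := by
    rintro rfl
    exact not_isCoprime_zero_zero (show IsCoprime (0 : ℤ) 0 from hu)
  obtain ⟨g, hg, w, hwp, hgw⟩ := exists_prim (mulv_ne_zero hdet0 hu0)
  have hnrm : nrm (mulv p q r s u) = w := by rw [hgw]; exact nrm_smul hg hwp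
  rw [hnrm]
  refine ⟨?_, hwp⟩
  -- g is a unit
  have hgunit : IsUnit (g : R) := by
    obtain ⟨u', hu', -⟩ := exists_basis_partner (R := R) hu
    have h1 : det2 (mulv p q r s u) (mulv p q r s u') = p * s - q * r := by
      rw [det2_mulv, hu', mul_one]
    have h2 : g ∣ p * s - q * r := by
      rw [← h1, hgw]
      refine ⟨det2 w (mulv p q r s u'), ?_⟩
      unfold det2
      ring
    have h3 : IsUnit ((p * s - q * r : ℤ) : R) := by
      rcases hdet with h | h
      · rw [h]; push_cast; exact H.unit.pow n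
      · rw [h]; push_cast; exact (H.unit.pow n).neg
    obtain ⟨m, hm⟩ := h2
    rw [hm] at h3
    push_cast at h3
    exact isUnit_of_mul_isUnit_left h3
  have hvec : vec R (mulv p q r s u) = (g : R) • vec R w := by
    rw [hgw]
    apply ext2 <;> simp [vec]
  rw [Submodule.map_span, Set.image_singleton]
  have h1 : span R {vec R w} = span R {(g : R) • vec R w} := by
    obtain ⟨δ, hδ⟩ := hgunit
    rw [← hδ]
    exact (Submodule.span_singleton_group_smul_eq R δ (vec R w)).symm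
  have h2 : span R {e (vec R u)} = span R {(11 : R) ^ k • e (vec R u)} := by
    obtain ⟨δ, hδ⟩ := H.unit.pow k
    rw [← hδ]
    exact (Submodule.span_singleton_group_smul_eq R δ (e (vec R u))).symm
  rw [h1, ← hvec, ← hw u, ← h2]
  rfl

/-- Quasi-invariance of the symbol under linear automorphisms. -/
theorem ff_quasi (H : IsZ11 R) (e : (Fin 2 → R) ≃ₗ[R] (Fin 2 → R)) :
    ∃ h : Submodule R (Fin 2 → R) → ℤ, ∀ A B : Submodule R (Fin 2 → R), IsLine A → IsLine B →
      IsCompl A B → ff (A.map (e : (Fin 2 → R) →ₗ[R] (Fin 2 → R)))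
        (B.map (e : (Fin 2 → R) →ₗ[R] (Fin 2 → R))) - ff A B = h B - h A := by
  obtain ⟨n, p, q, r, s, hdet, k, hw⟩ := exists_matrix H e
  obtain ⟨h, hh⟩ := phi_quasi n p q r s hdet
  refine ⟨fun A => 2 * h (gen A), fun A B hA hB hAB => ?_⟩
  obtain ⟨hpA, hsA⟩ := gen_spec (exists_gen H hA)
  obtain ⟨hpB, hsB⟩ := gen_spec (exists_gen H hB)
  have hC : Compl11 (gen A) (gen B) := by
    apply compl11_of_isCompl H hpA hpB
    rw [← hsA, ← hsB]
    exact hAB
  obtain ⟨mA, -⟩ := map_span_vec H e hdet hw hpA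
  obtain ⟨mB, -⟩ := map_span_vec H e hdet hw hpB
  rw [← hsA] at mA
  rw [← hsB] at mB
  obtain ⟨c1, q1⟩ := hh _ _ hC
  obtain ⟨c2, q2⟩ := hh _ _ (compl11_symm hC)
  rw [mA, mB, ff_span H c1]
  unfold ff
  linarith

end Pool.Agent.W584
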