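import Pool.Agent.W584.Cocycle

/-!
# The octahedral cycle
-/

set_option linter.unusedSectionVars false

namespace Pool.Agent.W584

open Submodule

variable {R : Type*} [CommRing R] [IsDomain R]

/-- An integer vector of length three. -/
def v3 (R : Type*) [CommRing R] (a b c : ℤ) : V3 R := ![(a : R), (b : R), (c : R)]

/-- The line of an integer vector. -/
def l3 (R : Type*) [CommRing R] (a b c : ℤ) : Submodule R (V3 R) := span R {v3 R a b c}

/-- The comparison of `ell` with an explicit projection. -/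
theorem exists_compare (H : IsZ11 R) {W : Submodule R (V3 R)} (hnP : ¬ IsP W) (hL : IsL W)
    (κ : V3 R →ₗ[R] (Fin 2 → R)) (hs : Function.Surjective κ) (hk : LinearMap.ker κ = W) :
    ∃ h : Submodule R (Fin 2 → R) → ℤ, ∀ X Y : Submodule R (V3 R),
      IsLine (X.map κ) → IsLine (Y.map κ) → IsCompl (X.map κ) (Y.map κ) →
      ff (ell W X) (ell W Y) = ff (X.map κ) (Y.map κ) + h (Y.map κ) - h (X.map κ) := by
  subst hk
  set e : (Fin 2 → R) ≃ₗ[R] (Fin 2 → R) :=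
    (κ.quotKerEquivOfSurjective hs).symm ≪≫ₗ hL.some with he
  obtain ⟨h, hh⟩ := ff_quasi H e
  refine ⟨h, fun X Y hX hY hXY => ?_⟩
  have hell : ∀ U : Submodule R (V3 R), ell (LinearMap.ker κ) U =
      (U.map κ).map (e : (Fin 2 → R) →ₗ[R] (Fin 2 → R)) := by
    intro U
    unfold ell
    rw [dif_neg hnP, dif_pos hL, ← Submodule.map_comp]
    congr 1
    apply LinearMap.ext
    intro x
    change hL.some ((LinearMap.ker κ).mkQ x) =
      hL.some ((κ.quotKerEquivOfSurjective hs).symm (κ x))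
    congr 1
    symm
    rw [LinearEquiv.symm_apply_eq]
    rfl
  have := hh _ _ hX hY hXY
  rw [← hell, ← hell] at this
  linarith

theorem exists_basis {p q r : V3 R}
    (hdet : IsUnit (Matrix.det !![p 0, q 0, r 0; p 1, q 1, r 1; p 2, q 2, r 2])) :
    ∃ b : Module.Basis (Fin 3) R (V3 R), b 0 = p ∧ b 1 = q ∧ b 2 = r := by
  have h := (Module.Basis.is_basis_iff_det (Pi.basisFun R (Fin 3)) (v := ![p, q, r])).2 (by
    rw [Module.Basis.det_apply]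
    convert hdet using 2
    ext i j
    fin_cases i <;> fin_cases j <;> simp [Module.Basis.toMatrix])
  refine ⟨Module.Basis.mk h.1 h.2.ge, ?_, ?_, ?_⟩ <;> simp

theorem exists_basis_int {a1 a2 a3 b1 b2 b3 c1 c2 c3 : ℤ}
    (hdet : IsUnit ((a1 * (b2 * c3 - b3 * c2) - b1 * (a2 * c3 - a3 * c2) +
      c1 * (a2 * b3 - a3 * b2) : ℤ) : R)) :
    ∃ b : Module.Basis (Fin 3) R (V3 R), b 0 = v3 R a1 a2 a3 ∧ b 1 = v3 R b1 b2 b3 ∧
      b 2 = v3 R c1 c2 c3 := by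
  apply exists_basis
  convert hdet using 1
  rw [Matrix.det_fin_three]
  simp only [v3, Matrix.of_apply, Matrix.cons_val]
  push_cast
  ring

/-- The facts on three independent lines. -/
theorem three_lines {a1 a2 a3 b1 b2 b3 c1 c2 c3 : ℤ}
    (hdet : IsUnit ((a1 * (b2 * c3 - b3 * c2) - b1 * (a2 * c3 - a3 * c2) +
      c1 * (a2 * b3 - a3 * b2) : ℤ) : R)) :
    ∃ b : Module.Basis (Fin 3) R (V3 R), l3 R a1 a2 a3 = S b {0} ∧ l3 R b1 b2 b3 = S b {1} ∧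
      l3 R c1 c2 c3 = S b {2} := by
  obtain ⟨b, h0, h1, h2⟩ := exists_basis_int hdet
  refine ⟨b, ?_, ?_, ?_⟩
  · rw [S_singleton, h0]; rfl
  · rw [S_singleton, h1]; rfl
  · rw [S_singleton, h2]; rfl

theorem cc_of_lines {b : Module.Basis (Fin 3) R (V3 R)} {i j k : Fin 3}
    (hij : i ≠ j) (hik : i ≠ k) (hjk : j ≠ k) :
    cc (S b {i}) (S b {j}) (S b {k}) = ff (ell (S b {i}) (S b {j})) (ell (S b {i}) (S b {k})) := by
  have h1 : ¬ IsCompl (S b {i}) (S b {j}) :=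
    not_isCompl_of_notMem b (i := k) (by simpa using hik.symm) (by simpa using hjk.symm)
  have h2 : ¬ IsCompl (S b {i}) (S b {k}) :=
    not_isCompl_of_notMem b (i := j) (by simpa using hij.symm) (by simpa using hjk)
  unfold cc
  rw [if_neg h1, if_neg h2]

/-- The corner term of three independent lines. -/
theorem cc_lines {a1 a2 a3 b1 b2 b3 c1 c2 c3 : ℤ}
    (hdet : IsUnit ((a1 * (b2 * c3 - b3 * c2) - b1 * (a2 * c3 - a3 * c2) +
      c1 * (a2 * b3 - a3 * b2) : ℤ) : R)) :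
    cc (l3 R a1 a2 a3) (l3 R b1 b2 b3) (l3 R c1 c2 c3) =
      ff (ell (l3 R a1 a2 a3) (l3 R b1 b2 b3)) (ell (l3 R a1 a2 a3) (l3 R c1 c2 c3)) := by
  obtain ⟨b, h0, h1, h2⟩ := three_lines hdet
  rw [h0, h1, h2]
  exact cc_of_lines (by decide) (by decide) (by decide)

theorem line_props {a1 a2 a3 b1 b2 b3 c1 c2 c3 : ℤ}
    (hdet : IsUnit ((a1 * (b2 * c3 - b3 * c2) - b1 * (a2 * c3 - a3 * c2) +
      c1 * (a2 * b3 - a3 * b2) : ℤ) : R)) :
    ¬ IsP (l3 R a1 a2 a3) ∧ IsL (l3 R a1 a2 a3) := by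
  obtain ⟨b, h0, h1, h2⟩ := three_lines hdet
  rw [h0]
  exact ⟨not_isP_S0 b, isL_S0 b⟩

/-- Evaluation of a closed walk of length four in a link. -/
theorem walk_eval (H : IsZ11 R) {W : Submodule R (V3 R)} (hnP : ¬ IsP W) (hL : IsL W)
    (κ : V3 R →ₗ[R] (Fin 2 → R)) (hs : Function.Surjective κ) (hk : LinearMap.ker κ = W)
    (X1 X2 X3 X4 : Submodule R (V3 R)) (t1 t2 t3 t4 : ℤ × ℤ)
    (e1 : X1.map κ = span R {vec R t1}) (e2 : X2.map κ = span R {vec R t2})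
    (e3 : X3.map κ = span R {vec R t3}) (e4 : X4.map κ = span R {vec R t4})
    (c1 : Compl11 t1 t2) (c2 : Compl11 t2 t3) (c3 : Compl11 t3 t4) (c4 : Compl11 t4 t1) :
    ff (ell W X1) (ell W X2) + ff (ell W X2) (ell W X3) + ff (ell W X3) (ell W X4) +
      ff (ell W X4) (ell W X1) =
    (phi t1 t2 - phi t2 t1) + (phi t2 t3 - phi t3 t2) + (phi t3 t4 - phi t4 t3) +
      (phi t4 t1 - phi t1 t4) := by
  obtain ⟨h, hh⟩ := exists_compare H hnP hL κ hs hk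
  have hline : ∀ {u v : ℤ × ℤ}, Compl11 u v → IsLine (span R {vec R u}) ∧
      IsLine (span R {vec R v}) ∧ IsCompl (span R {vec R u}) (span R {vec R v}) := by
    intro u v huv
    have hc := isCompl_of_compl11 H huv
    have hne : ∀ {w : ℤ × ℤ}, Prim w → span R {vec R w} ≠ ⊥ := by
      intro w hw h0
      rw [span_singleton_eq_bot] at h0
      have h1 : (w.1 : R) = 0 := congrFun h0 0
      have h2 : (w.2 : R) = 0 := congrFun h0 1
      have h3 : w.1 = 0 := H.inj (by simpa using h1)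
      have h4 : w.2 = 0 := H.inj (by simpa using h2)
      unfold Prim at hw
      rw [h3, h4] at hw
      exact not_isCoprime_zero_zero hw
    refine ⟨⟨hne huv.1, ?_, _, hc⟩, ⟨hne huv.2.1, ?_, _, hc.symm⟩, hc⟩
    · intro h0
      rw [h0] at hc
      exact hne huv.2.1 (eq_bot_of_top_isCompl hc)
    · intro h0
      rw [h0] at hc
      exact hne huv.1 (eq_bot_of_isCompl_top hc)
  have q : ∀ {X Y : Submodule R (V3 R)} {s t : ℤ × ℤ}, X.map κ = span R {vec R s} →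
      Y.map κ = span R {vec R t} → Compl11 s t →
      ff (ell W X) (ell W Y) = (phi s t - phi t s) + h (Y.map κ) - h (X.map κ) := by
    intro X Y s t hX hY hst
    obtain ⟨l1, l2, l3⟩ := hline hst
    rw [hh X Y (by rw [hX]; exact l1) (by rw [hY]; exact l2) (by rw [hX, hY]; exact l3),
      hX, hY, ff_span H hst]
  rw [q e1 e2 c1, q e2 e3 c2, q e3 e4 c3, q e4 e1 c4]
  ring

/-- The values of `phi` used. -/
theorem Fp_values : Fp (2, 11) = 2 ∧ Fp (6, 11) = -2 ∧ Fp (-3, 11) = 1 ∧ Fp (-4, 11) = -1 := by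
  refine ⟨?_, ?_, ?_, ?_⟩
  · rw [Fp_eleven (by norm_num)]; decide
  · rw [Fp_eleven (by norm_num)]; decide
  · rw [Fp_eleven (by norm_num)]; decide
  · rw [Fp_eleven (by norm_num)]; decide

theorem phi_eleven {u v : ℤ × ℤ} (hu : Prim u) (hv : Prim v)
    (hdet : det2 u v = 11 ∨ det2 u v = -11) {x : ℤ} (hx : Cong 11 x u v) :
    phi u v = - Fp (x, 11) := by
  rw [phi_eq hu hv (k := 1) (by simpa using hdet) (x := x) (by simpa using hx)]
  simp

/-- The walk `(1, 0), (0, 1), (1, m), (n, 1)` with `1 - m n = -11`. -/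
theorem walk_value {m n : ℤ} (h : 1 - m * n = -11) :
    Compl11 (1, 0) (0, 1) ∧ Compl11 (0, 1) (1, m) ∧ Compl11 (1, m) (n, 1) ∧
    Compl11 (n, 1) (1, 0) ∧
    (phi (1, 0) (0, 1) - phi (0, 1) (1, 0)) + (phi (0, 1) (1, m) - phi (1, m) (0, 1)) +
      (phi (1, m) (n, 1) - phi (n, 1) (1, m)) + (phi (n, 1) (1, 0) - phi (1, 0) (n, 1)) =
      - Fp (n, 11) + Fp (m, 11) := by
  have u1 : det2 (1, 0) (0, 1) = 1 ∨ det2 (1, 0) (0, 1) = -1 := by simp [det2]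
  have u1' : det2 (0, 1) (1, 0) = 1 ∨ det2 (0, 1) (1, 0) = -1 := by simp [det2]
  have u2 : det2 (0, 1) (1, m) = 1 ∨ det2 (0, 1) (1, m) = -1 := by simp [det2]
  have u2' : det2 (1, m) (0, 1) = 1 ∨ det2 (1, m) (0, 1) = -1 := by simp [det2]
  have u4 : det2 (n, 1) (1, 0) = 1 ∨ det2 (n, 1) (1, 0) = -1 := by simp [det2]
  have u4' : det2 (1, 0) (n, 1) = 1 ∨ det2 (1, 0) (n, 1) = -1 := by simp [det2]
  have C1 := compl11_unimod u1
  have C2 := compl11_unimod u2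
  have C4 := compl11_unimod u4
  have p1 : Prim (1, m) := C2.2.1
  have p2 : Prim (n, 1) := C4.1
  have d3 : det2 (1, m) (n, 1) = 11 ∨ det2 (1, m) (n, 1) = -11 := by
    right; simp only [det2]; linarith
  have d3' : det2 (n, 1) (1, m) = 11 ∨ det2 (n, 1) (1, m) = -11 := by
    left; simp only [det2]; linarith
  have C3 : Compl11 (1, m) (n, 1) := ⟨p1, p2, 1, by simpa using d3⟩
  refine ⟨C1, C2, C3, C4, ?_⟩
  have z : ∀ {u v : ℤ × ℤ}, (det2 u v = 1 ∨ det2 u v = -1) → phi u v = 0 := by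
    intro u v huv
    have := compl11_unimod huv
    exact phi_unimod this.1 this.2.1 huv
  rw [z u1, z u1', z u2, z u2', z u4, z u4', phi_eleven p1 p2 d3 (x := n),
    phi_eleven p2 p1 d3' (x := m)]
  · ring
  · refine ⟨⟨-1, ?_⟩, ⟨0, ?_⟩⟩ <;> simp only
    · linarith
    · ring
  · refine ⟨⟨0, ?_⟩, ⟨-1, ?_⟩⟩ <;> simp only
    · ring
    · linarith

/-- The trivial walk `(1, 0), (0, 1), (1, 0), (n, 1)`. -/
theorem walk_trivial (n : ℤ) :
    Compl11 (1, 0) (0, 1) ∧ Compl11 (0, 1) (1, 0) ∧ Compl11 (1, 0) (n, 1) ∧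
    Compl11 (n, 1) (1, 0) ∧
    (phi (1, 0) (0, 1) - phi (0, 1) (1, 0)) + (phi (0, 1) (1, 0) - phi (1, 0) (0, 1)) +
      (phi (1, 0) (n, 1) - phi (n, 1) (1, 0)) + (phi (n, 1) (1, 0) - phi (1, 0) (n, 1)) = 0 := by
  refine ⟨compl11_unimod (by simp [det2]), compl11_unimod (by simp [det2]),
    compl11_unimod (by simp [det2]), compl11_unimod (by simp [det2]), ?_⟩
  ring

/-- First family of projections, with kernel spanned by `(1, 0, t)`. -/
def k1 (R : Type*) [CommRing R] (t : ℤ) : V3 R →ₗ[R] (Fin 2 → R) where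
  toFun x := ![x 1, x 2 - (t : R) * x 0]
  map_add' x y := by apply ext2 <;> simp; ring
  map_smul' a x := by apply ext2 <;> simp; ring

/-- Second family of projections, with kernel spanned by `(t, 1, 0)`. -/
def k2 (R : Type*) [CommRing R] (t : ℤ) : V3 R →ₗ[R] (Fin 2 → R) where
  toFun x := ![x 2, x 0 - (t : R) * x 1]
  map_add' x y := by apply ext2 <;> simp; ring
  map_smul' a x := by apply ext2 <;> simp; ring

/-- Third family of projections, with kernel spanned by `(0, t, 1)`. -/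
def k3 (R : Type*) [CommRing R] (t : ℤ) : V3 R →ₗ[R] (Fin 2 → R) where
  toFun x := ![x 0, x 1 - (t : R) * x 2]
  map_add' x y := by apply ext2 <;> simp; ring
  map_smul' a x := by apply ext2 <;> simp; ring

theorem ext3 {x y : V3 R} (h0 : x 0 = y 0) (h1 : x 1 = y 1) (h2 : x 2 = y 2) : x = y := by
  funext i
  fin_cases i
  · exact h0
  · exact h1
  · exact h2

theorem k1_surj (t : ℤ) : Function.Surjective (k1 R t) := by
  intro y
  refine ⟨![0, y 0, y 1], ?_⟩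
  apply ext2 <;> simp [k1]

theorem k2_surj (t : ℤ) : Function.Surjective (k2 R t) := by
  intro y
  refine ⟨![y 1, 0, y 0], ?_⟩
  apply ext2 <;> simp [k2]

theorem k3_surj (t : ℤ) : Function.Surjective (k3 R t) := by
  intro y
  refine ⟨![y 0, y 1, 0], ?_⟩
  apply ext2 <;> simp [k3]

theorem k1_ker (t : ℤ) : LinearMap.ker (k1 R t) = l3 R 1 0 t := by
  ext x
  rw [LinearMap.mem_ker, l3, Submodule.mem_span_singleton]
  constructor
  · intro h
    have h1 : x 1 = 0 := congrFun h 0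
    have h2 : x 2 - (t : R) * x 0 = 0 := congrFun h 1
    refine ⟨x 0, ext3 ?_ ?_ ?_⟩
    · simp [v3]
    · simp [v3, h1]
    · simp [v3]; linear_combination -h2
  · rintro ⟨a, rfl⟩
    apply ext2 <;> simp [k1, v3]
    ring

theorem k2_ker (t : ℤ) : LinearMap.ker (k2 R t) = l3 R t 1 0 := by
  ext x
  rw [LinearMap.mem_ker, l3, Submodule.mem_span_singleton]
  constructor
  · intro h
    have h1 : x 2 = 0 := congrFun h 0
    have h2 : x 0 - (t : R) * x 1 = 0 := congrFun h 1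
    refine ⟨x 1, ext3 ?_ ?_ ?_⟩
    · simp [v3]; linear_combination -h2
    · simp [v3]
    · simp [v3, h1]
  · rintro ⟨a, rfl⟩
    apply ext2 <;> simp [k2, v3]
    ring

theorem k3_ker (t : ℤ) : LinearMap.ker (k3 R t) = l3 R 0 t 1 := by
  ext x
  rw [LinearMap.mem_ker, l3, Submodule.mem_span_singleton]
  constructor
  · intro h
    have h1 : x 0 = 0 := congrFun h 0
    have h2 : x 1 - (t : R) * x 2 = 0 := congrFun h 1
    refine ⟨x 2, ext3 ?_ ?_ ?_⟩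
    · simp [v3, h1]
    · simp [v3]; linear_combination -h2
    · simp [v3]
  · rintro ⟨a, rfl⟩
    apply ext2 <;> simp [k3, v3]
    ring

theorem map_l3 (κ : V3 R →ₗ[R] (Fin 2 → R)) (a b c : ℤ) {t : ℤ × ℤ}
    (h : κ (v3 R a b c) = vec R t) : (l3 R a b c).map κ = span R {vec R t} := by
  rw [l3, Submodule.map_span, Set.image_singleton, h]

theorem unit_of (H : IsZ11 R) {n : ℤ} (h : n = 1 ∨ n = -1 ∨ n = 11 ∨ n = -11) :
    IsUnit (n : R) := by
  rcases h with rfl | rfl | rfl | rfl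
  · simp
  · simp
  · exact_mod_cast H.unit
  · have := H.unit.neg
    push_cast
    exact this

theorem axis_e1 (H : IsZ11 R) :
    cc (l3 R 1 0 0) (l3 R 0 1 0) (l3 R 0 0 1) + cc (l3 R 1 0 0) (l3 R 0 0 1) (l3 R 2 1 0) +
    cc (l3 R 1 0 0) (l3 R 2 1 0) (l3 R 0 2 1) + cc (l3 R 1 0 0) (l3 R 0 2 1) (l3 R 0 1 0) = 0 := by
  obtain ⟨c1, c2, c3, c4, hv⟩ := walk_trivial 2
  have hW : l3 R 1 0 0 = LinearMap.ker (k1 R 0) := (k1_ker 0).symm
  obtain ⟨hnP, hL⟩ := line_props (R := R) (a1 := 1) (a2 := 0) (a3 := 0) (b1 := 0) (b2 := 1)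
    (b3 := 0) (c1 := 0) (c2 := 0) (c3 := 1) (unit_of H (by norm_num))
  rw [cc_lines (unit_of H (by norm_num)), cc_lines (unit_of H (by norm_num)),
    cc_lines (unit_of H (by norm_num)), cc_lines (unit_of H (by norm_num))]
  rw [walk_eval H hnP hL (k1 R 0) (k1_surj 0) (k1_ker 0) _ _ _ _ (1, 0) (0, 1) (1, 0) (2, 1)
    (map_l3 _ _ _ _ (by apply ext2 <;> simp [k1, v3, vec] <;> norm_num))
    (map_l3 _ _ _ _ (by apply ext2 <;> simp [k1, v3, vec] <;> norm_num))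
    (map_l3 _ _ _ _ (by apply ext2 <;> simp [k1, v3, vec] <;> norm_num))
    (map_l3 _ _ _ _ (by apply ext2 <;> simp [k1, v3, vec] <;> norm_num))
    c1 c2 c3 c4]
  exact hv

theorem axis_f1 (H : IsZ11 R) :
    cc (l3 R 1 0 (-3)) (l3 R 0 1 0) (l3 R 0 0 1) + cc (l3 R 1 0 (-3)) (l3 R 0 0 1) (l3 R 2 1 0) +
    cc (l3 R 1 0 (-3)) (l3 R 2 1 0) (l3 R 0 2 1) + cc (l3 R 1 0 (-3)) (l3 R 0 2 1) (l3 R 0 1 0) = -4 := by
  obtain ⟨c1, c2, c3, c4, hv⟩ := walk_value (m := 6) (n := 2) (by norm_num)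
  have hW : l3 R 1 0 (-3) = LinearMap.ker (k1 R (-3)) := (k1_ker (-3)).symm
  obtain ⟨hnP, hL⟩ := line_props (R := R) (a1 := 1) (a2 := 0) (a3 := -3) (b1 := 0) (b2 := 1)
    (b3 := 0) (c1 := 0) (c2 := 0) (c3 := 1) (unit_of H (by norm_num))
  rw [cc_lines (unit_of H (by norm_num)), cc_lines (unit_of H (by norm_num)),
    cc_lines (unit_of H (by norm_num)), cc_lines (unit_of H (by norm_num))]
  rw [walk_eval H hnP hL (k1 R (-3)) (k1_surj (-3)) (k1_ker (-3)) _ _ _ _ (1, 0) (0, 1) (1, 6) (2, 1)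
    (map_l3 _ _ _ _ (by apply ext2 <;> simp [k1, v3, vec] <;> norm_num))
    (map_l3 _ _ _ _ (by apply ext2 <;> simp [k1, v3, vec] <;> norm_num))
    (map_l3 _ _ _ _ (by apply ext2 <;> simp [k1, v3, vec] <;> norm_num))
    (map_l3 _ _ _ _ (by apply ext2 <;> simp [k1, v3, vec] <;> norm_num))
    c1 c2 c3 c4]
  obtain ⟨F1, F2, F3, F4⟩ := Fp_values
  rw [hv]
  rw [F1, F2]; norm_num

theorem axis_e2 (H : IsZ11 R) :
    cc (l3 R 0 1 0) (l3 R 0 0 1) (l3 R 1 0 0) + cc (l3 R 0 1 0) (l3 R 1 0 0) (l3 R 0 2 1) +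
    cc (l3 R 0 1 0) (l3 R 0 2 1) (l3 R 1 0 (-3)) + cc (l3 R 0 1 0) (l3 R 1 0 (-3)) (l3 R 0 0 1) = 0 := by
  obtain ⟨c1, c2, c3, c4, hv⟩ := walk_trivial (-3)
  have hW : l3 R 0 1 0 = LinearMap.ker (k2 R 0) := (k2_ker 0).symm
  obtain ⟨hnP, hL⟩ := line_props (R := R) (a1 := 0) (a2 := 1) (a3 := 0) (b1 := 0) (b2 := 0)
    (b3 := 1) (c1 := 1) (c2 := 0) (c3 := 0) (unit_of H (by norm_num))
  rw [cc_lines (unit_of H (by norm_num)), cc_lines (unit_of H (by norm_num)),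
    cc_lines (unit_of H (by norm_num)), cc_lines (unit_of H (by norm_num))]
  rw [walk_eval H hnP hL (k2 R 0) (k2_surj 0) (k2_ker 0) _ _ _ _ (1, 0) (0, 1) (1, 0) (-3, 1)
    (map_l3 _ _ _ _ (by apply ext2 <;> simp [k2, v3, vec] <;> norm_num))
    (map_l3 _ _ _ _ (by apply ext2 <;> simp [k2, v3, vec] <;> norm_num))
    (map_l3 _ _ _ _ (by apply ext2 <;> simp [k2, v3, vec] <;> norm_num))
    (map_l3 _ _ _ _ (by apply ext2 <;> simp [k2, v3, vec] <;> norm_num))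
    c1 c2 c3 c4]
  exact hv

theorem axis_f2 (H : IsZ11 R) :
    cc (l3 R 2 1 0) (l3 R 0 0 1) (l3 R 1 0 0) + cc (l3 R 2 1 0) (l3 R 1 0 0) (l3 R 0 2 1) +
    cc (l3 R 2 1 0) (l3 R 0 2 1) (l3 R 1 0 (-3)) + cc (l3 R 2 1 0) (l3 R 1 0 (-3)) (l3 R 0 0 1) = -2 := by
  obtain ⟨c1, c2, c3, c4, hv⟩ := walk_value (m := -4) (n := -3) (by norm_num)
  have hW : l3 R 2 1 0 = LinearMap.ker (k2 R 2) := (k2_ker 2).symm
  obtain ⟨hnP, hL⟩ := line_props (R := R) (a1 := 2) (a2 := 1) (a3 := 0) (b1 := 0) (b2 := 0)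
    (b3 := 1) (c1 := 1) (c2 := 0) (c3 := 0) (unit_of H (by norm_num))
  rw [cc_lines (unit_of H (by norm_num)), cc_lines (unit_of H (by norm_num)),
    cc_lines (unit_of H (by norm_num)), cc_lines (unit_of H (by norm_num))]
  rw [walk_eval H hnP hL (k2 R 2) (k2_surj 2) (k2_ker 2) _ _ _ _ (1, 0) (0, 1) (1, -4) (-3, 1)
    (map_l3 _ _ _ _ (by apply ext2 <;> simp [k2, v3, vec] <;> norm_num))
    (map_l3 _ _ _ _ (by apply ext2 <;> simp [k2, v3, vec] <;> norm_num))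
    (map_l3 _ _ _ _ (by apply ext2 <;> simp [k2, v3, vec] <;> norm_num))
    (map_l3 _ _ _ _ (by apply ext2 <;> simp [k2, v3, vec] <;> norm_num))
    c1 c2 c3 c4]
  obtain ⟨F1, F2, F3, F4⟩ := Fp_values
  rw [hv]
  rw [F3, F4]; norm_num

theorem axis_e3 (H : IsZ11 R) :
    cc (l3 R 0 0 1) (l3 R 1 0 0) (l3 R 0 1 0) + cc (l3 R 0 0 1) (l3 R 0 1 0) (l3 R 1 0 (-3)) +
    cc (l3 R 0 0 1) (l3 R 1 0 (-3)) (l3 R 2 1 0) + cc (l3 R 0 0 1) (l3 R 2 1 0) (l3 R 1 0 0) = 0 := by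
  obtain ⟨c1, c2, c3, c4, hv⟩ := walk_trivial 2
  have hW : l3 R 0 0 1 = LinearMap.ker (k3 R 0) := (k3_ker 0).symm
  obtain ⟨hnP, hL⟩ := line_props (R := R) (a1 := 0) (a2 := 0) (a3 := 1) (b1 := 1) (b2 := 0)
    (b3 := 0) (c1 := 0) (c2 := 1) (c3 := 0) (unit_of H (by norm_num))
  rw [cc_lines (unit_of H (by norm_num)), cc_lines (unit_of H (by norm_num)),
    cc_lines (unit_of H (by norm_num)), cc_lines (unit_of H (by norm_num))]
  rw [walk_eval H hnP hL (k3 R 0) (k3_surj 0) (k3_ker 0) _ _ _ _ (1, 0) (0, 1) (1, 0) (2, 1)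
    (map_l3 _ _ _ _ (by apply ext2 <;> simp [k3, v3, vec] <;> norm_num))
    (map_l3 _ _ _ _ (by apply ext2 <;> simp [k3, v3, vec] <;> norm_num))
    (map_l3 _ _ _ _ (by apply ext2 <;> simp [k3, v3, vec] <;> norm_num))
    (map_l3 _ _ _ _ (by apply ext2 <;> simp [k3, v3, vec] <;> norm_num))
    c1 c2 c3 c4]
  exact hv

theorem axis_f3 (H : IsZ11 R) :
    cc (l3 R 0 2 1) (l3 R 1 0 0) (l3 R 0 1 0) + cc (l3 R 0 2 1) (l3 R 0 1 0) (l3 R 1 0 (-3)) +
    cc (l3 R 0 2 1) (l3 R 1 0 (-3)) (l3 R 2 1 0) + cc (l3 R 0 2 1) (l3 R 2 1 0) (l3 R 1 0 0) = -4 := by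
  obtain ⟨c1, c2, c3, c4, hv⟩ := walk_value (m := 6) (n := 2) (by norm_num)
  have hW : l3 R 0 2 1 = LinearMap.ker (k3 R 2) := (k3_ker 2).symm
  obtain ⟨hnP, hL⟩ := line_props (R := R) (a1 := 0) (a2 := 2) (a3 := 1) (b1 := 1) (b2 := 0)
    (b3 := 0) (c1 := 0) (c2 := 1) (c3 := 0) (unit_of H (by norm_num))
  rw [cc_lines (unit_of H (by norm_num)), cc_lines (unit_of H (by norm_num)),
    cc_lines (unit_of H (by norm_num)), cc_lines (unit_of H (by norm_num))]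
  rw [walk_eval H hnP hL (k3 R 2) (k3_surj 2) (k3_ker 2) _ _ _ _ (1, 0) (0, 1) (1, 6) (2, 1)
    (map_l3 _ _ _ _ (by apply ext2 <;> simp [k3, v3, vec] <;> norm_num))
    (map_l3 _ _ _ _ (by apply ext2 <;> simp [k3, v3, vec] <;> norm_num))
    (map_l3 _ _ _ _ (by apply ext2 <;> simp [k3, v3, vec] <;> norm_num))
    (map_l3 _ _ _ _ (by apply ext2 <;> simp [k3, v3, vec] <;> norm_num))
    c1 c2 c3 c4]
  obtain ⟨F1, F2, F3, F4⟩ := Fp_values
  rw [hv]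
  rw [F1, F2]; norm_num

/-- The value of the cocycle on the octahedron with vertices `e1, e2, e3`, `f1 = (1, 0, -3)`,
`f2 = (2, 1, 0)`, `f3 = (0, 2, 1)`. -/
theorem AA_octahedron (H : IsZ11 R) :
    AA (l3 R 1 0 0) (l3 R 0 1 0) (l3 R 0 0 1) - AA (l3 R 1 0 (-3)) (l3 R 0 1 0) (l3 R 0 0 1)
    - AA (l3 R 1 0 0) (l3 R 2 1 0) (l3 R 0 0 1) - AA (l3 R 1 0 0) (l3 R 0 1 0) (l3 R 0 2 1)
    + AA (l3 R 1 0 0) (l3 R 2 1 0) (l3 R 0 2 1) + AA (l3 R 1 0 (-3)) (l3 R 0 1 0) (l3 R 0 2 1)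
    + AA (l3 R 1 0 (-3)) (l3 R 2 1 0) (l3 R 0 0 1) - AA (l3 R 1 0 (-3)) (l3 R 2 1 0) (l3 R 0 2 1)
    = 10 := by
  have a1 := axis_e1 H
  have b1 := axis_f1 H
  have a2 := axis_e2 H
  have b2 := axis_f2 H
  have a3 := axis_e3 H
  have b3 := axis_f3 H
  unfold AA
  generalize hE1 : l3 R 1 0 0 = E1 at *
  generalize hE2 : l3 R 0 1 0 = E2 at *
  generalize hE3 : l3 R 0 0 1 = E3 at *
  generalize hF1 : l3 R 1 0 (-3) = F1 at *
  generalize hF2 : l3 R 2 1 0 = F2 at *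
  generalize hF3 : l3 R 0 2 1 = F3 at *
  have e := fun W U U' => cc_antisymm (R := R) W U U'
  linarith [e E1 E3 F2, e E1 F3 E2, e F1 E3 F2, e F1 F3 E2, e E2 E1 F3, e E2 F1 E3,
    e F2 E1 F3, e F2 F1 E3, e E3 E2 F1, e E3 F2 E1, e F3 E2 F1, e F3 F2 E1]

end Pool.Agent.W584
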