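import Pool.Agent.W584.Farey

/-!
# The function `phi` on pairs of primitive integer vectors with determinant `± 11 ^ k`
-/

namespace Pool.Agent.W584

open Finset

/-- Primitive integer vectors. -/
def Prim (u : ℤ × ℤ) : Prop := IsCoprime u.1 u.2

/-- Pairs of primitive integer vectors with determinant `± 11 ^ k`. -/
def Compl11 (u v : ℤ × ℤ) : Prop := Prim u ∧ Prim v ∧ ∃ k : ℕ, det2 u v = 11 ^ k ∨ det2 u v = -11 ^ k

/-- The symbol on pairs of vectors. -/
def phi (u v : ℤ × ℤ) : ℤ :=
  - ∑ j ∈ range (Nat.log 11 (det2 u v).natAbs),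
      Fp (Int.gcdA u.1 u.2 * v.1 + Int.gcdB u.1 u.2 * v.2, 11 ^ (j + 1))

theorem log_pm {m : ℤ} {k : ℕ} (h : m = 11 ^ k ∨ m = -11 ^ k) : Nat.log 11 m.natAbs = k := by
  have : m.natAbs = 11 ^ k := by
    rcases h with rfl | rfl
    · rw [Int.natAbs_pow]; rfl
    · rw [Int.natAbs_neg, Int.natAbs_pow]; rfl
  rw [this, Nat.log_pow (by norm_num)]

theorem cong_coprime {u v : ℤ × ℤ} (hv : Prim v) {k : ℕ} {x : ℤ} (hk : 0 < k)
    (hx : Cong (11 ^ k) x u v) : ¬ (11 : ℤ) ∣ x := by
  intro h
  have h11 : (11 : ℤ) ∣ 11 ^ k := dvd_pow_self _ (by omega)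
  have h1 : (11 : ℤ) ∣ v.1 := by
    have := dvd_add (h11.trans hx.1) (h.mul_right u.1)
    simpa using this
  have h2 : (11 : ℤ) ∣ v.2 := by
    have := dvd_add (h11.trans hx.2) (h.mul_right u.2)
    simpa using this
  have := hv.isUnit_of_dvd' h1 h2
  rw [Int.isUnit_iff] at this
  omega

theorem isCoprime11_pow {d : ℤ} (h : ¬ (11 : ℤ) ∣ d) (k : ℕ) : IsCoprime d (11 ^ k) :=
  (isCoprime11 h).pow_right

theorem phi_eq {u v : ℤ × ℤ} (hu : Prim u) (hv : Prim v) {k : ℕ}
    (hdet : det2 u v = 11 ^ k ∨ det2 u v = -11 ^ k) {x : ℤ} (hx : Cong (11 ^ k) x u v) :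
    phi u v = - ∑ j ∈ range k, Fp (x, 11 ^ (j + 1)) := by
  unfold phi
  rw [log_pm hdet]
  congr 1
  apply Finset.sum_congr rfl
  intro j hj
  rw [mem_range] at hj
  have hk : 0 < k := by omega
  have hb : Int.gcdA u.1 u.2 * u.1 + Int.gcdB u.1 u.2 * u.2 = 1 := by
    have := Int.gcd_eq_gcd_ab u.1 u.2
    rw [Int.isCoprime_iff_gcd_eq_one.1 hu] at this
    push_cast at this
    linarith
  have hdiff : Int.gcdA u.1 u.2 * v.1 + Int.gcdB u.1 u.2 * v.2 - x =
      Int.gcdA u.1 u.2 * (v.1 - x * u.1) + Int.gcdB u.1 u.2 * (v.2 - x * u.2) := by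
    linear_combination x * hb
  have hd : (11 : ℤ) ^ k ∣ Int.gcdA u.1 u.2 * v.1 + Int.gcdB u.1 u.2 * v.2 - x := by
    rw [hdiff]
    exact dvd_add (hx.1.mul_left _) (hx.2.mul_left _)
  have hd' : (11 : ℤ) ^ (j + 1) ∣ Int.gcdA u.1 u.2 * v.1 + Int.gcdB u.1 u.2 * v.2 - x :=
    (pow_dvd_pow 11 (by omega)).trans hd
  symm
  apply Fp_congr (isCoprime11_pow (cong_coprime hv hk hx) _)
  rw [Int.modEq_iff_dvd]
  exact hd'

/-- Existence of the congruence. -/
theorem exists_cong {u v : ℤ × ℤ} (hu : Prim u) {m : ℤ}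
    (hdet : det2 u v = m ∨ det2 u v = -m) : ∃ x : ℤ, Cong m x u v := by
  obtain ⟨r, t, hrt⟩ := hu
  refine ⟨r * v.1 + t * v.2, ?_, ?_⟩
  · have : v.1 - (r * v.1 + t * v.2) * u.1 = -t * det2 u v := by
      unfold det2
      linear_combination (-v.1) * hrt
    rw [this]
    rcases hdet with h | h <;> rw [h]
    · exact Dvd.intro_left _ rfl
    · exact Dvd.intro_left t (by ring)
  · have : v.2 - (r * v.1 + t * v.2) * u.2 = r * det2 u v := by
      unfold det2
      linear_combination (-v.2) * hrt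
    rw [this]
    rcases hdet with h | h <;> rw [h]
    · exact Dvd.intro_left _ rfl
    · exact Dvd.intro_left (-r) (by ring)

/-- The action of an integer matrix. -/
def mulv (p q r s : ℤ) (w : ℤ × ℤ) : ℤ × ℤ := (p * w.1 + q * w.2, r * w.1 + s * w.2)

theorem det2_mulv (p q r s : ℤ) (u v : ℤ × ℤ) :
    det2 (mulv p q r s u) (mulv p q r s v) = (p * s - q * r) * det2 u v := by
  unfold det2 mulv
  ring

theorem prim_mulv {p q r s : ℤ} (hdet : p * s - q * r = 1 ∨ p * s - q * r = -1) {w : ℤ × ℤ}
    (hw : Prim w) : Prim (mulv p q r s w) := by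
  obtain ⟨α, β, h⟩ := hw
  unfold Prim mulv
  rcases hdet with hd | hd
  · refine ⟨α * s - β * r, -α * q + β * p, ?_⟩
    simp only
    linear_combination h + (α * w.1 + β * w.2) * hd
  · refine ⟨-(α * s - β * r), -(-α * q + β * p), ?_⟩
    simp only
    linear_combination h - (α * w.1 + β * w.2) * hd

theorem phi_mulv {p q r s : ℤ} (hdet : p * s - q * r = 1 ∨ p * s - q * r = -1) {u v : ℤ × ℤ}
    (h : Compl11 u v) : phi (mulv p q r s u) (mulv p q r s v) = phi u v := by
  obtain ⟨hu, hv, k, hk⟩ := h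
  obtain ⟨x, hx⟩ := exists_cong hu hk
  rw [phi_eq hu hv hk hx]
  refine phi_eq (prim_mulv hdet hu) (prim_mulv hdet hv) (k := k) ?_ ?_
  · rw [det2_mulv]
    rcases hdet with hd | hd <;> rw [hd] <;> rcases hk with hk | hk <;> rw [hk] <;> simp
  · constructor
    · have : (mulv p q r s v).1 - x * (mulv p q r s u).1 =
        p * (v.1 - x * u.1) + q * (v.2 - x * u.2) := by unfold mulv; ring
      rw [this]
      exact dvd_add (hx.1.mul_left _) (hx.2.mul_left _)
    · have : (mulv p q r s v).2 - x * (mulv p q r s u).2 =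
        r * (v.1 - x * u.1) + s * (v.2 - x * u.2) := by unfold mulv; ring
      rw [this]
      exact dvd_add (hx.1.mul_left _) (hx.2.mul_left _)

theorem compl11_mulv {p q r s : ℤ} (hdet : p * s - q * r = 1 ∨ p * s - q * r = -1)
    {u v : ℤ × ℤ} (h : Compl11 u v) : Compl11 (mulv p q r s u) (mulv p q r s v) := by
  obtain ⟨hu, hv, k, hk⟩ := h
  refine ⟨prim_mulv hdet hu, prim_mulv hdet hv, k, ?_⟩
  rw [det2_mulv]
  rcases hdet with hd | hd <;> rw [hd] <;> rcases hk with hk | hk <;> rw [hk] <;> simp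

theorem phi_neg_left {u v : ℤ × ℤ} (h : Compl11 u v) : phi (-u) v = phi u v := by
  obtain ⟨hu, hv, k, hk⟩ := h
  obtain ⟨x, hx⟩ := exists_cong hu hk
  rw [phi_eq hu hv hk hx]
  have hu' : Prim (-u) := (show IsCoprime (-u.1) (-u.2) from (IsCoprime.neg_neg hu))
  rw [phi_eq (k := k) hu' hv (x := -x)]
  · congr 1
    apply Finset.sum_congr rfl
    intro j hj
    rw [mem_range] at hj
    exact Fp_neg_fst (isCoprime11_pow (cong_coprime hv (by omega) hx) _)
  · have : det2 (-u) v = - det2 u v := by unfold det2; simp; ring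
    rw [this]
    rcases hk with hk | hk <;> rw [hk] <;> simp
  · constructor
    · have := hx.1; simpa using this
    · have := hx.2; simpa using this

theorem phi_neg_right {u v : ℤ × ℤ} (h : Compl11 u v) : phi u (-v) = phi u v := by
  obtain ⟨hu, hv, k, hk⟩ := h
  obtain ⟨x, hx⟩ := exists_cong hu hk
  rw [phi_eq hu hv hk hx]
  have hv' : Prim (-v) := (show IsCoprime (-v.1) (-v.2) from (IsCoprime.neg_neg hv))
  rw [phi_eq (k := k) hu hv' (x := -x)]
  · congr 1
    apply Finset.sum_congr rfl
    intro j hj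
    rw [mem_range] at hj
    exact Fp_neg_fst (isCoprime11_pow (cong_coprime hv (by omega) hx) _)
  · have : det2 u (-v) = - det2 u v := by unfold det2; simp; ring
    rw [this]
    rcases hk with hk | hk <;> rw [hk] <;> simp
  · constructor
    · have := (dvd_neg.2 hx.1)
      have e : (-v).1 - -x * u.1 = -(v.1 - x * u.1) := by simp; ring
      rw [e]; exact this
    · have := (dvd_neg.2 hx.2)
      have e : (-v).2 - -x * u.2 = -(v.2 - x * u.2) := by simp; ring
      rw [e]; exact this

/-- The primitive vector on the line of `(11 a, c)`. -/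
def Del (w : ℤ × ℤ) : ℤ × ℤ := if (11 : ℤ) ∣ w.2 then (w.1, w.2 / 11) else (11 * w.1, w.2)

theorem Del_mul (w : ℤ × ℤ) : Del (w.1, 11 * w.2) = w := by
  unfold Del
  simp only [dvd_mul_right, if_true]
  have : 11 * w.2 / 11 = w.2 := by omega
  rw [this]

theorem prim_Del {w : ℤ × ℤ} (hw : Prim w) : Prim (Del w) := by
  unfold Del
  split_ifs with h
  · obtain ⟨k, hk⟩ := h
    have e : w.2 / 11 = k := by omega
    simp only [Prim, e]
    unfold Prim at hw
    rw [hk] at hw
    exact hw.of_mul_right_right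
  · exact IsCoprime.mul_left (isCoprime11 h).symm hw

theorem phi_unimod {u v : ℤ × ℤ} (hu : Prim u) (hv : Prim v)
    (h : det2 u v = 1 ∨ det2 u v = -1) : phi u v = 0 := by
  have hk : det2 u v = 11 ^ 0 ∨ det2 u v = -11 ^ 0 := by simpa using h
  rw [phi_eq hu hv hk (x := 0) (by simp [Cong])]
  simp

theorem compl11_unimod {u v : ℤ × ℤ} (h : det2 u v = 1 ∨ det2 u v = -1) : Compl11 u v := by
  refine ⟨?_, ?_, 0, by simpa using h⟩
  · unfold det2 at h
    rcases h with h | h
    · exact ⟨v.2, -v.1, by linarith⟩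
    · exact ⟨-v.2, v.1, by linarith⟩
  · unfold det2 at h
    rcases h with h | h
    · exact ⟨-u.2, u.1, by linarith⟩
    · exact ⟨u.2, -u.1, by linarith⟩

theorem unimod_of_not_dvd {u v : ℤ × ℤ} {k : ℕ} (hk : det2 u v = 11 ^ k ∨ det2 u v = -11 ^ k)
    (h : ¬ (11 : ℤ) ∣ det2 u v) : det2 u v = 1 ∨ det2 u v = -1 := by
  rcases Nat.eq_zero_or_pos k with rfl | hk0
  · simpa using hk
  · exfalso
    apply h
    have h11 : (11 : ℤ) ∣ 11 ^ k := dvd_pow_self _ (by omega)
    rcases hk with hk | hk <;> rw [hk]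
    · exact h11
    · exact (dvd_neg).2 h11

theorem not_dvd_fst {u : ℤ × ℤ} (hu : Prim u) (h : (11 : ℤ) ∣ u.2) : ¬ (11 : ℤ) ∣ u.1 := by
  intro h'
  have := hu.isUnit_of_dvd' h' h
  rw [Int.isUnit_iff] at this
  omega

/-- The change of `phi` under the map `(a, c) ↦ (11 a, c)`. -/
theorem phi_Del {u v : ℤ × ℤ} (h : Compl11 u v) :
    Compl11 (Del u) (Del v) ∧ phi (Del u) (Del v) - phi u v = Fp v - Fp u := by
  obtain ⟨hu, hv, k, hk⟩ := h
  obtain ⟨a, c⟩ := u
  obtain ⟨b, d⟩ := v
  by_cases hc : (11 : ℤ) ∣ c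
  · by_cases hd : (11 : ℤ) ∣ d
    · -- both divisible
      obtain ⟨c', rfl⟩ := hc
      obtain ⟨d', rfl⟩ := hd
      have ec : Del (a, 11 * c') = (a, c') := Del_mul (a, c')
      have ed : Del (b, 11 * d') = (b, d') := Del_mul (b, d')
      have hk0 : k ≠ 0 := by
        rintro rfl
        simp only [det2, pow_zero] at hk
        have : (11 : ℤ) ∣ a * (11 * d') - b * (11 * c') :=
          dvd_sub (Dvd.intro_left (a * 1) (by ring : a * 1 * 11 = a * 11) |>.trans
            ⟨d', by ring⟩) ⟨b * c', by ring⟩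
        rcases hk with hk | hk <;> rw [hk] at this <;> norm_num at this
      obtain ⟨n, rfl⟩ := Nat.exists_eq_succ_of_ne_zero hk0
      obtain ⟨x, hx⟩ := exists_cong hu hk
      have hpu : Prim (a, c') := ec ▸ prim_Del hu
      have hpv : Prim (b, d') := ed ▸ prim_Del hv
      have hdet' : det2 (a, c') (b, d') = 11 ^ n ∨ det2 (a, c') (b, d') = -11 ^ n := by
        have e : det2 (a, 11 * c') (b, 11 * d') = 11 * det2 (a, c') (b, d') := by
          unfold det2; ring
        rw [e, Nat.succ_eq_add_one, pow_succ] at hk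
        rcases hk with hk | hk
        · left; linarith
        · right; linarith
      have hx' : Cong (11 ^ n) x (a, c') (b, d') := by
        constructor
        · exact (pow_dvd_pow 11 (Nat.le_succ n)).trans hx.1
        · have := hx.2
          simp only at this
          have e : 11 * d' - x * (11 * c') = 11 * (d' - x * c') := by ring
          rw [e, Nat.succ_eq_add_one, pow_succ, mul_comm] at this
          exact (mul_dvd_mul_iff_left (by norm_num : (11 : ℤ) ≠ 0)).1 this
      refine ⟨by rw [ec, ed]; exact ⟨hpu, hpv, n, hdet'⟩, ?_⟩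
      rw [ec, ed, phi_eq hpu hpv hdet' hx', phi_eq hu hv hk hx,
        Fp_key hu (Dvd.intro c' rfl) hk hx hv]
      rw [Finset.sum_range_succ]
      ring
    · -- `c` divisible, `d` not
      have hnd : ¬ (11 : ℤ) ∣ det2 (a, c) (b, d) := by
        intro h'
        have h2 : (11 : ℤ) ∣ a * d := by
          have : a * d = det2 (a, c) (b, d) + b * c := by unfold det2; ring
          rw [this]; exact dvd_add h' (hc.mul_left b)
        rcases prime11.dvd_or_dvd h2 with h3 | h3
        · exact not_dvd_fst hu hc h3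
        · exact hd h3
      have hun := unimod_of_not_dvd hk hnd
      obtain ⟨c', rfl⟩ := hc
      have ec : Del (a, 11 * c') = (a, c') := Del_mul (a, c')
      have ed : Del (b, d) = (11 * b, d) := by unfold Del; rw [if_neg hd]
      have hun' : det2 (a, c') (11 * b, d) = 1 ∨ det2 (a, c') (11 * b, d) = -1 := by
        have e : det2 (a, c') (11 * b, d) = det2 (a, 11 * c') (b, d) := by unfold det2; ring
        rw [e]; exact hun
      have hC := compl11_unimod hun'
      rw [ec, ed]
      refine ⟨hC, ?_⟩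
      rw [phi_unimod hC.1 hC.2.1 hun', phi_unimod hu hv hun]
      have h4 : Fp (b, d) - Fp (a, 11 * c') = X ((11 * c' : ℤ) : ZMod 11) (d : ZMod 11) :=
        Fp_step hun
      rw [zmod_eq_zero (Dvd.intro c' rfl), X_zero_left] at h4
      rw [h4]; ring
  · by_cases hd : (11 : ℤ) ∣ d
    · -- `d` divisible, `c` not
      have hnd : ¬ (11 : ℤ) ∣ det2 (a, c) (b, d) := by
        intro h'
        have h2 : (11 : ℤ) ∣ b * c := by
          have : b * c = a * d - det2 (a, c) (b, d) := by unfold det2; ring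
          rw [this]; exact dvd_sub (hd.mul_left a) h'
        rcases prime11.dvd_or_dvd h2 with h3 | h3
        · exact not_dvd_fst hv hd h3
        · exact hc h3
      have hun := unimod_of_not_dvd hk hnd
      obtain ⟨d', rfl⟩ := hd
      have ed : Del (b, 11 * d') = (b, d') := Del_mul (b, d')
      have ec : Del (a, c) = (11 * a, c) := by unfold Del; rw [if_neg hc]
      have hun' : det2 (11 * a, c) (b, d') = 1 ∨ det2 (11 * a, c) (b, d') = -1 := by
        have e : det2 (11 * a, c) (b, d') = det2 (a, c) (b, 11 * d') := by unfold det2; ring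
        rw [e]; exact hun
      have hC := compl11_unimod hun'
      rw [ec, ed]
      refine ⟨hC, ?_⟩
      rw [phi_unimod hC.1 hC.2.1 hun', phi_unimod hu hv hun]
      have h4 : Fp (b, 11 * d') - Fp (a, c) = X (c : ZMod 11) ((11 * d' : ℤ) : ZMod 11) :=
        Fp_step hun
      rw [zmod_eq_zero (Dvd.intro d' rfl), X_zero_right] at h4
      rw [h4]; ring
    · -- neither is divisible
      have ec : Del (a, c) = (11 * a, c) := by unfold Del; rw [if_neg hc]
      have ed : Del (b, d) = (11 * b, d) := by unfold Del; rw [if_neg hd]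
      have hpu : Prim (11 * a, c) := ec ▸ prim_Del hu
      have hpv : Prim (11 * b, d) := ed ▸ prim_Del hv
      have hdet' : det2 (11 * a, c) (11 * b, d) = 11 ^ (k + 1) ∨
          det2 (11 * a, c) (11 * b, d) = -11 ^ (k + 1) := by
        have e : det2 (11 * a, c) (11 * b, d) = det2 (a, c) (b, d) * 11 := by unfold det2; ring
        rw [e, pow_succ]
        rcases hk with hk | hk <;> rw [hk]
        · left; ring
        · right; ring
      obtain ⟨x, hx⟩ := exists_cong hpu hdet'
      have hx' : Cong (11 ^ k) x (a, c) (b, d) := by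
        constructor
        · have := hx.1
          simp only at this
          have e : 11 * b - x * (11 * a) = 11 * (b - x * a) := by ring
          rw [e, pow_succ, mul_comm] at this
          exact (mul_dvd_mul_iff_left (by norm_num : (11 : ℤ) ≠ 0)).1 this
        · exact (pow_dvd_pow 11 (Nat.le_succ k)).trans hx.2
      refine ⟨by rw [ec, ed]; exact ⟨hpu, hpv, k + 1, hdet'⟩, ?_⟩
      rw [ec, ed, phi_eq hpu hpv hdet' hx, phi_eq hu hv hk hx', Finset.sum_range_succ]
      have hWu : W (a, c) = (-c, 11 * a) := by unfold W; rw [if_neg hc]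
      have hWv : W (b, d) = (-d, 11 * b) := by unfold W; rw [if_neg hd]
      have h1 := Fp_W hu
      have h2 := Fp_W hv
      rw [hWu] at h1
      rw [hWv] at h2
      have hcop : ∀ {e f : ℤ}, IsCoprime (11 * e) f → IsCoprime (-f) (11 * e) :=
        fun h => (h.symm).neg_left
      have hkey := Fp_key (u := (-c, 11 * a)) (v := (-d, 11 * b)) (m := 11 ^ (k + 1)) (x := x)
        (hcop hpu) (Dvd.intro a rfl) (by
          have e : det2 (-c, 11 * a) (-d, 11 * b) = det2 (11 * a, c) (11 * b, d) := by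
            unfold det2; ring
          rw [e]; exact hdet') (by
          constructor
          · have := dvd_neg.2 hx.2
            simp only at this ⊢
            have e : -d - x * -c = -(d - x * c) := by ring
            rw [e]; exact this
          · exact hx.1) (hcop hpv)
      rw [h1, h2] at hkey
      rw [← hkey]
      ring

end Pool.Agent.W584
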