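import Pool.Agent.W584.SBEx
import Pool.Agent.W584.SBHom

/-!
# Cycles attached to closed walks of lines
-/

namespace Pool.Agent.W584.SB

open Finset

variable {R : Type} [CommRing R] {M : Type} [AddCommGroup M] [Module R M]

/-- A point of `[2] × [2]`. -/
def ix (x y : Fin 3) : Idx (fun _ : Fin 2 => 2) := fun i => if i = 0 then x else y

theorem ix_le (x y : Fin 3) (c : Idx (fun _ : Fin 2 => 2)) :
    ix x y ≤ c ↔ x ≤ c 0 ∧ y ≤ c 1 := by
  rw [Pi.le_def, Fin.forall_fin_two]
  rfl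

/-- The lattice with `φ(1, 2) = A`, `φ(2, 1) = B`, `φ(1, 1) = 0`. -/
noncomputable def sG (A B : Submodule R M) : Simplex R M 2 :=
  ⟨fun _ => 2, lat2 A B (ix 1 2) (ix 2 1)⟩

/-- The lattice with `φ(1, 2) = φ(2, 1) = φ(1, 1) = A`. -/
noncomputable def sF (A B : Submodule R M) : Simplex R M 2 :=
  ⟨fun _ => 2, lat2 A B (ix 1 1) (ix 2 2)⟩

theorem full_lat2 {X Y : Submodule R M} (h : IsCompl X Y) (x y z w : Fin 3) (hx : x ≠ 0)
    (hy : y ≠ 0) (hz : z ≠ 0) (hw : w ≠ 0) :
    FullLattice (⟨fun _ => 2, lat2 X Y (ix x y) (ix z w)⟩ : Simplex R M 2) := by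
  refine ⟨isLattice_lat2 h _ _, ?_, ?_⟩
  · rintro a ⟨i, hi⟩
    change lat2 X Y (ix x y) (ix z w) a = ⊥
    have hn : ∀ x y : Fin 3, x ≠ 0 → y ≠ 0 → ¬ ix x y ≤ a := by
      intro x y hx hy hle
      rw [ix_le] at hle
      have h0 : ∀ t : Fin 3, t ≤ 0 → t = 0 := by decide
      have hi2 : i = 0 ∨ i = 1 := by fin_cases i <;> simp
      rcases hi2 with rfl | rfl
      · rw [hi] at hle
        exact hx (h0 x hle.1)
      · rw [hi] at hle
        exact hy (h0 y hle.2)
    unfold lat2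
    rw [if_neg (hn x y hx hy), if_neg (hn z w hz hw), sup_bot_eq]
  · change lat2 X Y (ix x y) (ix z w) (fun _ => Fin.last 2) = ⊤
    unfold lat2
    rw [if_pos, if_pos, h.sup_eq_top]
    · rw [ix_le]; exact ⟨Fin.le_last _, Fin.le_last _⟩
    · rw [ix_le]; exact ⟨Fin.le_last _, Fin.le_last _⟩

theorem full_sG {A B : Submodule R M} (h : IsCompl A B) : FullLattice (sG A B) :=
  full_lat2 h 1 2 2 1 (by decide) (by decide) (by decide) (by decide)

theorem full_sF {A B : Submodule R M} (h : IsCompl A B) : FullLattice (sF A B) :=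
  full_lat2 h 1 1 2 2 (by decide) (by decide) (by decide) (by decide)

theorem pt_zero_one : pt (fun _ : Fin 2 => 2) 0 1 = ix 1 2 := by
  funext i; fin_cases i <;> rfl

theorem pt_one_one : pt (fun _ : Fin 2 => 2) 1 1 = ix 2 1 := by
  funext i; fin_cases i <;> rfl

theorem E_sG0 (A B : Submodule R M) : E (sG A B) 0 1 = A := by
  change lat2 A B (ix 1 2) (ix 2 1) (pt (fun _ : Fin 2 => 2) 0 1) = A
  rw [pt_zero_one]
  unfold lat2
  rw [if_pos le_rfl, if_neg, sup_bot_eq]
  rw [ix_le]; decide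

theorem E_sG1 (A B : Submodule R M) : E (sG A B) 1 1 = B := by
  change lat2 A B (ix 1 2) (ix 2 1) (pt (fun _ : Fin 2 => 2) 1 1) = B
  rw [pt_one_one]
  unfold lat2
  rw [if_pos le_rfl, if_neg, bot_sup_eq]
  rw [ix_le]; decide

theorem E_sF0 (A B : Submodule R M) : E (sF A B) 0 1 = A := by
  change lat2 A B (ix 1 1) (ix 2 2) (pt (fun _ : Fin 2 => 2) 0 1) = A
  rw [pt_zero_one]
  unfold lat2
  rw [if_pos, if_neg, sup_bot_eq]
  · rw [ix_le]; decide
  · rw [ix_le]; decide

theorem E_sF1 (A B : Submodule R M) : E (sF A B) 1 1 = A := by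
  change lat2 A B (ix 1 1) (ix 2 2) (pt (fun _ : Fin 2 => 2) 1 1) = A
  rw [pt_one_one]
  unfold lat2
  rw [if_pos, if_neg, sup_bot_eq]
  · rw [ix_le]; decide
  · rw [ix_le]; decide

theorem single_neg_one {k : ℕ} (σ : Simplex R M k) : single σ (-1) = - single σ 1 := by
  change (Finsupp.single σ (-1) : Simplex R M k →₀ ℤ) = - Finsupp.single σ 1
  rw [Finsupp.single_neg]

theorem eq_of_coeff_ne {k : ℕ} {σ τ : Simplex R M k} {n : ℤ} (h : coeff (single τ n) σ ≠ 0) :
    σ = τ := by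
  have h1 : σ ∈ (Finsupp.single τ n : Simplex R M k →₀ ℤ).support :=
    Finsupp.mem_support_iff.2 h
  have h2 := Finsupp.support_single_subset h1
  rwa [Finset.mem_singleton] at h2

theorem bdS_two {σ : Simplex R M 2} (hσ : FullLattice σ) (hs : σ.shape = fun _ => 2)
    (h0 : Line (E σ 0 1)) (h1 : Line (E σ 1 1)) :
    bdS σ = - single (face σ 0 1) 1 - single (face σ 1 1) 1 := by
  classical
  have s0 : ∀ i, σ.shape i = 2 := fun i => by rw [hs]
  have a0 : ∀ i : Fin 2, Line (E σ i 1) → ¬ Full (face σ i 0) := by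
    intro i hi
    rw [full_face_zero hσ (by rw [s0]; omega)]
    exact hi.1
  have a1 : ∀ i : Fin 2, Full (face σ i 1) :=
    fun i => full_face_mid hσ (by omega) (by rw [s0]; omega)
  have a2 : ∀ i : Fin 2, Line (E σ i 1) → ¬ Full (face σ i 2) := by
    intro i hi
    have h := full_face_last hσ (i := i) (by rw [s0]; omega)
    rw [s0] at h
    rw [h]
    exact hi.2.1
  unfold bdS
  rw [Fin.sum_univ_two, if_neg (by rw [s0]; omega), if_neg (by rw [s0]; omega)]
  have e0 : ∑ l ∈ Iio (0 : Fin 2), σ.shape l = 0 := by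
    apply Finset.sum_eq_zero
    intro l hl
    rw [Finset.mem_Iio] at hl
    exact absurd hl (Fin.not_lt_zero l)
  have e1 : ∑ l ∈ Iio (1 : Fin 2), σ.shape l = 2 := by
    have : Iio (1 : Fin 2) = {0} := by decide
    rw [this, Finset.sum_singleton, s0]
  rw [e0, e1, s0, s0]
  simp only [Finset.sum_range_succ, Finset.sum_range_zero]
  rw [if_neg (a0 0 h0), if_pos (a1 0), if_neg (a2 0 h0), if_neg (a0 1 h1), if_pos (a1 1),
    if_neg (a2 1 h1)]
  have p0 : (-1 : ℤ) ^ (0 + 1) = -1 := by norm_num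
  have p1 : (-1 : ℤ) ^ (2 + 1) = -1 := by norm_num
  rw [p0, p1, single_neg_one, single_neg_one]
  abel

theorem lat2_congr {A B C D : Submodule R M} {u v u' v' : Idx (fun _ : Fin 2 => 2)} {i : Fin 2}
    {j : ℕ} (h : ∀ c : Idx (fun _ : Fin 2 => 2), (c i : ℕ) ≠ j →
      lat2 A B u v c = lat2 C D u' v' c) :
    face (⟨fun _ => 2, lat2 A B u v⟩ : Simplex R M 2) i j =
      face (⟨fun _ => 2, lat2 C D u' v'⟩ : Simplex R M 2) i j := by
  unfold face
  simp only [Simplex.mk.injEq, heq_eq_eq, true_and]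
  funext a
  apply h
  rw [delta_val_self]
  have := (a i).2
  rw [min_def]
  have h3 : Function.update (fun _ : Fin 2 => 2) i (2 - 1) i = 1 := by
    rw [Function.update_self]
  split_ifs <;> omega

theorem ix_cases (c : Idx (fun _ : Fin 2 => 2)) (i : Fin 2) (h : (c i : ℕ) ≠ 1) :
    c i = 0 ∨ c i = 2 := by
  have : ∀ t : Fin 3, (t : ℕ) ≠ 1 → t = 0 ∨ t = 2 := by decide
  exact this (c i) h

theorem face_sG0 {A B C : Submodule R M} (h : IsCompl A B) (h' : IsCompl B C) :
    face (sG A B) 0 1 = face (sF B C) 0 1 := by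
  apply lat2_congr
  intro c hc
  unfold lat2
  simp only [ix_le]
  rcases ix_cases c 0 hc with h0 | h0
  · rw [h0]
    have n1 : ¬ ((1 : Fin 3) ≤ 0) := by decide
    have n2 : ¬ ((2 : Fin 3) ≤ 0) := by decide
    simp only [n1, n2, false_and, if_false]
  · rw [h0]
    have n1 : ((1 : Fin 3) ≤ 2) := by decide
    have n2 : ((2 : Fin 3) ≤ 2) := by decide
    simp only [n1, n2, true_and]
    by_cases h2 : (2 : Fin 3) ≤ c 1
    · have h1 : (1 : Fin 3) ≤ c 1 := le_trans (by decide) h2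
      rw [if_pos h2, if_pos h1, if_pos h2, h.sup_eq_top, h'.sup_eq_top]
    · rw [if_neg h2, if_neg h2, bot_sup_eq, sup_bot_eq]

theorem face_sG1 {A B C : Submodule R M} (h : IsCompl A B) (h' : IsCompl A C) :
    face (sG A B) 1 1 = face (sF A C) 1 1 := by
  apply lat2_congr
  intro c hc
  unfold lat2
  simp only [ix_le]
  rcases ix_cases c 1 hc with h0 | h0
  · rw [h0]
    have n1 : ¬ ((1 : Fin 3) ≤ 0) := by decide
    have n2 : ¬ ((2 : Fin 3) ≤ 0) := by decide
    simp only [n1, n2, and_false, if_false]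
  · rw [h0]
    have n1 : ((1 : Fin 3) ≤ 2) := by decide
    have n2 : ((2 : Fin 3) ≤ 2) := by decide
    simp only [n1, n2, and_true]
    by_cases h2 : (2 : Fin 3) ≤ c 0
    · have h1 : (1 : Fin 3) ≤ c 0 := le_trans (by decide) h2
      rw [if_pos h2, if_pos h1, if_pos h2, h.sup_eq_top, h'.sup_eq_top]
    · rw [if_neg h2, if_neg h2]

/-- The chain attached to an edge of the walk. -/
noncomputable def we (A B : Submodule R M) : Chain R M 2 :=
  single (sF A B) 1 - single (sG A B) 1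

theorem bd_we {A B C : Submodule R M} (hA : Line A) (hB : Line B) (h : IsCompl A B)
    (h' : IsCompl B C) : bd (we A B) = single (face (sF B C) 0 1) 1 -
      single (face (sF A B) 0 1) 1 := by
  unfold we
  rw [map_sub, bd_single, bd_single, one_smul, one_smul,
    bdS_two (full_sF h) rfl (by rw [E_sF0]; exact hA) (by rw [E_sF1]; exact hA),
    bdS_two (full_sG h) rfl (by rw [E_sG0]; exact hA) (by rw [E_sG1]; exact hB),
    face_sG0 h h', face_sG1 h h]
  abel

theorem degree_two (f : Idx (fun _ : Fin 2 => 2) → Submodule R M) :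
    degree (⟨fun _ => 2, f⟩ : Simplex R M 2) = 4 := by
  unfold degree
  rw [Fin.sum_univ_two]
  rfl

theorem we_mem {A B : Submodule R M} (h : IsCompl A B) : we A B ∈ chains R M 2 4 := by
  unfold we
  apply (chains R M 2 4).sub_mem
  · intro σ hσ
    rw [eq_of_coeff_ne hσ]
    exact ⟨full_sF h, degree_two _⟩
  · intro σ hσ
    rw [eq_of_coeff_ne hσ]
    exact ⟨full_sG h, degree_two _⟩

theorem lam_we (G : Submodule R M → Submodule R M → ℤ) (hG : Sym G) (A B : Submodule R M) :
    ext (lam G) (we A B) = G A B := by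
  have h2 : ∀ f : Idx (fun _ : Fin 2 => 2) → Submodule R M,
      Two (⟨fun _ => 2, f⟩ : Simplex R M 2).shape 0 1 := by
    intro f m
    fin_cases m <;> rfl
  unfold we
  rw [map_sub, ext_single, ext_single,
    lam_eq G (σ := sF A B) (i := 0) (j := 1) (by decide) (h2 _),
    lam_eq G (σ := sG A B) (i := 0) (j := 1) (by decide) (h2 _), E_sF0, E_sF1, E_sG0, E_sG1,
    hG.self]
  simp

/-- The cycle attached to a closed walk of length four. -/
theorem exists_cycle (G : Submodule R M → Submodule R M → ℤ) (hG : Sym G)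
    {A B C D : Submodule R M} (hA : Line A) (hB : Line B) (hC : Line C) (hD : Line D)
    (h1 : IsCompl A B) (h2 : IsCompl B C) (h3 : IsCompl C D) (h4 : IsCompl D A) :
    ∃ z ∈ cycles R M 2 4, ext (lam G) z = G A B + G B C + G C D + G D A := by
  refine ⟨we A B + we B C + we C D + we D A, ⟨?_, ?_⟩, ?_⟩
  · exact AddSubgroup.add_mem _ (AddSubgroup.add_mem _ (AddSubgroup.add_mem _
      (we_mem h1) (we_mem h2)) (we_mem h3)) (we_mem h4)
  · change bd (we A B + we B C + we C D + we D A) = 0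
    rw [map_add, map_add, map_add, bd_we hA hB h1 h2, bd_we hB hC h2 h3, bd_we hC hD h3 h4,
      bd_we hD hA h4 h1]
    abel
  · rw [map_add, map_add, map_add, lam_we G hG, lam_we G hG, lam_we G hG, lam_we G hG]

end Pool.Agent.W584.SB
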