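import Pool.Agent.W584.SBCyc
import Pool.Agent.W584.Octa

/-!
# The coinvariants for `ℤ[1/11]` and rank two are not torsion
-/

namespace Pool.Agent.W584.SB

open Submodule

set_option linter.unusedSectionVars false

variable {R : Type} [CommRing R] [IsDomain R]

theorem line_iff (W : Submodule R (Fin 2 → R)) : Line W ↔ IsLine W := Iff.rfl

open Classical in
/-- The symbol, extended by zero. -/
noncomputable def GG (A B : Submodule R (Fin 2 → R)) : ℤ :=
  if Line A ∧ Line B ∧ IsCompl A B then ff A B else 0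

theorem span_neg_vec (w : ℤ × ℤ) : span R {vec R (-w)} = span R {vec R w} := by
  have : vec R (-w) = - vec R w := by
    apply ext2 <;> simp [vec]
  rw [this, ← Set.neg_singleton, Submodule.span_neg]

theorem sym_GG (H : IsZ11 R) : Sym (GG (R := R)) where
  line := by
    intro A B hA hB hAB
    obtain ⟨w, hw, rfl⟩ := exists_gen H hA
    obtain ⟨w', hw', rfl⟩ := exists_gen H hB
    have h1 : vec R w ∈ span R {vec R w'} := hAB (mem_span_singleton_self _)
    rcases eq_or_neg_of_det hw' hw (det_eq_zero_of_mem H h1) with h | h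
    · rw [h]
    · rw [h, span_neg_vec]
  antisymm := by
    intro A B
    unfold GG
    have e : (Line A ∧ Line B ∧ IsCompl A B) ↔ (Line B ∧ Line A ∧ IsCompl B A) := by
      rw [isCompl_comm]; tauto
    by_cases h : Line A ∧ Line B ∧ IsCompl A B
    · rw [if_pos h, if_pos (e.1 h), ff_antisymm]
    · rw [if_neg h, if_neg (fun h' => h (e.2 h')), neg_zero]
  zero := by
    intro A B h
    unfold GG
    rw [if_neg]
    tauto

theorem prim_GG (H : IsZ11 R) (g : (Fin 2 → R) ≃ₗ[R] (Fin 2 → R)) :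
    ∃ f, Prim (GG (R := R)) g f := by
  classical
  obtain ⟨h, hh⟩ := ff_quasi H g
  refine ⟨fun A => if Line A then h A else 0, ?_, ?_⟩
  · intro A B hA hB hAB
    have hAB' : IsCompl (A.map (g : (Fin 2 → R) →ₗ[R] (Fin 2 → R)))
        (B.map (g : (Fin 2 → R) →ₗ[R] (Fin 2 → R))) :=
      (Submodule.orderIsoMapComap g).isCompl hAB
    unfold GG
    rw [if_pos ⟨(line_map_iff g A).2 hA, (line_map_iff g B).2 hB, hAB'⟩, if_pos ⟨hA, hB, hAB⟩]
    simp only [hA, hB, if_true]
    exact hh A B hA hB hAB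
  · intro A hA
    simp only [hA, if_false]

theorem line_span (H : IsZ11 R) {u v : ℤ × ℤ} (h : Compl11 u v) :
    Line (span R {vec R u}) ∧ IsCompl (span R {vec R u}) (span R {vec R v}) := by
  have hc := isCompl_of_compl11 H h
  have hne : ∀ {w : ℤ × ℤ}, W584.Prim w → span R {vec R w} ≠ ⊥ := by
    intro w hw h0
    rw [span_singleton_eq_bot] at h0
    have h1 : (w.1 : R) = 0 := congrFun h0 0
    have h2 : (w.2 : R) = 0 := congrFun h0 1
    have h3 : w.1 = 0 := H.inj (by simpa using h1)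
    have h4 : w.2 = 0 := H.inj (by simpa using h2)
    unfold W584.Prim at hw
    rw [h3, h4] at hw
    exact not_isCoprime_zero_zero hw
  refine ⟨⟨hne h.1, ?_, _, hc⟩, hc⟩
  intro h0
  rw [h0] at hc
  exact hne h.2.1 (eq_bot_of_top_isCompl hc)

theorem GG_span (H : IsZ11 R) {u v : ℤ × ℤ} (h : Compl11 u v) :
    GG (span R {vec R u}) (span R {vec R v}) = phi u v - phi v u := by
  unfold GG
  rw [if_pos ⟨(line_span H h).1, (line_span H (compl11_symm h)).1, (line_span H h).2⟩,
    ff_span H h]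

/-- The main theorem. -/
theorem exists_nontorsion (H : IsZ11 R) :
    ∃ x : Coinvariants R (Fin 2 → R) 2, ∀ N : ℤ, N ≠ 0 → N • x ≠ 0 := by
  have hnt : Nontrivial (Fin 2 → R) := inferInstance
  obtain ⟨c1, c2, c3, c4, hv⟩ := walk_value (m := 6) (n := 2) (by norm_num)
  obtain ⟨z, hz, hzv⟩ := exists_cycle (GG (R := R)) (sym_GG H)
    (line_span H c1).1 (line_span H c2).1 (line_span H c3).1 (line_span H c4).1
    (line_span H c1).2 (line_span H c2).2 (line_span H c3).2 (line_span H c4).2
  rw [GG_span H c1, GG_span H c2, GG_span H c3, GG_span H c4, hv] at hzv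
  obtain ⟨F1, F2, -, -⟩ := Fp_values
  rw [F1, F2] at hzv
  obtain ⟨Λ, hΛ⟩ := exists_functional (sym_GG H) (prim_GG H) 2
  let z' : Cyc R (Fin 2 → R) (1 + 1) (2 + (1 + 1)) := ⟨z, hz⟩
  refine ⟨coClass z', ?_⟩
  intro N hN h0
  have h1 := congrArg Λ h0
  rw [map_zsmul, map_zero, hΛ 1 z'] at h1
  change N • ext (lam GG) z = 0 at h1
  rw [hzv] at h1
  apply hN
  simpa using h1

end Pool.Agent.W584.SB
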