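import Pool.Agent.W584.SBFace

/-!
# Functionals on the chains of the stable building
-/

namespace Pool.Agent.W584.SB

open Finset

variable {R : Type} [CommRing R] {M : Type} [AddCommGroup M] [Module R M]
variable {k : ℕ}

/-- Proper nonzero direct summands. -/
def Line (W : Submodule R M) : Prop := W ≠ ⊥ ∧ W ≠ ⊤ ∧ IsSummand W

/-- The extension of a function on simplices to chains. -/
noncomputable abbrev ext (μ : Simplex R M k → ℤ) : Chain R M k →+ ℤ := extend μ

theorem extend_single {A : Type} [AddCommGroup A] (f : Simplex R M k → A) (σ : Simplex R M k)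
    (n : ℤ) : extend f (single σ n) = n • f σ := by
  unfold extend single
  exact (Finsupp.liftAddHom_apply_single _ _ _).trans (by simp)

theorem ext_single (μ : Simplex R M k → ℤ) (σ : Simplex R M k) (n : ℤ) :
    ext μ (single σ n) = n * μ σ := by
  rw [extend_single, smul_eq_mul]

theorem bd_single (σ : Simplex R M k) (n : ℤ) : bd (single σ n) = n • bdS σ :=
  extend_single _ _ _

open Classical in
/-- The alternating sum of the values on the faces in the direction `i`. -/
noncomputable def D (μ : Simplex R M k → ℤ) (σ : Simplex R M k) (i : Fin k) : ℤ :=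
  ∑ j ∈ range (σ.shape i + 1), (-1 : ℤ) ^ j *
    (if Full (face σ i j) then μ (face σ i j) else 0)

theorem ext_bdS (μ : Simplex R M k → ℤ) {σ : Simplex R M k} (h : ∀ i, 0 < σ.shape i) :
    ext μ (bdS σ) = ∑ i, (-1 : ℤ) ^ (∑ l ∈ Iio i, σ.shape l) * D μ σ i := by
  classical
  unfold bdS D
  rw [map_sum]
  apply Finset.sum_congr rfl
  intro i _
  rw [if_neg (h i).ne', map_sum, Finset.mul_sum]
  apply Finset.sum_congr rfl
  intro j _
  rw [pow_add]
  split_ifs
  · rw [ext_single]; ring
  · simp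

variable {σ : Simplex R M k}

theorem D_one [Nontrivial M] (μ : Simplex R M k → ℤ) (hσ : FullLattice σ) {i : Fin k}
    (hi : σ.shape i = 1) : D μ σ i = 0 := by
  classical
  unfold D
  have h0 : ¬ Full (face σ i 0) := by
    rw [full_face_zero hσ (by omega), E_top hσ i (by omega)]
    exact top_ne_bot
  have h1 : ¬ Full (face σ i 1) := by
    have := full_face_last hσ (i := i) (by omega)
    rw [hi] at this
    rw [this, show 1 - 1 = 0 from rfl, E_zero hσ]
    exact bot_ne_top
  rw [hi, Finset.sum_range_succ, Finset.sum_range_one, if_neg h0, if_neg h1]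
  ring

open Classical in
/-- The coefficient of a face. -/
noncomputable def kap (X : Submodule R M) : ℤ :=
  (if X = ⊥ then 1 else 0) - 1 + (if X = ⊤ then 1 else 0)

theorem kap_line {X : Submodule R M} (h : Line X) : kap X = -1 := by
  unfold kap
  rw [if_neg h.1, if_neg h.2.1]; ring

theorem kap_not_line [Nontrivial M] {X : Submodule R M} (hX : IsSummand X) (h : ¬ Line X) :
    kap X = 0 := by
  unfold kap
  by_cases h1 : X = ⊥
  · rw [if_pos h1, if_neg (by rw [h1]; exact bot_ne_top)]; ring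
  · by_cases h2 : X = ⊤
    · rw [if_neg h1, if_pos h2]; ring
    · exact absurd ⟨h1, h2, hX⟩ h

theorem D_two (μ : Simplex R M k → ℤ) (hσ : FullLattice σ) {i : Fin k}
    (hi : σ.shape i = 2) {m : ℤ} (h0 : E σ i 1 = ⊥ → μ (face σ i 0) = m)
    (h1 : μ (face σ i 1) = m) (h2 : E σ i 1 = ⊤ → μ (face σ i 2) = m) :
    D μ σ i = kap (E σ i 1) * m := by
  classical
  unfold D kap
  have f0 := full_face_zero hσ (i := i) (by omega)
  have f1 := full_face_mid hσ (i := i) (j := 1) (by omega) (by omega)
  have f2 := full_face_last hσ (i := i) (by omega)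
  rw [hi] at f2
  change Full (face σ i 2) ↔ E σ i 1 = ⊤ at f2
  rw [hi, Finset.sum_range_succ, Finset.sum_range_succ, Finset.sum_range_one, if_pos f1, h1]
  by_cases e0 : E σ i 1 = ⊥
  · rw [if_pos (f0.2 e0), h0 e0, if_pos e0]
    by_cases e2 : E σ i 1 = ⊤
    · rw [if_pos (f2.2 e2), h2 e2, if_pos e2]; ring
    · rw [if_neg (fun h => e2 (f2.1 h)), if_neg e2]; ring
  · rw [if_neg (fun h => e0 (f0.1 h)), if_neg e0]
    by_cases e2 : E σ i 1 = ⊤
    · rw [if_pos (f2.2 e2), h2 e2, if_pos e2]; ring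
    · rw [if_neg (fun h => e2 (f2.1 h)), if_neg e2]; ring

open Classical in
theorem D_three (μ : Simplex R M k → ℤ) (hσ : FullLattice σ) {i : Fin k}
    (hi : σ.shape i = 3) (f : Submodule R M → ℤ)
    (h0 : E σ i 1 = ⊥ → μ (face σ i 0) = f (E (face σ i 0) i 1))
    (h1 : μ (face σ i 1) = f (E (face σ i 1) i 1))
    (h2 : μ (face σ i 2) = f (E (face σ i 2) i 1))
    (h3 : E σ i 2 = ⊤ → μ (face σ i 3) = f (E (face σ i 3) i 1)) :
    D μ σ i = (if E σ i 1 = ⊥ then f (E σ i 2) else 0) - f (E σ i 2) + f (E σ i 1) -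
      (if E σ i 2 = ⊤ then f (E σ i 1) else 0) := by
  unfold D
  have f0 := full_face_zero hσ (i := i) (by omega)
  have f1 := full_face_mid hσ (i := i) (j := 1) (by omega) (by omega)
  have f2 := full_face_mid hσ (i := i) (j := 2) (by omega) (by omega)
  have f3 := full_face_last hσ (i := i) (by omega)
  rw [hi] at f3
  change Full (face σ i 3) ↔ E σ i 2 = ⊤ at f3
  rw [E_face_self σ (by omega)] at h0 h1 h2 h3
  simp only [show (0 ≤ 1) = True by simp, if_true] at h0
  norm_num at h0 h1 h2 h3
  rw [hi, Finset.sum_range_succ, Finset.sum_range_succ, Finset.sum_range_succ,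
    Finset.sum_range_one, if_pos f1, if_pos f2, h1, h2]
  by_cases e0 : E σ i 1 = ⊥
  · rw [if_pos (f0.2 e0), h0 e0, if_pos e0]
    by_cases e3 : E σ i 2 = ⊤
    · rw [if_pos (f3.2 e3), h3 e3, if_pos e3]; ring
    · rw [if_neg (fun h => e3 (f3.1 h)), if_neg e3]; ring
  · rw [if_neg (fun h => e0 (f0.1 h)), if_neg e0]
    by_cases e3 : E σ i 2 = ⊤
    · rw [if_pos (f3.2 e3), h3 e3, if_pos e3]; ring
    · rw [if_neg (fun h => e3 (f3.1 h)), if_neg e3]; ring

end Pool.Agent.W584.SB
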