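import Pool.Agent.W584.SB

/-!
# Facts about lattices
-/

namespace Pool.Agent.W584.SB

open Finset

section colimit

variable {R : Type} [CommRing R] {M : Type} [AddCommGroup M] [Module R M]
variable {ι : Type} [Preorder ι] [DecidableEq ι]

/-- The structure maps of the colimit. -/
noncomputable def SubColim.of (F : ι → Submodule R M) (hF : Monotone F) (i : ι) :
    F i →ₗ[R] SubColim F hF :=
  Module.DirectLimit.of R ι (fun i => F i) (fun _ _ h => Submodule.inclusion (hF h)) i

theorem SubColim.of_incl (F : ι → Submodule R M) (hF : Monotone F) {i j : ι} (h : i ≤ j)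
    (x : F i) : SubColim.of F hF j (Submodule.inclusion (hF h) x) = SubColim.of F hF i x :=
  Module.DirectLimit.of_f (G := fun i => F i) (f := fun _ _ h => Submodule.inclusion (hF h))
    (hij := h) (x := x)

/-- The universal property of the colimit. -/
noncomputable def SubColim.lift (F : ι → Submodule R M) (hF : Monotone F) {P : Type}
    [AddCommGroup P] [Module R P] (g : ∀ i, F i →ₗ[R] P)
    (hg : ∀ (i j : ι) (h : i ≤ j) (x : F i), g j (Submodule.inclusion (hF h) x) = g i x) :
    SubColim F hF →ₗ[R] P :=
  Module.DirectLimit.lift R ι (fun i => F i) (fun _ _ h => Submodule.inclusion (hF h)) g hg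

theorem SubColim.lift_of (F : ι → Submodule R M) (hF : Monotone F) {P : Type}
    [AddCommGroup P] [Module R P] (g : ∀ i, F i →ₗ[R] P)
    (hg : ∀ (i j : ι) (h : i ≤ j) (x : F i), g j (Submodule.inclusion (hF h) x) = g i x)
    (i : ι) (x : F i) : SubColim.lift F hF g hg (SubColim.of F hF i x) = g i x :=
  Module.DirectLimit.lift_of _ _ _

theorem SubColim.desc_of (F : ι → Submodule R M) (hF : Monotone F) (N : Submodule R M)
    (hN : ∀ i, F i ≤ N) (i : ι) (x : F i) :
    SubColim.desc F hF N hN (SubColim.of F hF i x) = Submodule.inclusion (hN i) x :=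
  Module.DirectLimit.lift_of _ _ _

theorem SubColim.hom_ext (F : ι → Submodule R M) (hF : Monotone F) {P : Type}
    [AddCommGroup P] [Module R P] {g₁ g₂ : SubColim F hF →ₗ[R] P}
    (h : ∀ i x, g₁ (SubColim.of F hF i x) = g₂ (SubColim.of F hF i x)) : g₁ = g₂ :=
  Module.DirectLimit.hom_ext fun i => LinearMap.ext fun x => h i x

end colimit

section lattice

variable {R : Type} [CommRing R] {M : Type} [AddCommGroup M] [Module R M]
variable {k : ℕ} {p : Fin k → ℕ} {φ : Idx p → Submodule R M}

/-- The structure maps of the colimit over the punctured cube. -/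
noncomputable def cof (hφ : Monotone φ) {a b : Idx p} (c : PCube a b) :
    φ c.1 →ₗ[R] CubeColim φ hφ a b :=
  SubColim.of (cubeFun φ a b) (cubeFun_mono hφ a b) c

theorem cof_incl (hφ : Monotone φ) {a b : Idx p} {c c' : PCube a b} (h : c ≤ c') (x : φ c.1) :
    cof hφ c' (Submodule.inclusion (hφ h) x) = cof hφ c x :=
  SubColim.of_incl (cubeFun φ a b) (cubeFun_mono hφ a b) h x

theorem cubeMap_of (hφ : Monotone φ) {a b : Idx p} (hab : a ≤ b) (c : PCube a b) (x : φ c.1) :
    cubeMap φ hφ a b hab (cof hφ c x) = Submodule.inclusion (hφ (c.le hab)) x :=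
  SubColim.desc_of _ _ _ _ _ _

theorem cube_hom_ext (hφ : Monotone φ) {a b : Idx p} {P : Type} [AddCommGroup P] [Module R P]
    {g₁ g₂ : CubeColim φ hφ a b →ₗ[R] P}
    (h : ∀ c x, g₁ (cof hφ c x) = g₂ (cof hφ c x)) : g₁ = g₂ :=
  SubColim.hom_ext _ _ h

/-- The universal property. -/
noncomputable def clift (hφ : Monotone φ) {a b : Idx p} {P : Type} [AddCommGroup P]
    [Module R P] (g : ∀ c : PCube a b, φ c.1 →ₗ[R] P)
    (hg : ∀ (c c' : PCube a b) (h : c ≤ c') (x : φ c.1),
      g c' (Submodule.inclusion (hφ h) x) = g c x) : CubeColim φ hφ a b →ₗ[R] P :=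
  SubColim.lift (cubeFun φ a b) (cubeFun_mono hφ a b) g hg

theorem clift_of (hφ : Monotone φ) {a b : Idx p} {P : Type} [AddCommGroup P]
    [Module R P] (g : ∀ c : PCube a b, φ c.1 →ₗ[R] P)
    (hg : ∀ (c c' : PCube a b) (h : c ≤ c') (x : φ c.1),
      g c' (Submodule.inclusion (hφ h) x) = g c x) (c : PCube a b) (x : φ c.1) :
    clift hφ g hg (cof hφ c x) = g c x :=
  SubColim.lift_of _ _ _ _ _ _

theorem detect (L : IsLattice φ) {a b : Idx p} (hab : a ≤ b) {P : Type} [AddCommGroup P]
    [Module R P] (g : ∀ c : PCube a b, φ c.1 →ₗ[R] P)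
    (hg : ∀ (c c' : PCube a b) (h : c ≤ c') (x : φ c.1),
      g c' (Submodule.inclusion (L.mono h) x) = g c x)
    {n : ℕ} (e : Fin n → PCube a b) (x : ∀ s, φ (e s).1) (h : ∑ s, (x s : M) = 0) :
    ∑ s, g (e s) (x s) = 0 := by
  have hinj := (L.cube a b hab).1
  have h1 : cubeMap φ L.mono a b hab (∑ s, cof L.mono (e s) (x s)) = 0 := by
    rw [map_sum]
    apply Subtype.ext
    rw [AddSubmonoidClass.coe_finsetSum, Submodule.coe_zero, ← h]
    apply Finset.sum_congr rfl
    intro s _
    rw [cubeMap_of]
    rfl
  have h2 : ∑ s, cof L.mono (e s) (x s) = 0 := by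
    apply hinj
    rw [h1, map_zero]
  have h3 : clift L.mono g hg (∑ s, cof L.mono (e s) (x s)) = 0 := by
    rw [h2, map_zero]
  rw [map_sum] at h3
  rw [← h3]
  apply Finset.sum_congr rfl
  intro s _
  rw [clift_of]

theorem map_range_cubeMap (hφ : Monotone φ) {a b : Idx p} (hab : a ≤ b) :
    (LinearMap.range (cubeMap φ hφ a b hab)).map (φ b).subtype = ⨆ c : PCube a b, φ c.1 := by
  apply le_antisymm
  · rw [Submodule.map_le_iff_le_comap]
    rintro _ ⟨y, rfl⟩
    rw [Submodule.mem_comap]
    set N : Submodule R M := ⨆ c : PCube a b, φ c.1 with hN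
    have h1 : (N.mkQ ∘ₗ (φ b).subtype) ∘ₗ (cubeMap φ hφ a b hab) = 0 := by
      apply cube_hom_ext
      intro c x
      simp only [LinearMap.comp_apply, LinearMap.zero_apply]
      rw [cubeMap_of, Submodule.mkQ_apply, Submodule.Quotient.mk_eq_zero]
      exact (le_iSup (fun c : PCube a b => φ c.1) c) x.2
    have h2 := LinearMap.congr_fun h1 y
    simp only [LinearMap.comp_apply, LinearMap.zero_apply] at h2
    rw [Submodule.mkQ_apply, Submodule.Quotient.mk_eq_zero] at h2
    exact h2
  · apply iSup_le
    intro c x hx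
    refine ⟨⟨x, hφ (c.le hab) hx⟩, ⟨cof hφ c ⟨x, hx⟩, ?_⟩, rfl⟩
    rw [cubeMap_of]
    rfl

theorem isSummand_map_ofTop {N : Submodule R M} (hN : N = ⊤) {W : Submodule R N}
    (hW : IsSummand W) : IsSummand (W.map N.subtype) := by
  obtain ⟨W', h⟩ := hW
  refine ⟨W'.map N.subtype, ?_⟩
  have h1 := (Submodule.orderIsoMapComap (LinearEquiv.ofTop N hN)).isCompl h
  exact h1

theorem isSummand_iSup (L : IsLattice φ) {a b : Idx p} (hab : a ≤ b) (hb : φ b = ⊤) :
    IsSummand (⨆ c : PCube a b, φ c.1) := by
  rw [← map_range_cubeMap L.mono hab]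
  exact isSummand_map_ofTop hb (L.cube a b hab).2

/-- The top of the box. -/
def tp (p : Fin k → ℕ) : Idx p := fun l => Fin.last (p l)

theorem le_tp (a : Idx p) : a ≤ tp p := fun l => Fin.le_last (a l)

/-- The point which agrees with `a` at `s` and with the top elsewhere. -/
def low (a : Idx p) (s : Fin k) : Idx p := fun l => if l = s then a l else Fin.last (p l)

theorem low_self (a : Idx p) (s : Fin k) : low a s s = a s := by
  unfold low; rw [if_pos rfl]

theorem low_of_ne (a : Idx p) {s l : Fin k} (h : l ≠ s) : low a s l = Fin.last (p l) := by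
  unfold low; rw [if_neg h]

theorem le_low (a : Idx p) (s : Fin k) : a ≤ low a s := by
  intro l
  by_cases h : l = s
  · subst h; rw [low_self]
  · rw [low_of_ne a h]; exact Fin.le_last _

/-- The point `low a s` as an element of the punctured cube. -/
def lowP (a : Idx p) (s : Fin k) (h : a s ≠ Fin.last (p s)) : PCube a (tp p) :=
  ⟨low a s, by
    intro i
    by_cases h : i = s
    · subst h; left; exact low_self a i
    · right; exact low_of_ne a h, by
    intro h'
    apply h
    have := congrFun h' s
    rw [low_self] at this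
    exact this⟩

theorem eq_low_of_le {a : Idx p} {s : Fin k} {c : PCube a (tp p)}
    (h : low a s ≤ c.1) : c.1 = low a s := by
  have h1 : ∀ l, l ≠ s → c.1 l = Fin.last (p l) := by
    intro l hl
    have := h l
    rw [low_of_ne a hl] at this
    exact le_antisymm (Fin.le_last _) this
  have h2 : c.1 s = a s := by
    rcases c.2.1 s with h3 | h3
    · exact h3
    · exfalso
      apply c.2.2
      funext l
      by_cases hl : l = s
      · subst hl; exact h3
      · exact h1 l hl
  funext l
  by_cases hl : l = s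
  · subst hl; rw [h2, low_self]
  · rw [h1 l hl, low_of_ne a hl]

theorem exists_low_ge {a : Idx p} (c : PCube a (tp p)) :
    ∃ s, a s ≠ Fin.last (p s) ∧ c.1 s = a s ∧ c.1 ≤ low a s := by
  obtain ⟨s, hs⟩ : ∃ s, c.1 s ≠ Fin.last (p s) := by
    by_contra hcon
    push Not at hcon
    exact c.2.2 (funext hcon)
  have h1 : c.1 s = a s := by
    rcases c.2.1 s with h | h
    · exact h
    · exact absurd h hs
  refine ⟨s, by rwa [← h1], h1, ?_⟩
  intro l
  by_cases hl : l = s
  · subst hl; rw [low_self, h1]
  · rw [low_of_ne a hl]; exact Fin.le_last _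

theorem detect_low (L : IsLattice φ) (a : Idx p) (s0 : Fin k) (N : Submodule R M)
    (hN : ∀ c : PCube a (tp p), c.1 ≤ low a s0 → c.1 ≠ low a s0 → φ c.1 ≤ N)
    {n : ℕ} (e : Fin n → PCube a (tp p)) (x : ∀ s, φ (e s).1) (h : ∑ s, (x s : M) = 0) :
    ∑ s, (if (e s).1 = low a s0 then (x s : M) else 0) ∈ N := by
  classical
  have key := detect L (le_tp a) (P := M ⧸ N)
    (fun c => if c.1 = low a s0 then N.mkQ ∘ₗ (φ c.1).subtype else 0) (by
      intro c c' hcc x
      by_cases h1 : c'.1 = low a s0
      · by_cases h2 : c.1 = low a s0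
        · rw [if_pos h1, if_pos h2]; rfl
        · rw [if_pos h1, if_neg h2]
          have h3 : c.1 ≤ low a s0 := by rw [← h1]; exact hcc
          have h4 := hN c h3 h2 x.2
          simp only [LinearMap.comp_apply, LinearMap.zero_apply, Submodule.mkQ_apply]
          rw [Submodule.Quotient.mk_eq_zero]
          exact h4
      · by_cases h2 : c.1 = low a s0
        · exfalso
          apply h1
          have h3 : low a s0 ≤ c'.1 := by rw [← h2]; exact hcc
          exact eq_low_of_le h3
        · rw [if_neg h1, if_neg h2]; rfl) e x h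
  rw [← Submodule.Quotient.mk_eq_zero, ← Submodule.mkQ_apply, map_sum, ← key]
  apply Finset.sum_congr rfl
  intro s _
  by_cases h1 : (e s).1 = low a s0
  · rw [if_pos h1, if_pos h1]; rfl
  · rw [if_neg h1, if_neg h1, map_zero]; rfl

theorem low_ne {a : Idx p} {s t : Fin k} (hst : s ≠ t) (hs : a s ≠ Fin.last (p s)) :
    low a t ≠ low a s := by
  intro h
  have := congrFun h s
  rw [low_self, low_of_ne a hst] at this
  exact hs this.symm

/-- Two dimensional faces. -/
theorem inf_low_le (L : IsLattice φ) {a : Idx p} {i j : Fin k} (hij : i ≠ j)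
    (hi : a i ≠ Fin.last (p i)) (hj : a j ≠ Fin.last (p j))
    (ha : ∀ l, l ≠ i → l ≠ j → a l = Fin.last (p l)) :
    φ (low a i) ⊓ φ (low a j) ≤ φ a := by
  rintro x ⟨hx1, hx2⟩
  have key := detect_low L a i (φ a) (by
    intro c hc hne
    apply L.mono
    intro l
    by_cases hl : l = i
    · subst hl
      have := hc l
      rw [low_self] at this
      exact this
    · by_cases hl2 : l = j
      · subst hl2
        rcases c.2.1 l with h | h
        · rw [h]
        · exfalso
          apply hne
          funext m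
          by_cases hm : m = i
          · subst hm
            rw [low_self]
            rcases c.2.1 m with h' | h'
            · exact h'
            · exfalso
              have := hc m
              rw [low_self, h'] at this
              exact hi (le_antisymm (Fin.le_last _) this)
          · rw [low_of_ne a hm]
            by_cases hm2 : m = l
            · subst hm2; exact h
            · rcases c.2.1 m with h' | h'
              · rw [h', ha m hm hm2]
              · exact h'
      · rw [ha l hl hl2]; exact Fin.le_last _)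
    (n := 2) ![lowP a i hi, lowP a j hj] (Fin.cons ⟨x, hx1⟩ (Fin.cons ⟨-x, neg_mem hx2⟩
      (fun s => s.elim0))) (by
      rw [Fin.sum_univ_two]
      change x + -x = 0
      abel)
  rw [Fin.sum_univ_two] at key
  change (if low a i = low a i then x else 0) + (if low a j = low a i then -x else 0) ∈ φ a at key
  rw [if_pos rfl, if_neg (low_ne hij hi), add_zero] at key
  exact key

/-- Three dimensional cubes: three pairwise complementary submodules are impossible. -/
theorem three_low (L : IsLattice φ) {a : Idx p} {i j l : Fin k} (hij : i ≠ j) (hil : i ≠ l)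
    (hi : a i ≠ Fin.last (p i)) (hj : a j ≠ Fin.last (p j)) (hl : a l ≠ Fin.last (p l))
    (ha : ∀ m, m ≠ i → m ≠ j → m ≠ l → a m = Fin.last (p m))
    (h1 : φ (low a i) ⊓ φ (low a j) = ⊥) (h2 : φ (low a i) ⊓ φ (low a l) = ⊥)
    (h3 : φ (low a j) ⊔ φ (low a l) = ⊤) : φ (low a i) = ⊥ := by
  rw [eq_bot_iff]
  intro x hx
  obtain ⟨y, hy, z, hz, hyz⟩ := Submodule.mem_sup.1 (h3.ge (Submodule.mem_top (x := x)))
  have key := detect_low L a i ⊥ (by
    intro c hc hne
    have h4 : ∃ m, m ≠ i ∧ c.1 m ≠ Fin.last (p m) := by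
      by_contra hcon
      push Not at hcon
      apply hne
      funext m
      by_cases hm : m = i
      · subst hm
        rw [low_self]
        rcases c.2.1 m with h' | h'
        · exact h'
        · exfalso
          have := hc m
          rw [low_self, h'] at this
          exact hi (le_antisymm (Fin.le_last _) this)
      · rw [low_of_ne a hm]; exact hcon m hm
    obtain ⟨m, hmi, hm⟩ := h4
    have h5 : c.1 m = a m := by
      rcases c.2.1 m with h' | h'
      · exact h'
      · exact absurd h' hm
    have h6 : m = j ∨ m = l := by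
      by_contra hcon
      push Not at hcon
      apply hm
      rw [h5]
      exact ha m hmi hcon.1 hcon.2
    have h7 : c.1 ≤ low a m := by
      intro r
      by_cases hr : r = m
      · subst hr; rw [low_self, h5]
      · rw [low_of_ne a hr]; exact Fin.le_last _
    rcases h6 with rfl | rfl
    · rw [← h1]; exact le_inf (L.mono hc) (L.mono h7)
    · rw [← h2]; exact le_inf (L.mono hc) (L.mono h7))
    (n := 3) ![lowP a i hi, lowP a j hj, lowP a l hl] (Fin.cons ⟨x, hx⟩ (Fin.cons
      ⟨-y, neg_mem hy⟩ (Fin.cons ⟨-z, neg_mem hz⟩ (fun s => s.elim0)))) (by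
      rw [Fin.sum_univ_three]
      change x + -y + -z = 0
      rw [← hyz]; abel)
  rw [Fin.sum_univ_three] at key
  change (if low a i = low a i then x else 0) + (if low a j = low a i then -y else 0) +
    (if low a l = low a i then -z else 0) ∈ (⊥ : Submodule R M) at key
  rw [if_pos rfl, if_neg (low_ne hij hi), if_neg (low_ne hil hi), add_zero, add_zero] at key
  exact key

theorem isSummand_sup_low (L : IsLattice φ) (htop : φ (tp p) = ⊤) {a : Idx p} {i j : Fin k}
    (hi : a i ≠ Fin.last (p i)) (hj : a j ≠ Fin.last (p j))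
    (ha : ∀ l, l ≠ i → l ≠ j → a l = Fin.last (p l)) :
    IsSummand (φ (low a i) ⊔ φ (low a j)) := by
  have h := isSummand_iSup L (le_tp a) htop
  have h1 : (⨆ c : PCube a (tp p), φ c.1) = φ (low a i) ⊔ φ (low a j) := by
    apply le_antisymm
    · apply iSup_le
      intro c
      obtain ⟨s, hs, -, hcs⟩ := exists_low_ge c
      by_cases h1 : s = i
      · subst h1; exact le_sup_of_le_left (L.mono hcs)
      · by_cases h2 : s = j
        · subst h2; exact le_sup_of_le_right (L.mono hcs)
        · exact absurd (ha s h1 h2) hs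
    · exact sup_le (le_iSup (fun c : PCube a (tp p) => φ c.1) (lowP a i hi))
        (le_iSup (fun c : PCube a (tp p) => φ c.1) (lowP a j hj))
  rwa [h1] at h

end lattice

end Pool.Agent.W584.SB
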