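import Pool.Agent.W584.SBLam

/-!
# Vanishing on boundaries, invariance, and suspension
-/

namespace Pool.Agent.W584.SB

open Finset

variable {R : Type} [CommRing R] {M : Type} [AddCommGroup M] [Module R M]
variable {k : ℕ} {σ : Simplex R M k} {G : Submodule R M → Submodule R M → ℤ}

theorem D_zero (μ : Simplex R M k → ℤ) {i : Fin k} (h : ∀ j, μ (face σ i j) = 0) :
    D μ σ i = 0 := by
  classical
  unfold D
  apply Finset.sum_eq_zero
  intro j _
  rw [h j]; simp

theorem face_E1 (hσ : FullLattice σ) {i l : Fin k} (hl : l ≠ i) (hi : 0 < σ.shape i)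
    (hlv : 1 < σ.shape l) :
    (∀ j, j < σ.shape i → E (face σ i j) l 1 = E σ l 1) ∧
      (E σ i (σ.shape i - 1) = ⊤ → E (face σ i (σ.shape i)) l 1 = E σ l 1) :=
  ⟨fun _ hj => E_face_ne σ hl hj 1, fun h => E_face_ne_last hσ hl hi hlv h⟩

theorem two_face {i b c : Fin k} (hb : b ≠ i) (hc : c ≠ i)
    (hs : ∀ m, σ.shape m = 1 + ind m i + ind m b + ind m c) (j : ℕ) :
    Two (face σ i j).shape b c := by
  intro m
  by_cases hm : m = i
  · subst hm
    rw [face_shape_self, hs, ind_self, ind_ne hb.symm, ind_ne hc.symm]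
  · rw [face_shape_ne σ hm, hs, ind_ne hm]

theorem D_lam_two (hσ : FullLattice σ) {a b c : Fin k} (hab : a ≠ b) (hac : a ≠ c)
    (hbc : b < c) (hs : ∀ m, σ.shape m = 1 + ind m a + ind m b + ind m c) :
    D (lam G) σ a = kap (E σ a 1) *
      ((-1 : ℤ) ^ ((b : ℕ) + (c : ℕ)) * G (E σ b 1) (E σ c 1)) := by
  have sa : σ.shape a = 2 := by rw [hs, ind_self, ind_ne hab, ind_ne hac]
  have sb : σ.shape b = 2 := by rw [hs, ind_self, ind_ne hab.symm, ind_ne hbc.ne]
  have sc : σ.shape c = 2 := by rw [hs, ind_self, ind_ne hac.symm, ind_ne hbc.ne']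
  obtain ⟨e1, e2⟩ := face_E1 hσ hab.symm (by omega) (show 1 < σ.shape b by omega)
  obtain ⟨e3, e4⟩ := face_E1 hσ hac.symm (by omega) (show 1 < σ.shape c by omega)
  rw [sa] at e1 e2 e3 e4
  have ht := fun j => two_face hab.symm hac.symm hs j
  apply D_two (lam G) hσ sa
  · intro _
    rw [lam_eq G hbc (ht 0), e1 0 (by omega), e3 0 (by omega)]
  · rw [lam_eq G hbc (ht 1), e1 1 (by omega), e3 1 (by omega)]
  · intro h
    rw [lam_eq G hbc (ht 2), e2 h, e4 h]

theorem lam_bdS_A [Nontrivial M] (hG : Sym G) (hσ : FullLattice σ) {a b c : Fin k}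
    (hab : a < b) (hbc : b < c) (hs : ∀ m, σ.shape m = 1 + ind m a + ind m b + ind m c) :
    ext (lam G) (bdS σ) = 0 := by
  have hac := hab.trans hbc
  rw [ext_bdS _ (fun i => shape_pos hσ i)]
  have sa : σ.shape a = 2 := by rw [hs, ind_self, ind_ne hab.ne, ind_ne hac.ne]
  have sb : σ.shape b = 2 := by rw [hs, ind_self, ind_ne hab.ne', ind_ne hbc.ne]
  have sc : σ.shape c = 2 := by rw [hs, ind_self, ind_ne hac.ne', ind_ne hbc.ne']
  have hS : ∀ i : Fin k, ∑ l ∈ Iio i, σ.shape l = (i : ℕ) + (if a < i then 1 else 0) +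
      (if b < i then 1 else 0) + (if c < i then 1 else 0) := by
    intro i
    simp only [hs, Finset.sum_add_distrib, sum_Iio_ind, sum_Iio_one]
  have hA : ∀ i : Fin k, (-1 : ℤ) ^ (∑ l ∈ Iio i, σ.shape l) * D (lam G) σ i =
      (if i = a then (-1 : ℤ) ^ (a : ℕ) * (kap (E σ a 1) *
        ((-1 : ℤ) ^ ((b : ℕ) + (c : ℕ)) * G (E σ b 1) (E σ c 1))) else 0) +
      (if i = b then (-1 : ℤ) ^ ((b : ℕ) + 1) * (kap (E σ b 1) *
        ((-1 : ℤ) ^ ((a : ℕ) + (c : ℕ)) * G (E σ a 1) (E σ c 1))) else 0) +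
      (if i = c then (-1 : ℤ) ^ ((c : ℕ) + 2) * (kap (E σ c 1) *
        ((-1 : ℤ) ^ ((a : ℕ) + (b : ℕ)) * G (E σ a 1) (E σ b 1))) else 0) := by
    intro i
    by_cases h1 : i = a
    · subst h1
      rw [if_pos rfl, if_neg hab.ne, if_neg hac.ne, hS, if_neg (lt_irrefl _),
        if_neg hab.not_gt, if_neg hac.not_gt, D_lam_two hσ hab.ne hac.ne hbc hs]
      simp
    · rw [if_neg h1]
      by_cases h2 : i = b
      · subst h2
        rw [if_pos rfl, if_neg hbc.ne, hS, if_pos hab, if_neg (lt_irrefl _), if_neg hbc.not_gt,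
          D_lam_two hσ hab.ne' hbc.ne hac (fun m => by rw [hs m]; ring)]
        simp
      · rw [if_neg h2]
        by_cases h3 : i = c
        · subst h3
          rw [if_pos rfl, hS, if_pos hac, if_pos hbc, if_neg (lt_irrefl _),
            D_lam_two hσ hac.ne' hbc.ne' hab (fun m => by rw [hs m]; ring)]
          simp
        · rw [if_neg h3, D_one _ hσ (by rw [hs, ind_ne h1, ind_ne h2, ind_ne h3])]
          simp
  rw [Finset.sum_congr rfl (fun i _ => hA i), Finset.sum_add_distrib, Finset.sum_add_distrib,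
    Finset.sum_ite_eq', Finset.sum_ite_eq', Finset.sum_ite_eq']
  simp only [Finset.mem_univ, if_true]
  have hP := P3 hG hσ hab.ne hac.ne hbc.ne (by omega) (by omega) (by omega)
  have : ∀ x y z : ℤ, ∀ u v w : ℕ, (-1 : ℤ) ^ u * (kap (E σ a 1) * ((-1 : ℤ) ^ (v + w) * x)) +
      (-1 : ℤ) ^ (v + 1) * (kap (E σ b 1) * ((-1 : ℤ) ^ (u + w) * y)) +
      (-1 : ℤ) ^ (w + 2) * (kap (E σ c 1) * ((-1 : ℤ) ^ (u + v) * z)) =
      (-1 : ℤ) ^ (u + v + w) * (kap (E σ a 1) * x - kap (E σ b 1) * y + kap (E σ c 1) * z) := by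
    intro x y z u v w
    simp only [pow_add, pow_one]
    ring
  rw [this, hP, mul_zero]

theorem lam_bdS_B [Nontrivial M] (hG : Sym G) (hσ : FullLattice σ) {a b : Fin k}
    (hab : a ≠ b) (hs : ∀ m, σ.shape m = 1 + ind m a + ind m a + ind m b) :
    ext (lam G) (bdS σ) = 0 := by
  classical
  rw [ext_bdS _ (fun i => shape_pos hσ i)]
  have sa : σ.shape a = 3 := by rw [hs, ind_self, ind_ne hab]
  have sb : σ.shape b = 2 := by rw [hs, ind_self, ind_ne hab.symm]
  apply Finset.sum_eq_zero
  intro i _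
  by_cases h1 : i = a
  · subst h1
    obtain ⟨e1, e2⟩ := face_E1 hσ hab.symm (by omega) (show 1 < σ.shape b by omega)
    rw [sa] at e1 e2
    have ht : ∀ j, Two (face σ i j).shape i b := by
      intro j m
      by_cases hm : m = i
      · subst hm
        rw [face_shape_self, hs, ind_self, ind_ne hab]
      · rw [face_shape_ne σ hm, hs, ind_ne hm]
    have ht' : ∀ j, Two (face σ i j).shape b i := fun j m => by rw [ht j m]; ring
    rcases lt_or_gt_of_ne hab with hlt | hlt
    · have hD := (D_three (lam G) hσ sa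
        (fun X => (-1 : ℤ) ^ ((i : ℕ) + (b : ℕ)) * G X (E σ b 1)) (fun _ => by
          rw [lam_eq G hlt (ht 0), e1 0 (by omega)]) (by
          rw [lam_eq G hlt (ht 1), e1 1 (by omega)]) (by
          rw [lam_eq G hlt (ht 2), e1 2 (by omega)]) (fun h => by
          rw [lam_eq G hlt (ht 3), e2 h])).trans
        (P21 hG hσ (fun X => (-1 : ℤ) ^ ((i : ℕ) + (b : ℕ)) * G X (E σ b 1)) (fun X hX => by
          rw [hG.zero _ _ (fun h => hX h.1), mul_zero]))
      rw [hD, mul_zero]
    · have hD := (D_three (lam G) hσ sa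
        (fun X => (-1 : ℤ) ^ ((b : ℕ) + (i : ℕ)) * G (E σ b 1) X) (fun _ => by
          rw [lam_eq G hlt (ht' 0), e1 0 (by omega)]) (by
          rw [lam_eq G hlt (ht' 1), e1 1 (by omega)]) (by
          rw [lam_eq G hlt (ht' 2), e1 2 (by omega)]) (fun h => by
          rw [lam_eq G hlt (ht' 3), e2 h])).trans
        (P21 hG hσ (fun X => (-1 : ℤ) ^ ((b : ℕ) + (i : ℕ)) * G (E σ b 1) X) (fun X hX => by
          rw [hG.zero _ _ (fun h => hX h.2), mul_zero]))
      rw [hD, mul_zero]
  · by_cases h2 : i = b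
    · subst h2
      rw [D_zero, mul_zero]
      intro j
      apply lam_zero
      intro x y hxy h
      have h3 := h a
      rw [face_shape_ne σ hab, sa] at h3
      unfold ind at h3
      by_cases h4 : a = x
      · by_cases h5 : a = y
        · exact hxy.ne (h4.symm.trans h5)
        · rw [if_neg h5] at h3
          split_ifs at h3 <;> omega
      · rw [if_neg h4] at h3
        split_ifs at h3 <;> omega
    · rw [D_one _ hσ (by rw [hs, ind_ne h1, ind_ne h2]), mul_zero]

theorem lam_bdS [Nontrivial M] (hG : Sym G) (hσ : FullLattice σ) :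
    ext (lam G) (bdS σ) = 0 := by
  by_cases hex : ∃ l i j : Fin k, i < j ∧ ∀ m, σ.shape m = 1 + ind m i + ind m j + ind m l
  · obtain ⟨l, i, j, hij, hs⟩ := hex
    rcases lt_trichotomy l i with h1 | h1 | h1
    · exact lam_bdS_A hG hσ h1 hij (fun m => by rw [hs m]; ring)
    · subst h1
      exact lam_bdS_B hG hσ hij.ne (fun m => by rw [hs m]; ring)
    · rcases lt_trichotomy l j with h2 | h2 | h2
      · exact lam_bdS_A hG hσ h1 h2 (fun m => by rw [hs m]; ring)
      · subst h2
        exact lam_bdS_B hG hσ hij.ne' (fun m => by rw [hs m]; ring)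
      · exact lam_bdS_A hG hσ hij h2 (fun m => by rw [hs m])
  · rw [ext_bdS _ (fun i => shape_pos hσ i)]
    apply Finset.sum_eq_zero
    intro l _
    rw [D_zero, mul_zero]
    intro t
    apply lam_zero
    intro i j hij h
    apply hex
    refine ⟨l, i, j, hij, ?_⟩
    intro m
    have h1 := h m
    by_cases hm : m = l
    · subst hm
      rw [face_shape_self] at h1
      have := shape_pos hσ m
      rw [ind_self]; omega
    · rw [face_shape_ne σ hm] at h1
      rw [ind_ne hm, h1, add_zero]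

/-- The hypotheses on a primitive. -/
structure Prim (G : Submodule R M → Submodule R M → ℤ) (g : M ≃ₗ[R] M)
    (f : Submodule R M → ℤ) : Prop where
  compl : ∀ A B, Line A → Line B → IsCompl A B →
    G (A.map (g : M →ₗ[R] M)) (B.map (g : M →ₗ[R] M)) - G A B = f B - f A
  zero : ∀ A, ¬ Line A → f A = 0

theorem line_map_iff (g : M ≃ₗ[R] M) (A : Submodule R M) :
    Line (A.map (g : M →ₗ[R] M)) ↔ Line A := by
  set o := Submodule.orderIsoMapComap g with ho
  have e : ∀ W : Submodule R M, o W = W.map (g : M →ₗ[R] M) := fun W => rfl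
  rw [← e]
  unfold Line IsSummand
  constructor
  · rintro ⟨h1, h2, W', h3⟩
    refine ⟨fun h => h1 (by rw [h, map_bot]), fun h => h2 (by rw [h, map_top]), o.symm W', ?_⟩
    have := o.symm.isCompl h3
    simpa using this
  · rintro ⟨h1, h2, W', h3⟩
    refine ⟨fun h => h1 ?_, fun h => h2 ?_, o W', o.isCompl h3⟩
    · apply o.injective; rw [h, map_bot]
    · apply o.injective; rw [h, map_top]

theorem E_act (g : M ≃ₗ[R] M) (σ : Simplex R M k) (i : Fin k) (v : ℕ) :
    E (act g σ) i v = (E σ i v).map (g : M →ₗ[R] M) := rfl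

theorem two_of_faces (σ : Simplex R M k) (hpos : ∀ i, 0 < σ.shape i) {l i : Fin k} {t : ℕ}
    (h : One (face σ l t).shape i) (m : Fin k) : σ.shape m = 1 + ind m i + ind m l := by
  have h1 := h m
  by_cases hm : m = l
  · subst hm
    rw [face_shape_self] at h1
    have := hpos m
    rw [ind_self]; omega
  · rw [face_shape_ne σ hm] at h1
    rw [ind_ne hm, h1, add_zero]

theorem D_nu_two (f : Submodule R M → ℤ) (hσ : FullLattice σ) {a b : Fin k} (hab : a ≠ b)
    (hs : ∀ m, σ.shape m = 1 + ind m a + ind m b) :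
    D (nu f) σ a = kap (E σ a 1) * ((-1 : ℤ) ^ ((b : ℕ) + 1) * f (E σ b 1)) := by
  have sa : σ.shape a = 2 := by rw [hs, ind_self, ind_ne hab]
  have sb : σ.shape b = 2 := by rw [hs, ind_self, ind_ne hab.symm]
  obtain ⟨e1, e2⟩ := face_E1 hσ hab.symm (by omega) (show 1 < σ.shape b by omega)
  rw [sa] at e1 e2
  have ht : ∀ j, One (face σ a j).shape b := by
    intro j m
    by_cases hm : m = a
    · subst hm
      rw [face_shape_self, hs, ind_self, ind_ne hab]
    · rw [face_shape_ne σ hm, hs, ind_ne hm]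
  apply D_two (nu f) hσ sa
  · intro _
    rw [nu_eq f (ht 0), e1 0 (by omega)]
  · rw [nu_eq f (ht 1), e1 1 (by omega)]
  · intro h
    rw [nu_eq f (ht 2), e2 h]

/-- Invariance up to a coboundary. -/
theorem nu_bdS [Nontrivial M] (hG : Sym G) {g : M ≃ₗ[R] M} {f : Submodule R M → ℤ}
    (hf : Prim G g f) (hσ : FullLattice σ) :
    ext (nu f) (bdS σ) = lam G (act g σ) - lam G σ := by
  classical
  rw [ext_bdS _ (fun i => shape_pos hσ i)]
  by_cases hex : ∃ i j : Fin k, i < j ∧ Two σ.shape i j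
  · obtain ⟨a, b, hab, hs⟩ := hex
    have sa : σ.shape a = 2 := by rw [hs, ind_self, ind_ne hab.ne]
    have sb : σ.shape b = 2 := by rw [hs, ind_self, ind_ne hab.ne']
    have hs' : Two (act g σ).shape a b := hs
    have hS : ∀ i : Fin k, ∑ l ∈ Iio i, σ.shape l = (i : ℕ) + (if a < i then 1 else 0) +
        (if b < i then 1 else 0) := by
      intro i
      have hs2 : ∀ m, σ.shape m = 1 + ind m a + ind m b := hs
      simp only [hs2, Finset.sum_add_distrib, sum_Iio_ind, sum_Iio_one]
    have hA : ∀ i : Fin k, (-1 : ℤ) ^ (∑ l ∈ Iio i, σ.shape l) * D (nu f) σ i =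
        (if i = a then (-1 : ℤ) ^ (a : ℕ) * (kap (E σ a 1) *
          ((-1 : ℤ) ^ ((b : ℕ) + 1) * f (E σ b 1))) else 0) +
        (if i = b then (-1 : ℤ) ^ ((b : ℕ) + 1) * (kap (E σ b 1) *
          ((-1 : ℤ) ^ ((a : ℕ) + 1) * f (E σ a 1))) else 0) := by
      intro i
      by_cases h1 : i = a
      · subst h1
        rw [if_pos rfl, if_neg hab.ne, hS, if_neg (lt_irrefl _), if_neg hab.not_gt,
          D_nu_two f hσ hab.ne hs]
        simp
      · rw [if_neg h1]
        by_cases h2 : i = b
        · subst h2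
          rw [if_pos rfl, hS, if_pos hab, if_neg (lt_irrefl _),
            D_nu_two f hσ hab.ne' (fun m => by rw [hs m]; ring)]
          simp
        · rw [if_neg h2, D_one _ hσ (by rw [hs, ind_ne h1, ind_ne h2])]
          simp
    rw [Finset.sum_congr rfl (fun i _ => hA i), Finset.sum_add_distrib,
      Finset.sum_ite_eq', Finset.sum_ite_eq']
    simp only [Finset.mem_univ, if_true]
    rw [lam_eq G hab hs, lam_eq G hab hs', E_act, E_act]
    have hring : ∀ x y : ℤ, ∀ u v : ℕ, (-1 : ℤ) ^ u * (kap (E σ a 1) * ((-1 : ℤ) ^ (v + 1) * x)) +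
        (-1 : ℤ) ^ (v + 1) * (kap (E σ b 1) * ((-1 : ℤ) ^ (u + 1) * y)) =
        (-1 : ℤ) ^ (u + v) * (kap (E σ b 1) * y - kap (E σ a 1) * x) := by
      intro x y u v
      simp only [pow_add, pow_one]
      ring
    rw [hring]
    rw [← mul_sub]
    congr 1
    by_cases h1 : Line (E σ a 1)
    · by_cases h2 : Line (E σ b 1)
      · rw [kap_line h1, kap_line h2]
        by_cases h3 : E σ a 1 = E σ b 1
        · rw [h3, hG.self, hG.self]; ring
        · rw [hf.compl _ _ h1 h2 (compl_of_ne hG hσ hab.ne (by omega) (by omega) h1 h2 h3)]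
          ring
      · rw [kap_not_line (E_summand hσ b 1) h2, hf.zero _ h2, hG.zero _ _ (fun h => h2 h.2),
          hG.zero _ _ (fun h => h2 ((line_map_iff g _).1 h.2))]
        ring
    · rw [kap_not_line (E_summand hσ a 1) h1, hf.zero _ h1, hG.zero _ _ (fun h => h1 h.1),
          hG.zero _ _ (fun h => h1 ((line_map_iff g _).1 h.1))]
      ring
  · push Not at hex
    rw [lam_zero G hex, lam_zero G (σ := act g σ) hex, sub_zero]
    apply Finset.sum_eq_zero
    intro l _
    by_cases h1 : ∃ i t, One (face σ l t).shape i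
    · obtain ⟨i, t, h1⟩ := h1
      have h2 := two_of_faces σ (fun i => shape_pos hσ i) h1
      rcases lt_trichotomy i l with h3 | h3 | h3
      · exact absurd h2 (hex i l h3)
      · subst h3
        have si : σ.shape i = 3 := by rw [h2, ind_self]
        have ht : ∀ j, One (face σ i j).shape i := by
          intro j m
          by_cases hm : m = i
          · subst hm
            rw [face_shape_self, h2, ind_self]
          · rw [face_shape_ne σ hm, h2, ind_ne hm]
        have hD := (D_three (nu f) hσ si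
          (fun X => (-1 : ℤ) ^ ((i : ℕ) + 1) * f X) (fun _ => nu_eq f (ht 0)) (nu_eq f (ht 1))
          (nu_eq f (ht 2)) (fun _ => nu_eq f (ht 3))).trans
          (P21 hG hσ (fun X => (-1 : ℤ) ^ ((i : ℕ) + 1) * f X) (fun X hX => by
            rw [hf.zero _ hX, mul_zero]))
        rw [hD, mul_zero]
      · exact absurd (fun m => by rw [h2 m]; ring) (hex l i h3)
    · push Not at h1
      rw [D_zero, mul_zero]
      intro t
      apply nu_zero
      intro i
      exact h1 i t

/-- Suspension. -/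
theorem lam_susp (G : Submodule R M → Submodule R M → ℤ) (σ : Simplex R M k) :
    lam G (susp σ) = lam G σ := by
  have hsh : ∀ m : Fin k, (susp σ).shape m.succ = σ.shape m := fun m => by
    change (Fin.cons 1 σ.shape : Fin (k + 1) → ℕ) m.succ = _
    rw [Fin.cons_succ]
  have hsh0 : (susp σ).shape 0 = 1 := by
    change (Fin.cons 1 σ.shape : Fin (k + 1) → ℕ) 0 = _
    rw [Fin.cons_zero]
  have hE : ∀ (m : Fin k) (v : ℕ), E (susp σ) m.succ v = E σ m v := by
    intro m v
    unfold E
    change (if pt (susp σ).shape m.succ v 0 = 0 then ⊥ else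
      σ.fn (fun i => pt (susp σ).shape m.succ v i.succ)) = _
    rw [if_neg]
    · congr 1
      funext i
      apply Fin.ext
      by_cases h : i = m
      · subst h
        rw [pt_val_self, pt_val_self, hsh]
      · rw [pt_val_ne _ h]
        change (pt (susp σ).shape m.succ v i.succ : ℕ) = _
        rw [pt_val_ne _ (fun h' => h (Fin.succ_injective _ h')), hsh]
    · intro h
      have h2 : (pt (susp σ).shape m.succ v 0 : ℕ) = 0 := by rw [h]; rfl
      rw [pt_val_ne _ (Fin.succ_ne_zero m).symm, hsh0] at h2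
      omega
  by_cases hex : ∃ i j : Fin k, i < j ∧ Two σ.shape i j
  · obtain ⟨i, j, hij, h⟩ := hex
    have h' : Two (susp σ).shape i.succ j.succ := by
      intro m
      refine Fin.cases ?_ (fun m => ?_) m
      · rw [hsh0, ind_ne (Fin.succ_ne_zero i).symm, ind_ne (Fin.succ_ne_zero j).symm]
      · rw [hsh, h]
        unfold ind
        simp only [Fin.succ_inj]
    rw [lam_eq G hij h, lam_eq G (Fin.succ_lt_succ_iff.2 hij) h', hE, hE]
    simp only [Fin.val_succ]
    ring
  · push Not at hex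
    rw [lam_zero G hex, lam_zero G]
    intro i j hij h
    have hi : i ≠ 0 := by
      rintro rfl
      have := h 0
      rw [hsh0, ind_self, ind_ne hij.ne] at this
      omega
    have hj : j ≠ 0 := by
      rintro rfl
      exact absurd hij (Fin.not_lt_zero i)
    obtain ⟨i', rfl⟩ := Fin.exists_succ_eq.2 hi
    obtain ⟨j', rfl⟩ := Fin.exists_succ_eq.2 hj
    apply hex i' j' (Fin.succ_lt_succ_iff.1 hij)
    intro m
    have := h m.succ
    rw [hsh] at this
    rw [this]
    unfold ind
    simp only [Fin.succ_inj]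

end Pool.Agent.W584.SB
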