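import Pool.Agent.W982.TA.Stm

set_option autoImplicit false

namespace Pool.Agent.W982.TA

lemma g5_oseg_symm (p q : Pt) : oseg p q = oseg q p := by
  unfold oseg
  exact openSegment_symm ℝ (emb p) (emb q)

lemma g5_isSeg_symm {S : Finset Pt} {p q : Pt} (h : IsSeg S p q) : IsSeg S q p := by
  obtain ⟨h1, h2, h3, h4⟩ := h
  refine ⟨h2, h1, h3.symm, ?_⟩
  intro r hr
  rw [g5_oseg_symm]
  exact h4 r hr

lemma g5_isSeg_congr {S : Finset Pt} {p q p' q' : Pt} (h : s(p, q) = s(p', q'))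
    (h1 : IsSeg S p q) : IsSeg S p' q' := by
  rcases Sym2.eq_iff.1 h with ⟨rfl, rfl⟩ | ⟨rfl, rfl⟩
  · exact h1
  · exact g5_isSeg_symm h1

lemma g5_oseg_congr {p q p' q' : Pt} (h : s(p, q) = s(p', q')) : oseg p q = oseg p' q' := by
  rcases Sym2.eq_iff.1 h with ⟨rfl, rfl⟩ | ⟨rfl, rfl⟩
  · rfl
  · exact g5_oseg_symm _ _

theorem g5 : TaskG5 := by
  intro S F hseg hnc
  let P : Set (Set (Sym2 Pt)) := {T | (∀ p q, s(p, q) ∈ T → IsSeg S p q) ∧
    (∀ p q p' q', s(p, q) ∈ T → s(p', q') ∈ T → s(p, q) ≠ s(p', q') →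
      Disjoint (oseg p q) (oseg p' q'))}
  have hF : F ∈ P := ⟨hseg, hnc⟩
  obtain ⟨T, hFT, hmax⟩ := zorn_subset_nonempty P (by
    intro c hc hchain _
    refine ⟨⋃₀ c, ⟨?_, ?_⟩, fun s hs => Set.subset_sUnion_of_mem hs⟩
    · rintro p q ⟨s, hs, hpq⟩
      exact (hc hs).1 p q hpq
    · rintro p q p' q' ⟨s, hs, hpq⟩ ⟨s', hs', hpq'⟩ hne
      rcases hchain.total hs hs' with h | h
      · exact (hc hs').2 p q p' q' (h hpq) hpq' hne
      · exact (hc hs).2 p q p' q' hpq (h hpq') hne) F hF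
  refine ⟨T, ⟨hmax.prop.1, hmax.prop.2, ?_⟩, hFT⟩
  intro p q hpq hdis
  have hins : insert s(p, q) T ∈ P := by
    refine ⟨?_, ?_⟩
    · intro p' q' h
      rcases Set.mem_insert_iff.1 h with h | h
      · exact g5_isSeg_congr h.symm hpq
      · exact hmax.prop.1 p' q' h
    · intro p₁ q₁ p₂ q₂ h1 h2 hne
      rcases Set.mem_insert_iff.1 h1 with h1 | h1
      · rcases Set.mem_insert_iff.1 h2 with h2 | h2
        · exact absurd (h1.trans h2.symm) hne
        · rw [g5_oseg_congr h1]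
          exact hdis p₂ q₂ h2 (by rw [← h1]; exact hne)
      · rcases Set.mem_insert_iff.1 h2 with h2 | h2
        · rw [g5_oseg_congr h2]
          exact (hdis p₁ q₁ h1 (by rw [← h2]; exact hne.symm)).symm
        · exact hmax.prop.2 p₁ q₁ p₂ q₂ h1 h2 hne
  have := hmax.le_of_ge hins (Set.subset_insert _ _)
  exact this (Set.mem_insert _ _)

end Pool.Agent.W982.TA
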