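import Pool.Agent.W982.TA.Grid

/-! # Min-max area triangulations: the point set of the instance -/

set_option autoImplicit false

namespace Pool.Agent.W982.TA

lemma i3_nodup (A B : ℕ) : ((List.range A).flatMap fun x => (List.range B).map fun y =>
    (((x : ℕ) : ℤ), ((y : ℕ) : ℤ))).Nodup := by
  rw [List.nodup_flatMap]
  refine ⟨?_, ?_⟩
  · intro x _
    refine List.Nodup.map ?_ List.nodup_range
    intro a b h
    have h2 := congrArg Prod.snd h
    simpa using h2
  · refine List.Pairwise.imp ?_ List.nodup_range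
    intro a b hab
    show List.Disjoint _ _
    intro p hp hq
    obtain ⟨y, _, rfl⟩ := List.mem_map.1 hp
    obtain ⟨z, _, h⟩ := List.mem_map.1 hq
    have h1 := congrArg Prod.fst h
    exact hab (by simpa using h1.symm)

theorem i3 (h2 : TaskI2) : TaskI3 := by
  intro _ φ
  refine ⟨List.Nodup.filter _ (i3_nodup _ _), ?_⟩
  ext p
  obtain ⟨a, b⟩ := p
  rw [Finset.mem_sdiff, List.mem_toFinset, box, Finset.mem_product, Finset.mem_Icc, Finset.mem_Icc,
    Mset, List.mem_toFinset, Slist, List.mem_filter, List.mem_flatMap]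
  refine and_congr ?_ (by simp)
  constructor
  · rintro ⟨x, hx, hp⟩
    obtain ⟨y, hy, he⟩ := List.mem_map.1 hp
    rw [List.mem_range] at hx hy
    have ha : (x : ℤ) = a := congrArg Prod.fst he
    have hb : (y : ℤ) = b := congrArg Prod.snd he
    refine ⟨⟨by simp only; omega, by simp only; omega⟩, ⟨by simp only; omega, by simp only; omega⟩⟩
  · rintro ⟨⟨h1, h2⟩, ⟨h3, h4⟩⟩
    simp only at h1 h2 h3 h4
    refine ⟨a.toNat, List.mem_range.2 (by omega), List.mem_map.2 ⟨b.toNat, List.mem_range.2 (by omega), ?_⟩⟩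
    refine Prod.ext ?_ ?_
    · show ((a.toNat : ℕ) : ℤ) = a
      omega
    · show ((b.toNat : ℕ) : ℤ) = b
      omega

end Pool.Agent.W982.TA
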